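import Mathlib

/-!
# The commutator of a pair of 4 x 4 block matrices in normal form
-/

open IsLocalRing

namespace Pool.Agent.Helper15.NC

universe u

variable {A : Type u} [CommRing A] {m : ℕ}

/-- Square matrices of size `m`. -/
abbrev Blk (A : Type u) (m : ℕ) := Matrix (Fin m) (Fin m) A

/-- All entries lie in the ideal. -/
def EntIn (I : Ideal A) (M : Blk A m) : Prop := ∀ i j, M i j ∈ I

namespace EntIn

variable {I J : Ideal A} {M N : Blk A m}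

theorem mono (h : I ≤ J) (hM : EntIn I M) : EntIn J M := fun i j => h (hM i j)
theorem add (hM : EntIn I M) (hN : EntIn I N) : EntIn I (M + N) := fun i j =>
  I.add_mem (hM i j) (hN i j)
theorem sub (hM : EntIn I M) (hN : EntIn I N) : EntIn I (M - N) := fun i j =>
  I.sub_mem (hM i j) (hN i j)
theorem neg (hM : EntIn I M) : EntIn I (-M) := fun i j => I.neg_mem (hM i j)
theorem mul_right (hM : EntIn I M) (N : Blk A m) : EntIn I (M * N) := fun i j => by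
  rw [Matrix.mul_apply]
  exact I.sum_mem fun k _ => I.mul_mem_right _ (hM i k)
theorem mul_left (hM : EntIn I M) (N : Blk A m) : EntIn I (N * M) := fun i j => by
  rw [Matrix.mul_apply]
  exact I.sum_mem fun k _ => I.mul_mem_left _ (hM k j)
theorem mul (hM : EntIn I M) (hN : EntIn J N) : EntIn (I * J) (M * N) := fun i j => by
  rw [Matrix.mul_apply]
  exact Ideal.sum_mem _ fun k _ => Ideal.mul_mem_mul (hM i k) (hN k j)

end EntIn

/-- Normal form of a pair of block matrices. -/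
structure NF (X Y : Matrix (Fin 4) (Fin 4) (Blk A m)) : Prop where
  x00 : X 0 0 = 0
  x10 : X 1 0 = 1
  x20 : X 2 0 = 0
  x30 : X 3 0 = 0
  y00 : Y 0 0 = 0
  y10 : Y 1 0 = 0
  y20 : Y 2 0 = 1
  y30 : Y 3 0 = 0
  x01 : X 0 1 = 0
  x11 : X 1 1 = 0
  x21 : X 2 1 = 0
  x31 : X 3 1 = 1

/-- The commutator. -/
def comm4 (X Y : Matrix (Fin 4) (Fin 4) (Blk A m)) : Matrix (Fin 4) (Fin 4) (Blk A m) :=
  X * Y - Y * X

section

variable {X Y : Matrix (Fin 4) (Fin 4) (Blk A m)}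

theorem comm4_apply (X Y : Matrix (Fin 4) (Fin 4) (Blk A m)) (a b : Fin 4) : comm4 X Y a b =
    X a 0 * Y 0 b + X a 1 * Y 1 b + X a 2 * Y 2 b + X a 3 * Y 3 b
      - (Y a 0 * X 0 b + Y a 1 * X 1 b + Y a 2 * X 2 b + Y a 3 * X 3 b) := by
  simp only [comm4, Matrix.sub_apply, Matrix.mul_apply, Fin.sum_univ_four]

theorem NF.c0 (h : NF X Y) (a : Fin 4) : comm4 X Y a 0 = X a 2 - Y a 1 := by
  rw [comm4_apply, h.x00, h.x10, h.x20, h.x30, h.y00, h.y10, h.y20, h.y30]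
  simp

theorem NF.c01 (h : NF X Y) : comm4 X Y 0 1 = X 0 2 * Y 2 1 + X 0 3 * Y 3 1 - Y 0 3 := by
  rw [comm4_apply, h.x01, h.x11, h.x21, h.x31, h.x00]; simp
theorem NF.c11 (h : NF X Y) : comm4 X Y 1 1 =
    Y 0 1 + X 1 2 * Y 2 1 + X 1 3 * Y 3 1 - Y 1 3 := by
  rw [comm4_apply, h.x01, h.x11, h.x21, h.x31, h.x10]; simp
theorem NF.c21 (h : NF X Y) : comm4 X Y 2 1 = X 2 2 * Y 2 1 + X 2 3 * Y 3 1 - Y 2 3 := by
  rw [comm4_apply, h.x01, h.x11, h.x21, h.x31, h.x20]; simp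
theorem NF.c31 (h : NF X Y) : comm4 X Y 3 1 =
    Y 1 1 + X 3 2 * Y 2 1 + X 3 3 * Y 3 1 - Y 3 3 := by
  rw [comm4_apply, h.x01, h.x11, h.x21, h.x31, h.x30]; simp

theorem NF.c02 (h : NF X Y) : comm4 X Y 0 2 = X 0 2 * Y 2 2 + X 0 3 * Y 3 2
    - (Y 0 1 * X 1 2 + Y 0 2 * X 2 2 + Y 0 3 * X 3 2) := by
  rw [comm4_apply, h.x00, h.x01, h.y00]; simp
theorem NF.c12 (h : NF X Y) : comm4 X Y 1 2 = Y 0 2 + X 1 2 * Y 2 2 + X 1 3 * Y 3 2
    - (Y 1 1 * X 1 2 + Y 1 2 * X 2 2 + Y 1 3 * X 3 2) := by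
  rw [comm4_apply, h.x10, h.x11, h.y10]; simp
theorem NF.c22 (h : NF X Y) : comm4 X Y 2 2 = X 2 2 * Y 2 2 + X 2 3 * Y 3 2
    - (X 0 2 + Y 2 1 * X 1 2 + Y 2 2 * X 2 2 + Y 2 3 * X 3 2) := by
  rw [comm4_apply, h.x20, h.x21, h.y20]; simp
theorem NF.c32 (h : NF X Y) : comm4 X Y 3 2 = Y 1 2 + X 3 2 * Y 2 2 + X 3 3 * Y 3 2
    - (Y 3 1 * X 1 2 + Y 3 2 * X 2 2 + Y 3 3 * X 3 2) := by
  rw [comm4_apply, h.x30, h.x31, h.y30]; simp

theorem NF.c03 (h : NF X Y) : comm4 X Y 0 3 = X 0 2 * Y 2 3 + X 0 3 * Y 3 3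
    - (Y 0 1 * X 1 3 + Y 0 2 * X 2 3 + Y 0 3 * X 3 3) := by
  rw [comm4_apply, h.x00, h.x01, h.y00]; simp
theorem NF.c13 (h : NF X Y) : comm4 X Y 1 3 = Y 0 3 + X 1 2 * Y 2 3 + X 1 3 * Y 3 3
    - (Y 1 1 * X 1 3 + Y 1 2 * X 2 3 + Y 1 3 * X 3 3) := by
  rw [comm4_apply, h.x10, h.x11, h.y10]; simp
theorem NF.c23 (h : NF X Y) : comm4 X Y 2 3 = X 2 2 * Y 2 3 + X 2 3 * Y 3 3
    - (X 0 3 + Y 2 1 * X 1 3 + Y 2 2 * X 2 3 + Y 2 3 * X 3 3) := by
  rw [comm4_apply, h.x20, h.x21, h.y20]; simp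
theorem NF.c33 (h : NF X Y) : comm4 X Y 3 3 = Y 1 3 + X 3 2 * Y 2 3 + X 3 3 * Y 3 3
    - (Y 3 1 * X 1 3 + Y 3 2 * X 2 3 + Y 3 3 * X 3 3) := by
  rw [comm4_apply, h.x30, h.x31, h.y30]; simp

end

/-- The blocks that vanish on the special locus. -/
structure Small (I : Ideal A) (X Y : Matrix (Fin 4) (Fin 4) (Blk A m)) : Prop where
  x02 : EntIn I (X 0 2)
  x12 : EntIn I (X 1 2)
  x22 : EntIn I (X 2 2)
  x03 : EntIn I (X 0 3)
  x13 : EntIn I (X 1 3)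
  x23 : EntIn I (X 2 3)
  x33 : EntIn I (X 3 3)
  y01 : EntIn I (Y 0 1)
  y11 : EntIn I (Y 1 1)
  y21 : EntIn I (Y 2 1)
  y31 : EntIn I (Y 3 1 - X 3 2)
  y02 : EntIn I (Y 0 2)
  y12 : EntIn I (Y 1 2)
  y22 : EntIn I (Y 2 2)
  y03 : EntIn I (Y 0 3)
  y13 : EntIn I (Y 1 3)
  y23 : EntIn I (Y 2 3)
  y33 : EntIn I (Y 3 3)

/-- The thirteen blocks of the commutator used as generators. -/
def genBlk (X Y : Matrix (Fin 4) (Fin 4) (Blk A m)) : Fin 13 → Blk A m :=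
  ![comm4 X Y 0 0, comm4 X Y 1 0, comm4 X Y 2 0, comm4 X Y 3 0,
    comm4 X Y 1 1, comm4 X Y 2 1, comm4 X Y 3 1,
    comm4 X Y 1 2, comm4 X Y 2 2, comm4 X Y 3 2,
    comm4 X Y 1 3, comm4 X Y 2 3, comm4 X Y 3 3]

/-- The thirteen blocks have entries in `I`. -/
structure Gen (I : Ideal A) (X Y : Matrix (Fin 4) (Fin 4) (Blk A m)) : Prop where
  c00 : EntIn I (comm4 X Y 0 0)
  c10 : EntIn I (comm4 X Y 1 0)
  c20 : EntIn I (comm4 X Y 2 0)
  c30 : EntIn I (comm4 X Y 3 0)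
  c11 : EntIn I (comm4 X Y 1 1)
  c21 : EntIn I (comm4 X Y 2 1)
  c31 : EntIn I (comm4 X Y 3 1)
  c12 : EntIn I (comm4 X Y 1 2)
  c22 : EntIn I (comm4 X Y 2 2)
  c32 : EntIn I (comm4 X Y 3 2)
  c13 : EntIn I (comm4 X Y 1 3)
  c23 : EntIn I (comm4 X Y 2 3)
  c33 : EntIn I (comm4 X Y 3 3)

section

variable {X Y : Matrix (Fin 4) (Fin 4) (Blk A m)}

/-- If the thirteen blocks lie in `K` and `b ^ 2 ≤ K` then all of the commutator lies in `K`. -/
theorem all_comm_mem (h : NF X Y) {b K : Ideal A} (hs : Small b X Y) (hg : Gen K X Y)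
    (hbK : b * b ≤ K) (r s : Fin 4) : EntIn K (comm4 X Y r s) := by
  have pr : ∀ {M N : Blk A m}, EntIn b M → EntIn b N → EntIn K (M * N) := fun hM hN =>
    (hM.mul hN).mono hbK
  have e03 : EntIn K (Y 0 3) := by
    have : Y 0 3 = comm4 X Y 1 3 - X 1 2 * Y 2 3 - X 1 3 * Y 3 3
        + (Y 1 1 * X 1 3 + Y 1 2 * X 2 3 + Y 1 3 * X 3 3) := by
      rw [h.c13]; abel
    rw [this]
    exact ((hg.c13.sub (pr hs.x12 hs.y23)).sub (pr hs.x13 hs.y33)).add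
      (((pr hs.y11 hs.x13).add (pr hs.y12 hs.x23)).add (pr hs.y13 hs.x33))
  have x03 : EntIn K (X 0 3) := by
    have : X 0 3 = X 2 2 * Y 2 3 + X 2 3 * Y 3 3
        - (comm4 X Y 2 3 + Y 2 1 * X 1 3 + Y 2 2 * X 2 3 + Y 2 3 * X 3 3) := by
      rw [h.c23]; abel
    rw [this]
    exact ((pr hs.x22 hs.y23).add (pr hs.x23 hs.y33)).sub
      (((hg.c23.add (pr hs.y21 hs.x13)).add (pr hs.y22 hs.x23)).add (pr hs.y23 hs.x33))
  fin_cases r <;> fin_cases s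
  · exact hg.c00
  · show EntIn K (comm4 X Y 0 1)
    rw [h.c01]
    exact ((pr hs.x02 hs.y21).add (x03.mul_right _)).sub e03
  · show EntIn K (comm4 X Y 0 2)
    rw [h.c02]
    exact ((pr hs.x02 hs.y22).add (x03.mul_right _)).sub
      (((pr hs.y01 hs.x12).add (pr hs.y02 hs.x22)).add (e03.mul_right _))
  · show EntIn K (comm4 X Y 0 3)
    rw [h.c03]
    exact ((pr hs.x02 hs.y23).add (pr hs.x03 hs.y33)).sub
      (((pr hs.y01 hs.x13).add (pr hs.y02 hs.x23)).add (pr hs.y03 hs.x33))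
  · exact hg.c10
  · exact hg.c11
  · exact hg.c12
  · exact hg.c13
  · exact hg.c20
  · exact hg.c21
  · exact hg.c22
  · exact hg.c23
  · exact hg.c30
  · exact hg.c31
  · exact hg.c32
  · exact hg.c33

/-- Elimination: if the thirteen blocks lie in `K`, the five blocks and the diagonal of `X 1 3` lie
in `K`, and `n * b ≤ K` where `n` contains `b` and the off-diagonal part of `X 3 2`, and the
differences of the diagonal entries of `X 3 2` are units, then all small blocks lie in `K`. -/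
theorem small_mem (h : NF X Y) {b n K : Ideal A} (hs : Small b X Y) (hg : Gen K X Y)
    (hbn : b ≤ n) (hnK : n * b ≤ K) (h11 : EntIn K (Y 1 1)) (h21 : EntIn K (Y 2 1))
    (h22 : EntIn K (Y 2 2)) (hx23 : EntIn K (X 2 3)) (hx33 : EntIn K (X 3 3))
    (hd : ∀ i, X 1 3 i i ∈ K) (hoff : ∀ i j, i ≠ j → X 3 2 i j ∈ n)
    (hu : ∀ i j, i ≠ j → IsUnit (X 3 2 j j - X 3 2 i i)) : Small K X Y := by
  have pr : ∀ {M N : Blk A m}, EntIn b M → EntIn b N → EntIn K (M * N) := fun hM hN =>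
    (hM.mul hN).mono ((Ideal.mul_mono_left hbn).trans hnK)
  have y31 : EntIn K (Y 3 1 - X 3 2) := by
    have : Y 3 1 - X 3 2 = -comm4 X Y 3 0 := by rw [h.c0]; abel
    rw [this]; exact hg.c30.neg
  have x12 : EntIn K (X 1 2) := by
    have : X 1 2 = comm4 X Y 1 0 + Y 1 1 := by rw [h.c0]; abel
    rw [this]; exact hg.c10.add h11
  have x22 : EntIn K (X 2 2) := by
    have : X 2 2 = comm4 X Y 2 0 + Y 2 1 := by rw [h.c0]; abel
    rw [this]; exact hg.c20.add h21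
  have e03 : EntIn K (Y 0 3) := by
    have : Y 0 3 = comm4 X Y 1 3 - X 1 2 * Y 2 3 - X 1 3 * Y 3 3
        + (Y 1 1 * X 1 3 + Y 1 2 * X 2 3 + Y 1 3 * X 3 3) := by
      rw [h.c13]; abel
    rw [this]
    exact ((hg.c13.sub (pr hs.x12 hs.y23)).sub (pr hs.x13 hs.y33)).add
      (((pr hs.y11 hs.x13).add (pr hs.y12 hs.x23)).add (pr hs.y13 hs.x33))
  have x03 : EntIn K (X 0 3) := by
    have : X 0 3 = X 2 2 * Y 2 3 + X 2 3 * Y 3 3
        - (comm4 X Y 2 3 + Y 2 1 * X 1 3 + Y 2 2 * X 2 3 + Y 2 3 * X 3 3) := by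
      rw [h.c23]; abel
    rw [this]
    exact ((pr hs.x22 hs.y23).add (pr hs.x23 hs.y33)).sub
      (((hg.c23.add (pr hs.y21 hs.x13)).add (pr hs.y22 hs.x23)).add (pr hs.y23 hs.x33))
  have y23 : EntIn K (Y 2 3) := by
    have : Y 2 3 = X 2 2 * Y 2 1 + X 2 3 * Y 3 1 - comm4 X Y 2 1 := by rw [h.c21]; abel
    rw [this]
    exact ((pr hs.x22 hs.y21).add (hx23.mul_right _)).sub hg.c21
  have x02 : EntIn K (X 0 2) := by
    have : X 0 2 = X 2 2 * Y 2 2 + X 2 3 * Y 3 2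
        - (comm4 X Y 2 2 + Y 2 1 * X 1 2 + Y 2 2 * X 2 2 + Y 2 3 * X 3 2) := by
      rw [h.c22]; abel
    rw [this]
    exact ((pr hs.x22 hs.y22).add (hx23.mul_right _)).sub
      (((hg.c22.add (pr hs.y21 hs.x12)).add (pr hs.y22 hs.x22)).add (y23.mul_right _))
  have y01 : EntIn K (Y 0 1) := by
    have : Y 0 1 = X 0 2 - comm4 X Y 0 0 := by rw [h.c0]; abel
    rw [this]; exact x02.sub hg.c00
  have y33 : EntIn K (Y 3 3) := by
    have : Y 3 3 = Y 1 1 + X 3 2 * Y 2 1 + X 3 3 * Y 3 1 - comm4 X Y 3 1 := by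
      rw [h.c31]; abel
    rw [this]
    exact ((h11.add (h21.mul_left _)).add (hx33.mul_right _)).sub hg.c31
  have y12 : EntIn K (Y 1 2) := by
    have : Y 1 2 = comm4 X Y 3 2 - X 3 2 * Y 2 2 - X 3 3 * Y 3 2
        + (Y 3 1 * X 1 2 + Y 3 2 * X 2 2 + Y 3 3 * X 3 2) := by
      rw [h.c32]; abel
    rw [this]
    exact ((hg.c32.sub (h22.mul_left _)).sub (hx33.mul_right _)).add
      (((x12.mul_left _).add (x22.mul_left _)).add (y33.mul_right _))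
  -- the commutator of `X 1 3` and `X 3 2`
  have hcomm : EntIn K (X 1 3 * X 3 2 - X 3 2 * X 1 3) := by
    have : X 1 3 * X 3 2 - X 3 2 * X 1 3 = (comm4 X Y 3 3 - X 3 2 * Y 2 3 - X 3 3 * Y 3 3
        + Y 3 2 * X 2 3 + Y 3 3 * X 3 3 + (Y 3 1 - X 3 2) * X 1 3) +
        (comm4 X Y 1 1 - Y 0 1 - X 1 2 * Y 2 1 - X 1 3 * (Y 3 1 - X 3 2)) := by
      rw [h.c33, h.c11]; noncomm_ring
    rw [this]
    refine (((((hg.c33.sub (y23.mul_left _)).sub (hx33.mul_right _)).add (hx23.mul_left _)).add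
      (y33.mul_right _)).add (pr hs.y31 hs.x13)).add ?_
    exact ((hg.c11.sub y01).sub (pr hs.x12 hs.y21)).sub (pr hs.x13 hs.y31)
  have x13 : EntIn K (X 1 3) := by
    intro i j
    by_cases hij : i = j
    · subst hij; exact hd i
    · have h1 := hcomm i j
      rw [Matrix.sub_apply, Matrix.mul_apply, Matrix.mul_apply,
        ← Finset.add_sum_erase _ _ (Finset.mem_univ j),
        ← Finset.add_sum_erase _ (fun k => X 3 2 i k * X 1 3 k j) (Finset.mem_univ i)] at h1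
      have h2 : ∑ k ∈ Finset.univ.erase j, X 1 3 i k * X 3 2 k j ∈ K := by
        refine Ideal.sum_mem _ fun k hk => ?_
        rw [mul_comm]
        exact hnK (Ideal.mul_mem_mul (hoff k j (Finset.ne_of_mem_erase hk)) (hs.x13 i k))
      have h3 : ∑ k ∈ Finset.univ.erase i, X 3 2 i k * X 1 3 k j ∈ K := by
        refine Ideal.sum_mem _ fun k hk => ?_
        exact hnK (Ideal.mul_mem_mul (hoff i k (Finset.ne_of_mem_erase hk).symm) (hs.x13 k j))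
      have h4 : (X 3 2 j j - X 3 2 i i) * X 1 3 i j ∈ K := by
        have h5 := K.add_mem (K.sub_mem h1 h2) h3
        have h6 : (X 3 2 j j - X 3 2 i i) * X 1 3 i j = X 1 3 i j * X 3 2 j j +
            ∑ k ∈ Finset.univ.erase j, X 1 3 i k * X 3 2 k j -
            (X 3 2 i i * X 1 3 i j + ∑ k ∈ Finset.univ.erase i, X 3 2 i k * X 1 3 k j) -
            ∑ k ∈ Finset.univ.erase j, X 1 3 i k * X 3 2 k j +
            ∑ k ∈ Finset.univ.erase i, X 3 2 i k * X 1 3 k j := by ring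
        rw [h6]; exact h5
      exact (Ideal.unit_mul_mem_iff_mem K (hu i j hij)).1 h4
  have y13 : EntIn K (Y 1 3) := by
    have : Y 1 3 = Y 0 1 + X 1 2 * Y 2 1 + X 1 3 * Y 3 1 - comm4 X Y 1 1 := by
      rw [h.c11]; abel
    rw [this]
    exact ((y01.add (pr hs.x12 hs.y21)).add (x13.mul_right _)).sub hg.c11
  have y02 : EntIn K (Y 0 2) := by
    have : Y 0 2 = comm4 X Y 1 2 - X 1 2 * Y 2 2 - X 1 3 * Y 3 2
        + (Y 1 1 * X 1 2 + Y 1 2 * X 2 2 + Y 1 3 * X 3 2) := by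
      rw [h.c12]; abel
    rw [this]
    exact ((hg.c12.sub (pr hs.x12 hs.y22)).sub (x13.mul_right _)).add
      (((pr hs.y11 hs.x12).add (pr hs.y12 hs.x22)).add (y13.mul_right _))
  exact ⟨x02, x12, x22, x03, x13, hx23, hx33, y01, h11, h21, y31, y02, y12, h22, e03, y13, y23,
    y33⟩

end

end Pool.Agent.Helper15.NC
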