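import Pool.Agent.Helper15.NC.Block

/-!
# Ideals generated by entries of blocks
-/

open IsLocalRing

namespace Pool.Agent.Helper15.NC

universe u

variable {A : Type u} [CommRing A] {m : ℕ}

/-- The ideal generated by the entries of a finite family of blocks. -/
def entSpan {k : ℕ} (F : Fin k → Blk A m) : Ideal A :=
  Ideal.span (Set.range fun t : Fin k × Fin m × Fin m => F t.1 t.2.1 t.2.2)

theorem entIn_entSpan {k : ℕ} (F : Fin k → Blk A m) (t : Fin k) : EntIn (entSpan F) (F t) :=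
  fun i j => Ideal.subset_span ⟨(t, i, j), rfl⟩

theorem entSpan_le {k : ℕ} (F : Fin k → Blk A m) (I : Ideal A) (h : ∀ t, EntIn I (F t)) :
    entSpan F ≤ I := by
  rw [entSpan, Ideal.span_le]
  rintro _ ⟨⟨t, i, j⟩, rfl⟩
  exact h t i j

/-- The eighteen small blocks. -/
def smallBlk (X Y : Matrix (Fin 4) (Fin 4) (Blk A m)) : Fin 18 → Blk A m :=
  ![X 0 2, X 1 2, X 2 2, X 0 3, X 1 3, X 2 3, X 3 3, Y 0 1, Y 1 1, Y 2 1, Y 3 1 - X 3 2,
    Y 0 2, Y 1 2, Y 2 2, Y 0 3, Y 1 3, Y 2 3, Y 3 3]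

/-- Five of the small blocks. -/
def fiveBlk (X Y : Matrix (Fin 4) (Fin 4) (Blk A m)) : Fin 5 → Blk A m :=
  ![Y 1 1, Y 2 1, Y 2 2, X 2 3, X 3 3]

theorem small_entSpan (X Y : Matrix (Fin 4) (Fin 4) (Blk A m)) :
    Small (entSpan (smallBlk X Y)) X Y :=
  ⟨entIn_entSpan (smallBlk X Y) 0, entIn_entSpan (smallBlk X Y) 1,
    entIn_entSpan (smallBlk X Y) 2, entIn_entSpan (smallBlk X Y) 3,
    entIn_entSpan (smallBlk X Y) 4, entIn_entSpan (smallBlk X Y) 5,
    entIn_entSpan (smallBlk X Y) 6, entIn_entSpan (smallBlk X Y) 7,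
    entIn_entSpan (smallBlk X Y) 8, entIn_entSpan (smallBlk X Y) 9,
    entIn_entSpan (smallBlk X Y) 10, entIn_entSpan (smallBlk X Y) 11,
    entIn_entSpan (smallBlk X Y) 12, entIn_entSpan (smallBlk X Y) 13,
    entIn_entSpan (smallBlk X Y) 14, entIn_entSpan (smallBlk X Y) 15,
    entIn_entSpan (smallBlk X Y) 16, entIn_entSpan (smallBlk X Y) 17⟩

theorem gen_entSpan (X Y : Matrix (Fin 4) (Fin 4) (Blk A m)) :
    Gen (entSpan (genBlk X Y)) X Y :=
  ⟨entIn_entSpan (genBlk X Y) 0, entIn_entSpan (genBlk X Y) 1,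
    entIn_entSpan (genBlk X Y) 2, entIn_entSpan (genBlk X Y) 3,
    entIn_entSpan (genBlk X Y) 4, entIn_entSpan (genBlk X Y) 5,
    entIn_entSpan (genBlk X Y) 6, entIn_entSpan (genBlk X Y) 7,
    entIn_entSpan (genBlk X Y) 8, entIn_entSpan (genBlk X Y) 9,
    entIn_entSpan (genBlk X Y) 10, entIn_entSpan (genBlk X Y) 11,
    entIn_entSpan (genBlk X Y) 12⟩

theorem smallBlk_le {X Y : Matrix (Fin 4) (Fin 4) (Blk A m)} {I : Ideal A} (h : Small I X Y) :
    entSpan (smallBlk X Y) ≤ I := by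
  apply entSpan_le
  intro t
  fin_cases t
  exacts [h.x02, h.x12, h.x22, h.x03, h.x13, h.x23, h.x33, h.y01, h.y11, h.y21, h.y31, h.y02,
    h.y12, h.y22, h.y03, h.y13, h.y23, h.y33]

theorem gen_of_small {X Y : Matrix (Fin 4) (Fin 4) (Blk A m)} {I : Ideal A} (hnf : NF X Y)
    (h : Small I X Y) : Gen I X Y := by
  have d : ∀ a : Fin 4, EntIn I (X a 2 - Y a 1) → EntIn I (comm4 X Y a 0) := fun a ha => by
    rw [hnf.c0]; exact ha
  refine ⟨d 0 (h.x02.sub h.y01), d 1 (h.x12.sub h.y11), d 2 (h.x22.sub h.y21), d 3 ?_, ?_, ?_, ?_,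
    ?_, ?_, ?_, ?_, ?_, ?_⟩
  · have : X 3 2 - Y 3 1 = -(Y 3 1 - X 3 2) := by abel
    rw [this]; exact h.y31.neg
  · rw [hnf.c11]
    exact ((h.y01.add (h.x12.mul_right _)).add (h.x13.mul_right _)).sub h.y13
  · rw [hnf.c21]
    exact ((h.x22.mul_right _).add (h.x23.mul_right _)).sub h.y23
  · rw [hnf.c31]
    exact ((h.y11.add (h.y21.mul_left _)).add (h.x33.mul_right _)).sub h.y33
  · rw [hnf.c12]
    exact ((h.y02.add (h.x12.mul_right _)).add (h.x13.mul_right _)).sub
      (((h.y11.mul_right _).add (h.y12.mul_right _)).add (h.y13.mul_right _))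
  · rw [hnf.c22]
    exact ((h.x22.mul_right _).add (h.x23.mul_right _)).sub
      (((h.x02.add (h.y21.mul_right _)).add (h.y22.mul_right _)).add (h.y23.mul_right _))
  · rw [hnf.c32]
    exact ((h.y12.add (h.y22.mul_left _)).add (h.x33.mul_right _)).sub
      (((h.x12.mul_left _).add (h.x22.mul_left _)).add (h.y33.mul_right _))
  · rw [hnf.c13]
    exact ((h.y03.add (h.x12.mul_right _)).add (h.x13.mul_right _)).sub
      (((h.y11.mul_right _).add (h.y12.mul_right _)).add (h.y13.mul_right _))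
  · rw [hnf.c23]
    exact ((h.x22.mul_right _).add (h.x23.mul_right _)).sub
      (((h.x03.add (h.y21.mul_right _)).add (h.y22.mul_right _)).add (h.y23.mul_right _))
  · rw [hnf.c33]
    exact ((h.y13.add (h.y23.mul_left _)).add (h.x33.mul_right _)).sub
      (((h.x13.mul_left _).add (h.x23.mul_left _)).add (h.y33.mul_right _))

/-- The ideal generated by the diagonal entries of the block `X 1 3`. -/
def diagSpan (X : Matrix (Fin 4) (Fin 4) (Blk A m)) : Ideal A :=
  Ideal.span (Set.range fun i : Fin m => X 1 3 i i)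

/-- Nakayama: the small blocks are generated by the thirteen blocks, the five blocks and the
diagonal of `X 1 3`. -/
theorem small_le [IsLocalRing A] {X Y : Matrix (Fin 4) (Fin 4) (Blk A m)}
    (h : NF X Y) (hm : Small (maximalIdeal A) X Y)
    (hoff : ∀ i j, i ≠ j → X 3 2 i j ∈ maximalIdeal A)
    (hu : ∀ i j, i ≠ j → IsUnit (X 3 2 j j - X 3 2 i i)) :
    entSpan (smallBlk X Y) ≤
      entSpan (genBlk X Y) ⊔ (entSpan (fiveBlk X Y) ⊔ diagSpan X) := by
  set b := entSpan (smallBlk X Y) with hb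
  set K := entSpan (genBlk X Y) ⊔ (entSpan (fiveBlk X Y) ⊔ diagSpan X) with hK
  have hfg : b.FG := ⟨(Set.finite_range _).toFinset, by rw [Set.Finite.coe_toFinset]; rfl⟩
  apply Submodule.le_of_le_smul_of_le_jacobson_bot hfg (I := maximalIdeal A)
    (IsLocalRing.maximalIdeal_le_jacobson ⊥)
  have hgK : Gen (K ⊔ maximalIdeal A • b) X Y := by
    have : ∀ t, EntIn (K ⊔ maximalIdeal A • b) (genBlk X Y t) := fun t =>
      (entIn_entSpan (genBlk X Y) t).mono (le_sup_left.trans le_sup_left)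
    exact ⟨this 0, this 1, this 2, this 3, this 4, this 5, this 6, this 7, this 8, this 9,
      this 10, this 11, this 12⟩
  have h5 : ∀ t, EntIn (K ⊔ maximalIdeal A • b) (fiveBlk X Y t) := fun t =>
    (entIn_entSpan (fiveBlk X Y) t).mono
      ((le_sup_left.trans le_sup_right).trans (le_sup_left : K ≤ K ⊔ maximalIdeal A • b))
  apply smallBlk_le
  refine small_mem h (n := maximalIdeal A) (b := b) (small_entSpan X Y) hgK (smallBlk_le hm)
    ?_ (h5 0) (h5 1) (h5 2) (h5 3) (h5 4) ?_ hoff hu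
  · exact le_sup_right
  · intro i
    have : X 1 3 i i ∈ diagSpan X := Ideal.subset_span ⟨i, rfl⟩
    exact (le_sup_right.trans (le_sup_right.trans
      (le_sup_left : K ≤ K ⊔ maximalIdeal A • b)) : diagSpan X ≤ _) this

end Pool.Agent.Helper15.NC
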