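import Mathlib

open IsLocalRing RingTheory.Sequence Module

namespace Pool.Agent.Helper15.NC

universe u

/-- Classes of elements of the maximal ideal in the cotangent space. -/
lemma linearIndependent_toCotangent {B : Type u} [CommRing B] [IsLocalRing B] {C : ℕ}
    (f : Fin C → B) (hf : ∀ k, f k ∈ maximalIdeal B)
    (hind : ∀ r : Fin C → B, ∑ k, r k * f k ∈ (maximalIdeal B) ^ 2 → ∀ k, r k ∈ maximalIdeal B) :
    LinearIndependent (ResidueField B)
      (fun k => ((maximalIdeal B).toCotangent ⟨f k, hf k⟩ : CotangentSpace B)) := by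
  rw [Fintype.linearIndependent_iff]
  intro g hg
  choose r hr using fun i => IsLocalRing.residue_surjective (g i)
  have h1 : ((maximalIdeal B).toCotangent (∑ k, r k • (⟨f k, hf k⟩ : maximalIdeal B)) :
      CotangentSpace B) = 0 := by
    rw [← hg, map_sum]
    refine Finset.sum_congr rfl fun k _ => ?_
    rw [map_smul, ← hr k]
    rfl
  rw [Ideal.toCotangent_eq_zero] at h1
  have h2 : ∑ k, r k * f k ∈ (maximalIdeal B) ^ 2 := by
    convert h1 using 1
    simp
  intro i
  rw [← hr i]
  exact (IsLocalRing.residue_eq_zero_iff _).2 (hind r h2 i)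

lemma regular_quotient {B : Type u} [CommRing B] [IsRegularLocalRing B] {C : ℕ}
    (f : Fin C → B) (hf : ∀ k, f k ∈ maximalIdeal B)
    (hind : ∀ r : Fin C → B, ∑ k, r k * f k ∈ (maximalIdeal B) ^ 2 → ∀ k, r k ∈ maximalIdeal B) :
    IsRegularLocalRing (B ⧸ Ideal.span (Set.range f)) ∧
      ringKrullDim (B ⧸ Ideal.span (Set.range f)) + C = ringKrullDim B := by
  classical
  set I := Ideal.span (Set.range f) with hI
  have hIm : I ≤ maximalIdeal B := by
    rw [hI, Ideal.span_le]
    rintro _ ⟨k, rfl⟩
    exact hf k
  have hIne : I ≠ ⊤ := fun h => (maximalIdeal.isMaximal B).ne_top (top_le_iff.1 (h ▸ hIm))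
  have : Nontrivial (B ⧸ I) := Ideal.Quotient.nontrivial_iff.2 hIne
  have : IsLocalRing (B ⧸ I) :=
    IsLocalRing.of_surjective' (Ideal.Quotient.mk I) Ideal.Quotient.mk_surjective
  -- linear algebra
  set V := CotangentSpace B
  set K := ResidueField B
  let v : Fin C → V := fun k => ((maximalIdeal B).toCotangent ⟨f k, hf k⟩ : CotangentSpace B)
  have hv : LinearIndependent K v := linearIndependent_toCotangent f hf hind
  set W : Submodule K V := Submodule.span K (Set.range v) with hW
  have hWC : finrank K W = C := by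
    rw [hW, finrank_span_eq_card hv, Fintype.card_fin]
  have hd : finrank K (V ⧸ W) + C = finrank K V := by
    rw [← hWC]; exact Submodule.finrank_quotient_add_finrank W
  let b := Module.finBasis K (V ⧸ W)
  have hlift : ∀ i, ∃ y : maximalIdeal B,
      W.mkQ ((maximalIdeal B).toCotangent y : CotangentSpace B) = b i := by
    intro i
    obtain ⟨w, hw⟩ := W.mkQ_surjective (b i)
    obtain ⟨y, hy⟩ := (maximalIdeal B).toCotangent_surjective w
    exact ⟨y, by rw [hy, hw]⟩
  choose y hy using hlift
  have hspan : Submodule.span K ((maximalIdeal B).toCotangent ''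
      (Set.range (fun k => (⟨f k, hf k⟩ : maximalIdeal B)) ∪ Set.range y)) = ⊤ := by
    rw [Set.image_union, Submodule.span_union, ← Set.range_comp, ← Set.range_comp]
    have h1 : Submodule.span K (Set.range ((maximalIdeal B).toCotangent ∘
      (fun k => (⟨f k, hf k⟩ : maximalIdeal B)))) = W := rfl
    rw [h1]
    set U := W ⊔ Submodule.span K (Set.range ((maximalIdeal B).toCotangent ∘ y)) with hU
    have h2 : U.map W.mkQ = ⊤ := by
      have h3 : (Submodule.span K (Set.range ((maximalIdeal B).toCotangent ∘ y))).map W.mkQ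
          = ⊤ := by
        rw [Submodule.map_span, ← Set.range_comp]
        have h3 : (⇑W.mkQ ∘ ⇑(maximalIdeal B).toCotangent ∘ y) = b := by
          funext i
          exact hy i
        rw [h3, b.span_eq]
      rw [hU, Submodule.map_sup, h3]
      simp
    rw [eq_top_iff]
    intro x _
    have : W.mkQ x ∈ U.map W.mkQ := by rw [h2]; trivial
    obtain ⟨z, hz, hzx⟩ := this
    have h4 : x - z ∈ W := by
      rw [← Submodule.ker_mkQ W, LinearMap.mem_ker, map_sub, hzx, sub_self]
    have h5 : x - z ∈ U := (le_sup_left : W ≤ U) h4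
    simpa using U.add_mem h5 hz
  rw [CotangentSpace.span_image_eq_top_iff] at hspan
  have hmax : maximalIdeal B = I ⊔ Ideal.span (Set.range (fun i => (y i : B))) := by
    have h1 := congrArg (Submodule.map (maximalIdeal B).subtype) hspan
    rw [Submodule.map_span, Submodule.map_top, Submodule.range_subtype, Set.image_union,
      ← Set.range_comp, ← Set.range_comp, Submodule.span_union] at h1
    exact h1.symm
  have hmax' : maximalIdeal (B ⧸ I) =
      Ideal.span (Set.range (fun i => Ideal.Quotient.mk I (y i : B))) := by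
    have h1 := congrArg (Ideal.map (Ideal.Quotient.mk I)) hmax
    rw [IsLocalRing.map_maximalIdeal_of_surjective (Ideal.Quotient.mk I)
      Ideal.Quotient.mk_surjective, Ideal.map_sup, Ideal.map_quotient_self, bot_sup_eq,
      Ideal.map_span, ← Set.range_comp] at h1
    exact h1
  have hle : (maximalIdeal (B ⧸ I)).spanFinrank ≤ finrank K (V ⧸ W) := by
    rw [hmax']
    refine (Submodule.spanFinrank_span_le_ncard_of_finite (Set.finite_range _)).trans ?_
    rw [← Nat.card_coe_set_eq]
    have := Finite.card_range_le (fun i => Ideal.Quotient.mk I (y i : B))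
    simpa using this
  have hreg := (IsRegularLocalRing.iff_finrank_cotangentSpace B).1 inferInstance
  have hspanI : I.spanFinrank ≤ C := by
    rw [hI]
    refine (Submodule.spanFinrank_span_le_ncard_of_finite (Set.finite_range _)).trans ?_
    rw [← Nat.card_coe_set_eq]
    have := Finite.card_range_le f
    simpa using this
  have hdim : ringKrullDim B ≤ ringKrullDim (B ⧸ I) + C := by
    refine (ringKrullDim_le_ringKrullDim_quotient_add_spanFinrank I ?_).trans ?_
    · rw [IsLocalRing.ringJacobson_eq_maximalIdeal]; exact hIm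
    · gcongr
  -- numeric bookkeeping
  obtain ⟨n, hn⟩ : ∃ n : ℕ, ringKrullDim (B ⧸ I) = n := by
    have h1 : ringKrullDim (B ⧸ I) ≠ ⊥ := ringKrullDim_ne_bot
    have h2 : ringKrullDim (B ⧸ I) ≠ ⊤ := ringKrullDim_ne_top
    obtain ⟨m, hm⟩ := WithBot.ne_bot_iff_exists.1 h1
    rw [← hm] at h2 ⊢
    have h3 : m ≠ ⊤ := fun h => h2 (by rw [h]; rfl)
    obtain ⟨k, hk⟩ := ENat.ne_top_iff_exists.1 h3
    exact ⟨k, by rw [← hk]; rfl⟩
  rw [← hreg, hn] at hdim
  have hdim' : finrank K V ≤ n + C := by exact_mod_cast hdim
  have hn' : finrank K (V ⧸ W) ≤ n := by omega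
  have hregq : IsRegularLocalRing (B ⧸ I) := by
    apply IsRegularLocalRing.of_spanFinrank_maximalIdeal_le
    rw [hn]
    exact_mod_cast hle.trans hn'
  refine ⟨hregq, ?_⟩
  have h6 : ((maximalIdeal (B ⧸ I)).spanFinrank : WithBot ℕ∞) = n := by
    rw [← hn]; exact hregq.spanFinrank_maximalIdeal
  have h7 : (maximalIdeal (B ⧸ I)).spanFinrank = n := by exact_mod_cast h6
  rw [hn, ← hreg]
  have h8 : n + C = finrank K V := by omega
  exact_mod_cast h8

/-- Induction step input. -/
lemma isDomain_aux (n : ℕ) : ∀ (B : Type u) [CommRing B] [IsRegularLocalRing B],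
    ringKrullDim B = n → IsDomain B := by
  induction n with
  | zero =>
    intro B _ _ hB
    have h1 := (IsRegularLocalRing.iff_finrank_cotangentSpace B).1 inferInstance
    rw [hB] at h1
    have h2 : finrank (ResidueField B) (CotangentSpace B) = 0 := by exact_mod_cast h1
    rw [finrank_cotangentSpace_eq_zero_iff] at h2
    exact h2.isDomain
  | succ n ih =>
    intro B _ _ hB
    classical
    -- choose x outside m^2 and the minimal primes
    have hfin : (minimalPrimes B).Finite := minimalPrimes.finite_of_isNoetherianRing B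
    have hm2 : ¬ maximalIdeal B ≤ maximalIdeal B ^ 2 := by
      intro h
      have h0 : (maximalIdeal B) = ⊥ := by
        apply Submodule.eq_bot_of_le_smul_of_le_jacobson_bot (maximalIdeal B) (maximalIdeal B)
          (maximalIdeal B).fg_of_isNoetherianRing
        · rw [smul_eq_mul, ← pow_two]; exact h
        · exact (IsLocalRing.jacobson_eq_maximalIdeal _ bot_ne_top).ge
      have hF := IsLocalRing.isField_iff_maximalIdeal_eq.2 h0
      have := ringKrullDim_eq_zero_of_isField hF
      rw [hB] at this
      have : n + 1 = 0 := by exact_mod_cast this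
      omega
    have hmin : ∀ p ∈ minimalPrimes B, ¬ maximalIdeal B ≤ p := by
      intro p hp h
      have := hp.1.1
      have hpe : p = maximalIdeal B := le_antisymm (IsLocalRing.le_maximalIdeal hp.1.1.ne_top) h
      have h1 := IsLocalRing.maximalIdeal_height_eq_ringKrullDim (R := B)
      rw [hB, ← hpe] at h1
      have h2 : p.height = 0 := Ideal.height_eq_zero_iff.2 hp
      rw [h2] at h1
      have : (0 : ℕ) = n + 1 := by exact_mod_cast h1
      omega
    have hx : ∃ x ∈ maximalIdeal B, x ∉ maximalIdeal B ^ 2 ∧ ∀ p ∈ minimalPrimes B, x ∉ p := by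
      by_contra hcon
      push Not at hcon
      have hsub : ((maximalIdeal B : Ideal B) : Set B) ⊆
          ⋃ i ∈ (insert (maximalIdeal B ^ 2) (minimalPrimes B)), ((id i : Ideal B) : Set B) := by
        intro x hx
        by_cases h2 : x ∈ maximalIdeal B ^ 2
        · exact Set.mem_biUnion (Set.mem_insert _ _) h2
        · obtain ⟨p, hp, hxp⟩ := hcon x hx h2
          exact Set.mem_biUnion (Set.mem_insert_of_mem _ hp) hxp
      rw [Ideal.subset_union_prime_finite (hfin.insert _) (maximalIdeal B ^ 2)
        (maximalIdeal B ^ 2)] at hsub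
      · obtain ⟨i, hi, hle⟩ := hsub
        rcases hi with rfl | hi
        · exact hm2 hle
        · exact hmin i hi hle
      · intro i hi h1 _
        rcases hi with rfl | hi
        · exact absurd rfl h1
        · exact hi.1.1
    obtain ⟨x, hxm, hx2, hxp⟩ := hx
    -- quotient by x
    have hq := regular_quotient (fun _ : Fin 1 => x) (fun _ => hxm) (by
      intro r hr k
      by_contra hu
      have hk : k = 0 := Subsingleton.elim _ _
      subst hk
      have hunit : IsUnit (r 0) := by
        by_contra h
        exact hu ((IsLocalRing.mem_maximalIdeal _).2 h)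
      simp only [Finset.univ_unique, Fin.default_eq_zero, Fin.isValue,
        Finset.sum_singleton] at hr
      exact hx2 ((Ideal.unit_mul_mem_iff_mem _ hunit).1 hr))
    have hrange : Set.range (fun _ : Fin 1 => x) = {x} := Set.range_const
    rw [hrange] at hq
    obtain ⟨hreg, hdim⟩ := hq
    have := hreg
    have hdim' : ringKrullDim (B ⧸ Ideal.span {x}) = n := by
      have h1 : ringKrullDim (B ⧸ Ideal.span {x}) ≠ ⊥ := ringKrullDim_ne_bot
      have h2 : ringKrullDim (B ⧸ Ideal.span {x}) ≠ ⊤ := ringKrullDim_ne_top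
      obtain ⟨m, hm⟩ := WithBot.ne_bot_iff_exists.1 h1
      rw [← hm] at h2 hdim ⊢
      have h3 : m ≠ ⊤ := fun h => h2 (by rw [h]; rfl)
      obtain ⟨k, hk⟩ := ENat.ne_top_iff_exists.1 h3
      rw [← hk, hB] at hdim
      rw [← hk]
      have : k + 1 = n + 1 := by exact_mod_cast hdim
      have : k = n := by omega
      rw [this]
      rfl
    have hdom := ih (B ⧸ Ideal.span {x}) hdim'
    have hprime : (Ideal.span {x}).IsPrime := (Ideal.Quotient.isDomain_iff_prime _).1 hdom
    -- a minimal prime inside (x)
    obtain ⟨p, hp, hpx⟩ := Ideal.exists_minimalPrimes_le (I := (⊥ : Ideal B)) (J := Ideal.span {x})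
      bot_le
    have hpp : p.IsPrime := hp.1.1
    have hxnp : x ∉ p := hxp p hp
    have hp0 : p = ⊥ := by
      apply Submodule.eq_bot_of_le_smul_of_le_jacobson_bot (maximalIdeal B) p
        p.fg_of_isNoetherianRing
      · intro y hy
        obtain ⟨z, rfl⟩ := Ideal.mem_span_singleton'.1 (hpx hy)
        have hz : z ∈ p := (hpp.mem_or_mem hy).resolve_right hxnp
        rw [mul_comm]
        exact Submodule.smul_mem_smul hxm hz
      · exact (IsLocalRing.jacobson_eq_maximalIdeal _ bot_ne_top).ge
    rw [hp0] at hpp
    have hinj : IsDomain (B ⧸ (⊥ : Ideal B)) := (Ideal.Quotient.isDomain_iff_prime _).2 hpp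
    exact (RingEquiv.quotientBot B).toMulEquiv.symm.isDomain (B ⧸ (⊥ : Ideal B))

/-- A regular local ring is a domain. -/
theorem isDomain_of_isRegularLocalRing (B : Type u) [CommRing B] [IsRegularLocalRing B] :
    IsDomain B := by
  have h1 := (IsRegularLocalRing.iff_finrank_cotangentSpace B).1 inferInstance
  exact isDomain_aux _ B h1.symm

/-- Elements of the maximal ideal of a regular local ring that are linearly independent modulo the
square of the maximal ideal generate a prime ideal, and their number is at most the dimension. -/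
theorem isPrime_span_of_indep {B : Type u} [CommRing B] [IsRegularLocalRing B] {C : ℕ}
    (f : Fin C → B) (hf : ∀ k, f k ∈ maximalIdeal B)
    (hind : ∀ r : Fin C → B, ∑ k, r k * f k ∈ (maximalIdeal B) ^ 2 → ∀ k, r k ∈ maximalIdeal B) :
    (Ideal.span (Set.range f)).IsPrime ∧ (C : WithBot ℕ∞) ≤ ringKrullDim B := by
  obtain ⟨hreg, hdim⟩ := regular_quotient f hf hind
  have := hreg
  refine ⟨(Ideal.Quotient.isDomain_iff_prime _).1 (isDomain_of_isRegularLocalRing _), ?_⟩
  have h := (linearIndependent_toCotangent f hf hind).fintype_card_le_finrank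
  rw [Fintype.card_fin] at h
  rw [← (IsRegularLocalRing.iff_finrank_cotangentSpace B).1 inferInstance]
  exact_mod_cast h

end Pool.Agent.Helper15.NC
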