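import Mathlib
import Pool.Agent.Helper15.NC.CA1

open IsLocalRing RingTheory.Sequence

namespace Pool.Agent.Helper15.NC

universe u

/-! Module CA2 -/

/-- Localisations of regular rings at primes are regular rings. -/
theorem isRegularRing_localization (A : Type u) [CommRing A] [IsRegularRing A] (q : Ideal A)
    [q.IsPrime] : IsRegularRing (Localization.AtPrime q) := by
  have : IsNoetherianRing (Localization.AtPrime q) :=
    IsLocalization.isNoetherianRing q.primeCompl _ inferInstance
  rw [isRegularRing_iff]
  intro p hp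
  have := IsLocalization.isLocalization_isLocalization_atPrime_isLocalization q.primeCompl
    (Localization.AtPrime p) p
  have hreg := IsRegularRing.isRegularLocalRing_localization
    (p.under A)
  exact IsRegularLocalRing.of_ringEquiv (IsLocalization.algEquiv (p.under A).primeCompl
    (Localization.AtPrime (p.under A)) (Localization.AtPrime p)).toRingEquiv

/-- A regular local ring has elements of the maximal ideal, as many as its dimension, that are
independent modulo the square of the maximal ideal. -/
theorem exists_indep (B : Type u) [CommRing B] [IsRegularLocalRing B] :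
    ∃ (n : ℕ) (f : Fin n → B), (n : WithBot ℕ∞) = ringKrullDim B ∧
      (∀ k, f k ∈ maximalIdeal B) ∧
      (∀ r : Fin n → B, ∑ k, r k * f k ∈ (maximalIdeal B) ^ 2 → ∀ k, r k ∈ maximalIdeal B) := by
  let b := Module.finBasis (ResidueField B) (CotangentSpace B)
  have hs : ∀ k, ∃ x : maximalIdeal B, (maximalIdeal B).toCotangent x = b k := fun k =>
    Ideal.toCotangent_surjective _ _
  choose x hx using hs
  refine ⟨_, fun k => (x k : B), (IsRegularLocalRing.iff_finrank_cotangentSpace B).mp inferInstance,
    fun k => (x k).2, ?_⟩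
  intro r hr k
  have h1 : ∑ k, (residue B (r k)) • b k = 0 := by
    have h2 : (maximalIdeal B).toCotangent (∑ k, r k • x k) = 0 := by
      rw [Ideal.toCotangent_eq_zero]
      simpa using hr
    rw [map_sum] at h2
    rw [← h2]
    refine Finset.sum_congr rfl fun k _ => ?_
    rw [map_smul, hx]
    rfl
  have h3 := (Fintype.linearIndependent_iff.mp b.linearIndependent) _ h1 k
  exact (residue_eq_zero_iff _).mp h3

/-- A regular local ring has a regular sequence of length its dimension in the maximal ideal. -/
theorem exists_isRegular_length_eq_dim (B : Type u) [CommRing B] [IsRegularLocalRing B] :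
    ∃ rs : List B, (rs.length : WithBot ℕ∞) = ringKrullDim B ∧ (∀ r ∈ rs, r ∈ maximalIdeal B) ∧
      IsRegular B rs := by
  obtain ⟨n, f, hn, hf, hind⟩ := exists_indep B
  have hmem : ∀ r ∈ List.ofFn f, r ∈ maximalIdeal B := by
    intro r hr
    obtain ⟨k, rfl⟩ := (List.mem_ofFn' _ _).mp hr
    exact hf k
  refine ⟨List.ofFn f, by simpa using hn, hmem, ?_⟩
  rw [IsLocalRing.isRegular_iff_isWeaklyRegular_of_subset_maximalIdeal hmem]
  constructor
  intro i hi
  have hi' : i < n := by simpa using hi
  have hlist : (List.ofFn f).take i = List.ofFn (fun k : Fin i => f (Fin.castLE hi'.le k)) := by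
    apply List.ext_getElem
    · simp [hi'.le]
    · intro j h1 h2
      simp
  have hid : Ideal.ofList ((List.ofFn f).take i) =
      Ideal.span (Set.range (fun k : Fin i => f (Fin.castLE hi'.le k))) := by
    rw [hlist, Ideal.ofList]
    congr 1
    ext y
    simp
  have key : ∀ (c : Fin n → B) , (∀ k : Fin n, i < (k : ℕ) → c k = 0) →
      ∑ k, c k * f k ∈ (maximalIdeal B) ^ 2 → ∀ k, c k ∈ maximalIdeal B := fun c _ h => hind c h
  have hprime : (Ideal.span (Set.range (fun k : Fin i => f (Fin.castLE hi'.le k)))).IsPrime := by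
    refine (isPrime_span_of_indep (fun k : Fin i => f (Fin.castLE hi'.le k)) (fun k => hf _) ?_).1
    intro r hr k
    let c : Fin n → B := fun k => if h : (k : ℕ) < i then r ⟨k, h⟩ else 0
    have hc : ∑ k, c k * f k = ∑ k : Fin i, r k * f (Fin.castLE hi'.le k) := by
      symm
      rw [← Finset.sum_subset (Finset.subset_univ
        (Finset.univ.map (Fin.castLEEmb hi'.le)))]
      · rw [Finset.sum_map]
        refine Finset.sum_congr rfl fun k _ => ?_
        simp [c]
      · intro k _ hk
        have : ¬ (k : ℕ) < i := by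
          intro h
          apply hk
          simp only [Finset.mem_map, Finset.mem_univ, true_and]
          exact ⟨⟨k, h⟩, rfl⟩
        simp [c, this]
    have := hind c (by rw [hc]; exact hr) (Fin.castLE hi'.le k)
    simpa [c] using this
  have hnot : f ⟨i, hi'⟩ ∉ Ideal.span (Set.range (fun k : Fin i => f (Fin.castLE hi'.le k))) := by
    intro hmem'
    obtain ⟨r, hr⟩ := (Ideal.mem_span_range_iff_exists_fun).mp hmem'
    let c : Fin n → B := fun k => if h : (k : ℕ) < i then r ⟨k, h⟩ else
      if (k : ℕ) = i then -1 else 0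
    have hc : ∑ k, c k * f k = ∑ k : Fin i, r k * f (Fin.castLE hi'.le k) - f ⟨i, hi'⟩ := by
      have h1 : ∀ k : Fin n, c k * f k =
          (if h : (k : ℕ) < i then r ⟨k, h⟩ * f k else 0) +
            (if k = ⟨i, hi'⟩ then - f ⟨i, hi'⟩ else 0) := by
        intro k
        by_cases h : (k : ℕ) < i
        · have h2 : k ≠ ⟨i, hi'⟩ := by
            rintro rfl
            simp at h
          simp [c, h, h2]
        · by_cases h2 : (k : ℕ) = i
          · have h3 : k = ⟨i, hi'⟩ := Fin.ext h2
            simp [c, h3]
          · have h3 : k ≠ ⟨i, hi'⟩ := fun h' => h2 (by rw [h'])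
            simp [c, h, h2, h3]
      rw [Finset.sum_congr rfl (fun k _ => h1 k), Finset.sum_add_distrib]
      rw [Finset.sum_ite_eq' Finset.univ (⟨i, hi'⟩ : Fin n)]
      simp only [Finset.mem_univ, if_true]
      rw [sub_eq_add_neg]
      congr 1
      symm
      rw [← Finset.sum_subset (Finset.subset_univ
        (Finset.univ.map (Fin.castLEEmb hi'.le)))]
      · rw [Finset.sum_map]
        refine Finset.sum_congr rfl fun k _ => ?_
        simp
      · intro k _ hk
        have : ¬ (k : ℕ) < i := by
          intro h
          apply hk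
          simp only [Finset.mem_map, Finset.mem_univ, true_and]
          exact ⟨⟨k, h⟩, rfl⟩
        simp [this]
    have h0 : ∑ k, c k * f k = 0 := by rw [hc, hr, sub_self]
    have h2 := hind c (by rw [h0]; exact zero_mem _) ⟨i, hi'⟩
    have h3 : c ⟨i, hi'⟩ = -1 := by simp [c]
    rw [h3] at h2
    exact (Ideal.ne_top_iff_one _).mp (maximalIdeal.isMaximal B).ne_top (by simp at h2)
  rw [isSMulRegular_quotient_iff_mem_of_smul_mem]
  intro x hx
  rw [hid] at hx ⊢
  simp only [smul_eq_mul, Ideal.mul_top] at hx ⊢
  have hget : (List.ofFn f)[i] = f ⟨i, hi'⟩ := by simp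
  rw [hget] at hx
  exact (hprime.mem_or_mem hx).resolve_left hnot

open CategoryTheory Abelian

/-- Vanishing of `Ext` passes to the quotient by a weakly regular sequence. -/
theorem subsingleton_hom_of_ext {R : Type u} [CommRing R] (N : ModuleCat.{u} R)
    (rs : List R) : ∀ (M : ModuleCat.{u} R) (n : ℕ), (∀ i < n, Subsingleton (Ext N M i)) →
      IsWeaklyRegular M rs → rs.length < n →
      Subsingleton (N →ₗ[R] (M ⧸ (Ideal.ofList rs • (⊤ : Submodule R M)))) := by
  induction rs with
  | nil =>
    intro M n h _ hn
    have : Subsingleton (N ⟶ M) := Ext.addEquiv₀.subsingleton_congr.mp (h 0 hn)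
    have h1 : Subsingleton (N →ₗ[R] M) := ModuleCat.homAddEquiv.symm.subsingleton
    have e : (M ⧸ (Ideal.ofList ([] : List R) • (⊤ : Submodule R M))) ≃ₗ[R] M :=
      Submodule.quotEquivOfEqBot _ (by simp)
    exact (LinearEquiv.congrRight (M := N) e).toEquiv.subsingleton
  | cons a rs ih =>
    intro M n h hreg hn
    rw [isWeaklyRegular_cons_iff] at hreg
    obtain ⟨ha, hrs⟩ := hreg
    obtain ⟨n', rfl⟩ : ∃ n', n = n' + 1 := ⟨n - 1, by simp at hn; omega⟩
    have h_ext' : ∀ i < n', Subsingleton (Ext N (ModuleCat.of R (QuotSMulTop a M)) i) := by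
      intro i hi
      have zero1 := AddCommGrpCat.isZero_of_iff_subsingleton.mpr (h i (by omega))
      have zero2 := AddCommGrpCat.isZero_of_iff_subsingleton.mpr (h (i + 1) (by omega))
      exact AddCommGrpCat.subsingleton_of_isZero <| ShortComplex.Exact.isZero_of_both_zeros
        ((Ext.covariant_sequence_exact₃' N ha.smulShortComplex_shortExact) i (i + 1) rfl)
        (zero1.eq_zero_of_src _) (zero2.eq_zero_of_tgt _)
    have h2 := ih (ModuleCat.of R (QuotSMulTop a M)) n' h_ext' hrs (by simpa using hn)
    have e := Submodule.quotOfListConsSMulTopEquivQuotSMulTopInner M a rs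
    exact (LinearEquiv.congrRight (M := N) e).toEquiv.subsingleton

/-- Unmixedness: primes associated to a regular sequence in a regular ring have small height. -/
theorem height_le_of_mem_associatedPrimes {A : Type u} [CommRing A] [IsRegularRing A]
    (rs : List A) (hrs : IsWeaklyRegular A rs) (q : Ideal A)
    (hq : q ∈ associatedPrimes A (A ⧸ Ideal.ofList rs)) : q.height ≤ rs.length := by
  have hqp : q.IsPrime := IsAssociatedPrime.isPrime hq
  obtain ⟨-, z, hz⟩ := isAssociatedPrime_iff.mp (AssociatedPrimes.mem_iff.mp hq)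
  obtain ⟨z0, rfl⟩ := Ideal.Quotient.mk_surjective z
  have hz' : ∀ a : A, a ∈ q ↔ a * z0 ∈ Ideal.ofList rs := by
    intro a
    rw [hz, Submodule.mem_colon_singleton, Submodule.mem_bot, ← Ideal.Quotient.eq_zero_iff_mem,
      map_mul]
    rfl
  by_contra hcon
  push Not at hcon
  let B := Localization.AtPrime q
  have hB : IsRegularLocalRing B := IsRegularRing.isRegularLocalRing_localization q
  obtain ⟨rs', hlen, hmem, hreg⟩ := exists_isRegular_length_eq_dim B
  rw [IsLocalization.AtPrime.ringKrullDim_eq_height q B] at hlen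
  have hlt : rs.length < rs'.length := by
    have h1 : ((rs'.length : ℕ∞) : WithBot ℕ∞) = q.height := by simpa using hlen
    have h2 : (rs'.length : ℕ∞) = q.height := WithBot.coe_injective h1
    rw [← h2] at hcon
    exact_mod_cast hcon
  let w : B := algebraMap A B z0
  have hmapI : Ideal.ofList (rs.map (algebraMap A B)) = (Ideal.ofList rs).map (algebraMap A B) :=
    (Ideal.map_ofList _ _).symm
  have hw : w ∉ Ideal.ofList (rs.map (algebraMap A B)) := by
    rw [hmapI, IsLocalization.mem_map_algebraMap_iff q.primeCompl]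
    rintro ⟨⟨i, s⟩, h⟩
    simp only [w] at h
    rw [← map_mul] at h
    obtain ⟨t, ht⟩ := (IsLocalization.eq_iff_exists q.primeCompl B).mp h
    have h3 : (t : A) * (z0 * s) ∈ Ideal.ofList rs := by
      rw [ht]
      exact Ideal.mul_mem_left _ _ i.2
    have h4 : (t : A) * s ∈ q := by
      rw [hz']
      convert h3 using 1
      ring
    rcases hqp.mem_or_mem h4 with h5 | h5
    · exact t.2 h5
    · exact s.2 h5
  have hmw : ∀ t ∈ maximalIdeal B, t * w ∈ Ideal.ofList (rs.map (algebraMap A B)) := by
    intro t ht
    rw [← Localization.AtPrime.map_eq_maximalIdeal,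
      IsLocalization.mem_map_algebraMap_iff q.primeCompl] at ht
    obtain ⟨⟨a, s⟩, h⟩ := ht
    have h1 : (a : A) * z0 ∈ Ideal.ofList rs := (hz' _).mp a.2
    rw [hmapI]
    have h2 : (t * w) * algebraMap A B s ∈ (Ideal.ofList rs).map (algebraMap A B) := by
      have h3 : (t * w) * algebraMap A B s = algebraMap A B (a * z0) := by
        rw [map_mul, ← h]
        simp only [w]
        ring
      rw [h3]
      exact Ideal.mem_map_of_mem _ h1
    exact (Ideal.unit_mul_mem_iff_mem _ (IsLocalization.map_units B s)).mp (by rwa [mul_comm] at h2)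
  let N : ModuleCat.{u} B := ModuleCat.of B (B ⧸ maximalIdeal B)
  have hext : ∀ i < rs'.length, Subsingleton (Ext N (ModuleCat.of B B) i) := by
    refine ModuleCat.subsingleton_ext_of_exists_isRegular (maximalIdeal B) N ?_
      (ModuleCat.of B B) ?_ rs' hmem hreg
    · rw [Module.support_eq_zeroLocus, Ideal.annihilator_quotient]
    · rw [Ideal.smul_eq_mul, Ideal.mul_top]
      exact lt_top_iff_ne_top.mpr (maximalIdeal.isMaximal B).ne_top
  have hsub := subsingleton_hom_of_ext N (rs.map (algebraMap A B)) (ModuleCat.of B B) rs'.length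
    hext (hrs.of_isLocalization B q.primeCompl) (by simpa using hlt)
  let φ : (B ⧸ maximalIdeal B) →ₗ[B]
      (B ⧸ (Ideal.ofList (rs.map (algebraMap A B)) • (⊤ : Submodule B B))) :=
    (maximalIdeal B).liftQ ((Submodule.mkQ _).comp (LinearMap.mulRight B w)) (by
      intro t ht
      rw [LinearMap.mem_ker, LinearMap.comp_apply, Submodule.mkQ_apply,
        Submodule.Quotient.mk_eq_zero]
      simpa using hmw t ht)
  have hφ : φ = 0 := hsub.elim _ _
  have h1 : φ (Submodule.Quotient.mk 1) = 0 := by rw [hφ]; rfl
  simp only [φ] at h1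
  rw [Submodule.liftQ_apply, LinearMap.comp_apply, Submodule.mkQ_apply,
        Submodule.Quotient.mk_eq_zero] at h1
  apply hw
  simpa using h1

end Pool.Agent.Helper15.NC
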