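import Mathlib
import Pool.Agent.Helper15.NC.CA2

open IsLocalRing RingTheory.Sequence

namespace Pool.Agent.Helper15.NC

universe u

/-! Module CA3 -/

/-- Coset version of prime avoidance, for pairwise incomparable primes. -/
theorem exists_add_mem_notMem_aux {A : Type u} [CommRing A] (s : Finset (Ideal A))
    (hs : ∀ q ∈ s, q.IsPrime) (x : A) (J : Ideal A)
    (h : ∀ q ∈ s, ¬ (Ideal.span {x} ⊔ J ≤ q))
    (hinc : ∀ q ∈ s, ∀ q' ∈ s, q ≤ q' → q = q') : ∃ j ∈ J, ∀ q ∈ s, x + j ∉ q := by
  classical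
  obtain ⟨s1, hs1⟩ : ∃ s1 : Finset (Ideal A), ∀ q, q ∈ s1 ↔ q ∈ s ∧ x ∈ q :=
    ⟨s.filter (fun q => x ∈ q), fun q => Finset.mem_filter⟩
  obtain ⟨s2, hs2⟩ : ∃ s2 : Finset (Ideal A), ∀ q, q ∈ s2 ↔ q ∈ s ∧ x ∉ q :=
    ⟨s.filter (fun q => x ∉ q), fun q => Finset.mem_filter⟩
  -- K = J * ∏ s2
  obtain ⟨P, hP⟩ : ∃ P : Ideal A, P = ∏ q ∈ s2, q := ⟨_, rfl⟩
  have hK : ∀ q ∈ s1, ¬ (J * P) ≤ q := by
    intro q hq hle
    have hqp := hs q ((hs1 q).mp hq).1
    rcases (Ideal.IsPrime.mul_le hqp).mp hle with h3 | h3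
    · apply h q ((hs1 q).mp hq).1
      refine sup_le ?_ h3
      rw [Ideal.span_singleton_le_iff_mem]
      exact ((hs1 q).mp hq).2
    · rw [hP] at h3
      obtain ⟨q', hq', hle'⟩ := (Ideal.IsPrime.prod_le hqp).mp h3
      have := hinc q' ((hs2 q').mp hq').1 q ((hs1 q).mp hq).1 hle'
      subst this
      exact ((hs2 q').mp hq').2 ((hs1 q').mp hq).2
  have hnot : ¬ (((J * P : Ideal A) : Set A) ⊆ ⋃ q ∈ (s1 : Set (Ideal A)), (q : Set A)) := by
    intro hsub
    obtain ⟨q, hq, hle⟩ := (Ideal.subset_union_prime (R := A) (f := fun q : Ideal A => q)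
      (s := s1) ⊥ ⊥ (fun i hi _ _ => hs i ((hs1 i).mp hi).1)).mp hsub
    exact hK q hq hle
  obtain ⟨j, hjK, hj⟩ := Set.not_subset.mp hnot
  refine ⟨j, Ideal.mul_le_left hjK, ?_⟩
  intro q hq hmem
  by_cases hx : x ∈ q
  · have hj' : j ∈ q := (Ideal.add_mem_iff_right q hx).mp hmem
    apply hj
    simp only [Set.mem_iUnion]
    exact ⟨q, Finset.mem_coe.mpr ((hs1 q).mpr ⟨hq, hx⟩), hj'⟩
  · have hq2 : q ∈ s2 := (hs2 q).mpr ⟨hq, hx⟩
    have hj' : j ∈ q := by
      have h3 : J * P ≤ P := Ideal.mul_le_right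
      have h4 : P ≤ q := by
        rw [hP, ← Finset.mul_prod_erase s2 _ hq2]
        exact Ideal.mul_le_left
      exact h4 (h3 hjK)
    exact hx ((Ideal.add_mem_iff_left q hj').mp hmem)

/-- Coset version of prime avoidance. -/
theorem exists_add_mem_notMem {A : Type u} [CommRing A] (s : Finset (Ideal A))
    (hs : ∀ q ∈ s, q.IsPrime) (x : A) (J : Ideal A)
    (h : ∀ q ∈ s, ¬ (Ideal.span {x} ⊔ J ≤ q)) : ∃ j ∈ J, ∀ q ∈ s, x + j ∉ q := by
  classical
  obtain ⟨t, ht⟩ : ∃ t : Finset (Ideal A), ∀ q, q ∈ t ↔ q ∈ s ∧ ∀ q' ∈ s, q ≤ q' → q = q' :=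
    ⟨s.filter (fun q => ∀ q' ∈ s, q ≤ q' → q = q'), fun q => Finset.mem_filter⟩
  obtain ⟨j, hj, hjt⟩ := exists_add_mem_notMem_aux t (fun q hq => hs q ((ht q).mp hq).1) x J
    (fun q hq => h q ((ht q).mp hq).1)
    (fun q hq q' hq' hle => ((ht q).mp hq).2 q' ((ht q').mp hq').1 hle)
  refine ⟨j, hj, fun q hq hmem => ?_⟩
  obtain ⟨m, hqm, hm⟩ := s.exists_le_maximal hq
  have hmt : m ∈ t := by
    refine (ht m).mpr ⟨hm.prop, fun q' hq' hle => ?_⟩
    exact le_antisymm hle (hm.le_of_ge hq' hle)
  exact hjt m hmt (hqm hmem)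

/-- Elementwise form of regularity modulo an ideal generated by a list. -/
theorem isWeaklyRegular_append_singleton_iff {A : Type u} [CommRing A] (rs : List A) (x : A) :
    IsWeaklyRegular A (rs ++ [x]) ↔
      IsWeaklyRegular A rs ∧ ∀ y, x * y ∈ Ideal.ofList rs → y ∈ Ideal.ofList rs := by
  rw [isWeaklyRegular_append_iff, isWeaklyRegular_singleton_iff]
  refine and_congr_right fun _ => ?_
  rw [isSMulRegular_quotient_iff_mem_of_smul_mem]
  simp only [smul_eq_mul, Ideal.mul_top]

/-- Elements of the ideal generated by a list. -/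
theorem ofList_le_iff {A : Type u} [CommRing A] (rs : List A) (I : Ideal A) :
    Ideal.ofList rs ≤ I ↔ ∀ x ∈ rs, x ∈ I := Ideal.span_le

/-- A regular sequence in a Noetherian local ring extends to a maximal one. -/
theorem exists_maximal_regular {A : Type u} [CommRing A] [IsLocalRing A] [IsNoetherianRing A]
    (g : List A) (hg : IsWeaklyRegular A g) (hm : ∀ x ∈ g, x ∈ maximalIdeal A) :
    ∃ a : List A, (∀ x ∈ a, x ∈ maximalIdeal A) ∧ IsWeaklyRegular A (g ++ a) ∧
      ∃ z : A, z ∉ Ideal.ofList (g ++ a) ∧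
        ∀ t ∈ maximalIdeal A, t * z ∈ Ideal.ofList (g ++ a) := by
  classical
  obtain ⟨S, hS⟩ : ∃ S : Set (Ideal A), ∀ I, I ∈ S ↔ ∃ a : List A, (∀ x ∈ a, x ∈ maximalIdeal A) ∧
    IsWeaklyRegular A (g ++ a) ∧ I = Ideal.ofList (g ++ a) := ⟨{I | _}, fun _ => Iff.rfl⟩
  have hSne : S.Nonempty := ⟨_, (hS _).mpr ⟨[], by simp, by simpa using hg, rfl⟩⟩
  obtain ⟨I0, hI0, hmax⟩ := set_has_maximal_iff_noetherian.mpr
    (inferInstance : IsNoetherian A A) S hSne
  obtain ⟨a, ham, har, hIa⟩ := (hS _).mp hI0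
  refine ⟨a, ham, har, ?_⟩
  obtain ⟨I, hI⟩ : ∃ I : Ideal A, I = Ideal.ofList (g ++ a) := ⟨_, rfl⟩
  rw [← hI] at hIa ⊢
  subst hIa
  have hIm : I0 ≤ maximalIdeal A := by
    rw [hI, ofList_le_iff]
    intro x hx
    rcases List.mem_append.mp hx with h | h
    · exact hm x h
    · exact ham x h
  have hIne : (1 : A) ∉ I0 := fun h => (maximalIdeal.isMaximal A).ne_top
    ((Ideal.eq_top_iff_one _).mpr (hIm h))
  -- every element of m is a zero divisor on A/I
  have hzd : ∀ x ∈ maximalIdeal A, ∃ y, y ∉ I0 ∧ x * y ∈ I0 := by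
    intro x hx
    by_contra hcon
    push Not at hcon
    have hreg : IsWeaklyRegular A (g ++ a ++ [x]) := by
      rw [isWeaklyRegular_append_singleton_iff, ← hI]
      exact ⟨har, fun y hy => by
        by_contra hy'
        exact hcon y hy' hy⟩
    have hmem : Ideal.ofList (g ++ (a ++ [x])) ∈ S := by
      refine (hS _).mpr ⟨a ++ [x], ?_, ?_, rfl⟩
      · intro y hy
        rcases List.mem_append.mp hy with h | h
        · exact ham y h
        · rw [List.mem_singleton] at h
          exact h ▸ hx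
      · rw [← List.append_assoc]
        exact hreg
    have hx1 : x ∉ I0 := by
      intro hxI
      exact hcon 1 hIne (by simpa using hxI)
    refine hmax _ hmem (lt_of_le_of_ne ?_ ?_)
    · rw [hI, ← List.append_assoc, Ideal.ofList_append (g ++ a) [x]]
      exact le_sup_left
    · intro heq
      apply hx1
      rw [heq]
      apply Ideal.subset_span
      simp
  -- union of associated primes
  have hsub : ((maximalIdeal A : Ideal A) : Set A) ⊆
      ⋃ p ∈ associatedPrimes A (A ⧸ I0), (p : Set A) := by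
    rw [biUnion_associatedPrimes_eq_zero_divisors]
    intro x hx
    obtain ⟨y, hyI, hxy⟩ := hzd x hx
    refine ⟨Ideal.Quotient.mk I0 y, ?_, ?_⟩
    · rw [Ne, Ideal.Quotient.eq_zero_iff_mem]
      exact hyI
    · have : x • (Ideal.Quotient.mk I0 y) = Ideal.Quotient.mk I0 (x * y) := rfl
      rw [this, Ideal.Quotient.eq_zero_iff_mem]
      exact hxy
  obtain ⟨p, hp, hle⟩ := (Ideal.subset_union_prime_finite (associatedPrimes.finite A (A ⧸ I0))
    (f := fun q : Ideal A => q) 0 0 (fun p hp _ _ => IsAssociatedPrime.isPrime hp)).mp hsub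
  have hp' := isAssociatedPrime_iff.mp hp
  have hpm : p = maximalIdeal A :=
    le_antisymm (IsLocalRing.le_maximalIdeal hp'.1.ne_top) hle
  obtain ⟨_, w, hw⟩ := hp'
  obtain ⟨z, rfl⟩ := Ideal.Quotient.mk_surjective w
  refine ⟨z, ?_, ?_⟩
  · intro hz
    rw [Ideal.Quotient.eq_zero_iff_mem.mpr hz] at hw
    have : p = ⊤ := by
      rw [hw]
      simp
    exact (IsAssociatedPrime.isPrime hp).ne_top this
  · intro t ht
    have ht' : t ∈ p := hle ht
    rw [hw, Submodule.mem_colon_singleton, Submodule.mem_bot] at ht'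
    have h1 : t • (Ideal.Quotient.mk I0 z) = Ideal.Quotient.mk I0 (t * z) := rfl
    rw [h1, Ideal.Quotient.eq_zero_iff_mem] at ht'
    exact ht'

/-- One element of a regular sequence may be replaced by a power. -/
theorem isWeaklyRegular_pow_last {A : Type u} [CommRing A] (rs : List A) (x : A) (k : ℕ)
    (h : IsWeaklyRegular A (rs ++ [x])) : IsWeaklyRegular A (rs ++ [x ^ k]) := by
  rw [isWeaklyRegular_append_singleton_iff] at h ⊢
  refine ⟨h.1, ?_⟩
  induction k with
  | zero => intro y hy; simpa using hy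
  | succ k ih =>
    intro y hy
    apply ih
    apply h.2
    rw [pow_succ', mul_assoc] at hy
    exact hy

theorem isWeaklyRegular_map_pow {A : Type u} [CommRing A] [IsLocalRing A] [IsNoetherianRing A]
    (k : ℕ) (hk : k ≠ 0) (g b : List A) (h : IsWeaklyRegular A (g ++ b))
    (hm : ∀ x ∈ g ++ b, x ∈ maximalIdeal A) :
    IsWeaklyRegular A (g.map (· ^ k) ++ b) := by
  induction g generalizing b with
  | nil => simpa using h
  | cons x g ih =>
    -- move x to the end, take power, move in front of b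
    have hperm : List.Perm (x :: g ++ b) ((g ++ b) ++ [x]) := by
      simpa using (List.perm_append_singleton x (g ++ b)).symm
    have h1 : IsWeaklyRegular A ((g ++ b) ++ [x]) :=
      IsLocalRing.isWeaklyRegular_of_perm_of_subset_maximalIdeal h hperm hm
    have h2 := isWeaklyRegular_pow_last (g ++ b) x k h1
    have hm2 : ∀ y ∈ (g ++ b) ++ [x ^ k], y ∈ maximalIdeal A := by
      intro y hy
      rcases List.mem_append.mp hy with hy | hy
      · exact hm y (by simpa using Or.inr (List.mem_append.mp hy))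
      · rw [List.mem_singleton] at hy
        rw [hy]
        exact Ideal.pow_mem_of_mem _ (hm x (by simp)) k (Nat.pos_of_ne_zero hk)
    have hperm2 : List.Perm ((g ++ b) ++ [x ^ k]) (g ++ (x ^ k :: b)) := by
      rw [List.append_assoc]
      exact List.Perm.append_left g (List.perm_append_singleton _ _)
    have h3 : IsWeaklyRegular A (g ++ (x ^ k :: b)) :=
      IsLocalRing.isWeaklyRegular_of_perm_of_subset_maximalIdeal h2 hperm2 hm2
    have h4 := ih (x ^ k :: b) h3 (fun y hy => hm2 y (hperm2.mem_iff.mpr hy))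
    have hperm3 : List.Perm (g.map (· ^ k) ++ (x ^ k :: b)) ((x :: g).map (· ^ k) ++ b) := by
      simpa using List.perm_middle
    refine IsLocalRing.isWeaklyRegular_of_perm_of_subset_maximalIdeal h4 hperm3 ?_
    intro y hy
    rcases List.mem_append.mp hy with hy | hy
    · obtain ⟨w, hw, rfl⟩ := List.mem_map.mp hy
      exact Ideal.pow_mem_of_mem _ (hm w (by simp [hw])) k (Nat.pos_of_ne_zero hk)
    · exact hm2 y (hperm2.mem_iff.mpr (by simp only [List.mem_append]; exact Or.inr hy))

/-- Colon property, one list of powers at a time. -/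
theorem mem_of_prod_pow_mul_mem_aux {A : Type u} [CommRing A] [IsLocalRing A] [IsNoetherianRing A]
    (n : ℕ) (g b : List A) (hgb : IsWeaklyRegular A (g ++ b))
    (hm : ∀ x ∈ g ++ b, x ∈ maximalIdeal A) (y : A)
    (hy : y * (g.map (· ^ n)).prod ∈ Ideal.ofList (g.map (· ^ (n + 1)) ++ b)) :
    y ∈ Ideal.ofList (g ++ b) := by
  induction g generalizing b y with
  | nil => simpa using hy
  | cons x g ih =>
    -- J' = (g^{n+1}) + (b); x is a nonzerodivisor mod J'
    have hx : IsWeaklyRegular A ((g.map (· ^ (n + 1)) ++ b) ++ [x]) := by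
      have hperm : List.Perm (x :: g ++ b) (g ++ (b ++ [x])) := by
        rw [← List.append_assoc]
        simpa using (List.perm_append_singleton x (g ++ b)).symm
      have h1 : IsWeaklyRegular A (g ++ (b ++ [x])) :=
        IsLocalRing.isWeaklyRegular_of_perm_of_subset_maximalIdeal hgb hperm hm
      have h2 := isWeaklyRegular_map_pow (n + 1) (Nat.succ_ne_zero n) g (b ++ [x]) h1
        (fun z hz => hm z (hperm.mem_iff.mpr hz))
      rwa [← List.append_assoc] at h2
    have hxn := isWeaklyRegular_pow_last _ x n hx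
    rw [isWeaklyRegular_append_singleton_iff] at hxn
    -- decompose membership
    rw [List.map_cons, List.cons_append, Ideal.ofList_cons, Ideal.mem_span_singleton_sup] at hy
    obtain ⟨c, j, hj, hcj⟩ := hy
    have h3 : x ^ n * (y * (g.map (· ^ n)).prod - c * x) ∈
        Ideal.ofList (g.map (· ^ (n + 1)) ++ b) := by
      have : x ^ n * (y * (g.map (· ^ n)).prod - c * x) = j := by
        have h4 : (((x :: g).map (· ^ n)).prod : A) = x ^ n * (g.map (· ^ n)).prod := by
          simp
        rw [List.map_cons, List.prod_cons] at hcj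
        linear_combination -hcj
      rw [this]
      exact hj
    have h5 := hxn.2 _ h3
    have h6 : y * (g.map (· ^ n)).prod ∈ Ideal.ofList (g.map (· ^ (n + 1)) ++ (x :: b)) := by
      have h7 : y * (g.map (· ^ n)).prod = c * x + (y * (g.map (· ^ n)).prod - c * x) := by ring
      rw [h7]
      refine Ideal.add_mem _ ?_ ?_
      · apply Ideal.mul_mem_left
        apply Ideal.subset_span
        simp
      · refine (Ideal.span_mono ?_ : Ideal.ofList (g.map (· ^ (n + 1)) ++ b) ≤ _) h5
        intro z hz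
        simp only [Set.mem_ofPred_eq, List.mem_append, List.mem_cons] at hz ⊢
        tauto
    have hperm : List.Perm (x :: g ++ b) (g ++ (x :: b)) := by
      simpa using List.perm_middle.symm
    have h8 := ih (x :: b)
      (IsLocalRing.isWeaklyRegular_of_perm_of_subset_maximalIdeal hgb hperm hm)
      (fun z hz => hm z (hperm.mem_iff.mpr hz)) y h6
    refine (Ideal.span_mono ?_ : Ideal.ofList (g ++ (x :: b)) ≤ _) h8
    intro z hz
    exact hperm.mem_iff.mpr hz

/-- The colon property for powers of a regular sequence in a Noetherian local ring. -/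
theorem mem_of_prod_pow_mul_mem {A : Type u} [CommRing A] [IsLocalRing A] [IsNoetherianRing A]
    (g a : List A) (hga : IsWeaklyRegular A (g ++ a))
    (hm : ∀ x ∈ g ++ a, x ∈ maximalIdeal A) (n : ℕ) (y : A)
    (hy : y * (g.map (· ^ n)).prod ∈ Ideal.ofList (g.map (· ^ (n + 1)) ++ a.map (· ^ (n + 1)))) :
    y ∈ Ideal.ofList (g ++ a.map (· ^ (n + 1))) := by
  have hperm : List.Perm (g ++ a) (a ++ g) := List.perm_append_comm
  have h1 : IsWeaklyRegular A (a ++ g) :=
    IsLocalRing.isWeaklyRegular_of_perm_of_subset_maximalIdeal hga hperm hm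
  have h2 := isWeaklyRegular_map_pow (n + 1) (Nat.succ_ne_zero n) a g h1
    (fun z hz => hm z (hperm.mem_iff.mpr hz))
  have hm2 : ∀ z ∈ a.map (· ^ (n + 1)) ++ g, z ∈ maximalIdeal A := by
    intro z hz
    rcases List.mem_append.mp hz with hz | hz
    · obtain ⟨w, hw, rfl⟩ := List.mem_map.mp hz
      exact Ideal.pow_mem_of_mem _ (hm w (by simp [hw])) _ (Nat.succ_pos n)
    · exact hm z (by simp [hz])
  have hperm2 : List.Perm (a.map (· ^ (n + 1)) ++ g) (g ++ a.map (· ^ (n + 1))) :=
    List.perm_append_comm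
  exact mem_of_prod_pow_mul_mem_aux n g (a.map (· ^ (n + 1)))
    (IsLocalRing.isWeaklyRegular_of_perm_of_subset_maximalIdeal h2 hperm2 hm2)
    (fun z hz => hm2 z (hperm2.mem_iff.mpr hz)) y hy

/-- The step of the construction of regular generators. -/
theorem exists_isWeaklyRegular_generators_aux {A : Type u} [CommRing A] [IsNoetherianRing A]
    (hunm : ∀ (rs : List A), IsWeaklyRegular A rs → ∀ (q : Ideal A),
      q ∈ associatedPrimes A (A ⧸ Ideal.ofList rs) → q.height ≤ rs.length)
    {C : ℕ} (f : Fin C → A) (hht : (C : ℕ∞) ≤ (Ideal.span (Set.range f)).height)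
    (i : ℕ) (hi : i ≤ C) :
    ∃ g : List A, g.length = i ∧ IsWeaklyRegular A g ∧
      Ideal.ofList g ⊔ Ideal.span (f '' {k | i ≤ (k : ℕ)}) = Ideal.span (Set.range f) := by
  classical
  induction i with
  | zero =>
    refine ⟨[], rfl, IsWeaklyRegular.nil A A, ?_⟩
    have h1 : {k : Fin C | 0 ≤ (k : ℕ)} = Set.univ := by
      ext k; simp
    rw [h1, Set.image_univ, Ideal.ofList_nil, bot_sup_eq]
  | succ i ih =>
    obtain ⟨g, hgl, hgr, hgI⟩ := ih (by omega)
    obtain ⟨k0, hk0⟩ : ∃ k0 : Fin C, (k0 : ℕ) = i := ⟨⟨i, by omega⟩, rfl⟩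
    have hsplit : Ideal.span (f '' {k | i ≤ (k : ℕ)}) =
        Ideal.span {f k0} ⊔ Ideal.span (f '' {k | i + 1 ≤ (k : ℕ)}) := by
      have h1 : {k : Fin C | i ≤ (k : ℕ)} = {k0} ∪ {k : Fin C | i + 1 ≤ (k : ℕ)} := by
        ext k
        simp only [Set.mem_ofPred_eq, Set.mem_union, Set.mem_singleton_iff, Fin.ext_iff]
        omega
      rw [h1, Set.image_union, Set.image_singleton, Ideal.span_union]
    obtain ⟨J, hJ⟩ : ∃ J : Ideal A, J = Ideal.span (f '' {k | i + 1 ≤ (k : ℕ)}) := ⟨_, rfl⟩
    rw [← hJ] at hsplit ⊢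
    rw [hsplit] at hgI
    have hfin := associatedPrimes.finite A (A ⧸ Ideal.ofList g)
    have hann : ∀ q ∈ associatedPrimes A (A ⧸ Ideal.ofList g), Ideal.ofList g ≤ q := by
      intro q hq
      have h1 := IsAssociatedPrime.annihilator_le hq
      intro y hy
      apply h1
      rw [Submodule.mem_annihilator]
      intro w _
      obtain ⟨z, rfl⟩ := Ideal.Quotient.mk_surjective w
      have h2 : y • (Ideal.Quotient.mk (Ideal.ofList g) z) =
        Ideal.Quotient.mk (Ideal.ofList g) (y * z) := rfl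
      rw [h2, Ideal.Quotient.eq_zero_iff_mem]
      exact Ideal.mul_mem_right z _ hy
    obtain ⟨j, hj, hjs⟩ := exists_add_mem_notMem hfin.toFinset
      (fun q hq => IsAssociatedPrime.isPrime (hfin.mem_toFinset.mp hq)) (f k0) J (by
        intro q hq hle
        have hq' := hfin.mem_toFinset.mp hq
        have h1 : Ideal.span (Set.range f) ≤ q := by
          rw [← hgI]
          exact sup_le (hann q hq') hle
        have h2 := hunm g hgr q hq'
        have h3 := Ideal.height_mono h1
        have h4 : (C : ℕ∞) ≤ (i : ℕ∞) := by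
          rw [hgl] at h2
          exact hht.trans (h3.trans h2)
        have h5 : C ≤ i := by exact_mod_cast h4
        omega)
    refine ⟨g ++ [f k0 + j], by simp [hgl], ?_, ?_⟩
    · rw [isWeaklyRegular_append_singleton_iff]
      refine ⟨hgr, fun y hy => ?_⟩
      by_contra hyn
      have h1 : f k0 + j ∈ ⋃ p ∈ associatedPrimes A (A ⧸ Ideal.ofList g), (p : Set A) := by
        rw [biUnion_associatedPrimes_eq_zero_divisors]
        refine ⟨Ideal.Quotient.mk (Ideal.ofList g) y, ?_, ?_⟩
        · rw [Ne, Ideal.Quotient.eq_zero_iff_mem]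
          exact hyn
        · have h2 : (f k0 + j) • (Ideal.Quotient.mk (Ideal.ofList g) y) =
            Ideal.Quotient.mk (Ideal.ofList g) ((f k0 + j) * y) := rfl
          rw [h2, Ideal.Quotient.eq_zero_iff_mem]
          exact hy
      simp only [Set.mem_iUnion] at h1
      obtain ⟨q, hq, hmem⟩ := h1
      exact hjs q (hfin.mem_toFinset.mpr hq) hmem
    · rw [← hgI, Ideal.ofList_append, Ideal.ofList_singleton, sup_assoc]
      congr 1
      apply le_antisymm
      · refine sup_le ?_ le_sup_right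
        rw [Ideal.span_singleton_le_iff_mem]
        exact Ideal.add_mem _ (Ideal.mem_sup_left (Ideal.mem_span_singleton_self _))
          (Ideal.mem_sup_right hj)
      · refine sup_le ?_ le_sup_right
        rw [Ideal.span_singleton_le_iff_mem]
        have h1 : (f k0 + j) - j ∈ Ideal.span {f k0 + j} ⊔ J :=
          Ideal.sub_mem _ (Ideal.mem_sup_left (Ideal.mem_span_singleton_self _))
            (Ideal.mem_sup_right hj)
        rwa [add_sub_cancel_right] at h1

/-- Regular generators, with unmixedness as a hypothesis. -/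
theorem exists_isWeaklyRegular_generators_of {A : Type u} [CommRing A] [IsNoetherianRing A]
    (hunm : ∀ (rs : List A), IsWeaklyRegular A rs → ∀ (q : Ideal A),
      q ∈ associatedPrimes A (A ⧸ Ideal.ofList rs) → q.height ≤ rs.length)
    {C : ℕ} (f : Fin C → A) (hht : (C : ℕ∞) ≤ (Ideal.span (Set.range f)).height) :
    ∃ g : List A, g.length = C ∧ IsWeaklyRegular A g ∧
      Ideal.ofList g = Ideal.span (Set.range f) := by
  obtain ⟨g, h1, h2, h3⟩ := exists_isWeaklyRegular_generators_aux hunm f hht C le_rfl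
  refine ⟨g, h1, h2, ?_⟩
  rw [← h3]
  have h4 : {k : Fin C | C ≤ (k : ℕ)} = ∅ := by
    ext k
    simp only [Set.mem_ofPred_eq, Set.mem_empty_iff_false, iff_false, not_le]
    exact k.2
  rw [h4, Set.image_empty, Ideal.span_empty, sup_bot_eq]

/-- An ideal of height at least `C` with `C` generators in a regular ring is generated by a
regular sequence of length `C`. -/
theorem exists_isWeaklyRegular_generators {A : Type u} [CommRing A] [IsRegularRing A]
    {C : ℕ} (f : Fin C → A) (hht : (C : ℕ∞) ≤ (Ideal.span (Set.range f)).height) :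
    ∃ g : List A, g.length = C ∧ IsWeaklyRegular A g ∧
      Ideal.ofList g = Ideal.span (Set.range f) :=
  exists_isWeaklyRegular_generators_of
    (fun rs hrs q hq => height_le_of_mem_associatedPrimes rs hrs q hq) f hht

end Pool.Agent.Helper15.NC
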