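import Mathlib

/-!
# Powers of finitely generated ideals and Frobenius powers
-/

namespace Pool.Agent.Helper15.NC

universe u

variable {A : Type u} [CommRing A]

theorem sup_pow_le (I J : Ideal A) (a b : ℕ) :
    (I ⊔ J) ^ (a + b + 1) ≤ I ^ (a + 1) ⊔ J ^ (b + 1) := by
  rw [← Ideal.add_eq_sup, add_pow, Ideal.sum_eq_sup, Finset.sup_le_iff]
  intro k hk
  refine Ideal.mul_le_left.trans ?_
  by_cases h : a + 1 ≤ k
  · exact le_sup_of_le_left (Ideal.mul_le_left.trans (Ideal.pow_le_pow_right h))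
  · have h2 : b + 1 ≤ a + b + 1 - k := by omega
    exact le_sup_of_le_right (Ideal.mul_le_right.trans (Ideal.pow_le_pow_right h2))

theorem span_image_pow_le {ι : Type*} [DecidableEq ι] (b : ι → A) (n : ℕ) (s : Finset ι) :
    (Ideal.span (b '' s)) ^ (s.card * n + 1) ≤ Ideal.span ((fun k => b k ^ (n + 1)) '' s) := by
  induction s using Finset.induction_on with
  | empty => simp
  | insert i s his ih =>
    rw [Finset.card_insert_of_notMem his, Finset.coe_insert, Set.image_insert_eq,
      Set.image_insert_eq, Ideal.span_insert, Ideal.span_insert]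
    have h1 : (s.card + 1) * n + 1 = n + s.card * n + 1 := by ring
    rw [h1]
    refine (sup_pow_le _ _ _ _).trans (sup_le_sup ?_ ih)
    rw [Ideal.span_singleton_pow]

theorem span_range_pow_le {ι : Type*} [Fintype ι] (b : ι → A) (n : ℕ) :
    (Ideal.span (Set.range b)) ^ (Fintype.card ι * n + 1) ≤
      Ideal.span (Set.range fun k => b k ^ (n + 1)) := by
  classical
  have := span_image_pow_le b n Finset.univ
  simpa [Set.image_univ] using this

/-- The pigeonhole principle behind the computation. -/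
theorem pigeon {ι₁ ι₂ : Type*} [Fintype ι₁] [Fintype ι₂] (b₁ : ι₁ → A) (b₂ : ι₂ → A) (C n : ℕ)
    (hnum : Fintype.card ι₁ + Fintype.card ι₂ + Fintype.card ι₁ ≤ 2 * C) :
    (Ideal.span (Set.range b₁) ⊔
      (Ideal.span (Set.range b₁) ⊔ Ideal.span (Set.range b₂)) ^ 2) ^ (C * n) *
        (Ideal.span (Set.range b₁) ⊔ Ideal.span (Set.range b₂)) ≤
      Ideal.span (Set.range fun k => b₁ k ^ (n + 1)) ⊔
        Ideal.span (Set.range fun k => b₂ k ^ (n + 1)) := by
  set K₁ := Ideal.span (Set.range b₁) with hK₁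
  set K₂ := Ideal.span (Set.range b₂) with hK₂
  have hK : K₁ ⊔ K₂ = Ideal.span (Set.range (Sum.elim b₁ b₂)) := by
    rw [Set.Sum.elim_range, Ideal.span_union]
  have hT : Ideal.span (Set.range fun k => b₁ k ^ (n + 1)) ⊔
        Ideal.span (Set.range fun k => b₂ k ^ (n + 1)) =
      Ideal.span (Set.range fun k => (Sum.elim b₁ b₂) k ^ (n + 1)) := by
    have : (fun k => (Sum.elim b₁ b₂) k ^ (n + 1)) =
        Sum.elim (fun k => b₁ k ^ (n + 1)) (fun k => b₂ k ^ (n + 1)) := by
      ext k; cases k <;> rfl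
    rw [this, Set.Sum.elim_range, Ideal.span_union]
  rw [← Ideal.add_eq_sup (I := K₁) (J := (K₁ ⊔ K₂) ^ 2), add_pow, Finset.sum_mul,
    Ideal.sum_eq_sup, Finset.sup_le_iff]
  intro k hk
  rw [Finset.mem_range] at hk
  by_cases h : Fintype.card ι₁ * n + 1 ≤ k
  · refine Ideal.mul_le_left.trans ?_
    refine Ideal.mul_le_left.trans ?_
    refine Ideal.mul_le_left.trans ?_
    refine (Ideal.pow_le_pow_right h).trans ?_
    exact le_sup_of_le_left (span_range_pow_le b₁ n)
  · have h1 : K₁ ^ k * ((K₁ ⊔ K₂) ^ 2) ^ (C * n - k) * ((C * n).choose k : Ideal A) *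
        (K₁ ⊔ K₂) ≤ (K₁ ⊔ K₂) ^ (k + 2 * (C * n - k) + 1) := by
      rw [pow_succ (K₁ ⊔ K₂) (k + 2 * (C * n - k)), pow_add, pow_mul]
      refine Ideal.mul_mono_left ?_
      refine Ideal.mul_le_left.trans (Ideal.mul_mono_left (Ideal.pow_right_mono le_sup_left k))
    refine h1.trans ?_
    have h2 : Fintype.card (ι₁ ⊕ ι₂) * n + 1 ≤ k + 2 * (C * n - k) + 1 := by
      rw [Fintype.card_sum]
      have h3 := Nat.mul_le_mul_right n hnum
      have h4 : (Fintype.card ι₁ + Fintype.card ι₂ + Fintype.card ι₁) * n =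
        (Fintype.card ι₁ + Fintype.card ι₂) * n + Fintype.card ι₁ * n := by ring
      have h5 : 2 * C * n = 2 * (C * n) := by ring
      omega
    refine (Ideal.pow_le_pow_right h2).trans ?_
    rw [hK, hT]
    exact span_range_pow_le (Sum.elim b₁ b₂) n

end Pool.Agent.Helper15.NC
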