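import Pool.Agent.Helper15.NC.LocalFR
import Pool.Agent.Helper15.NC.Pigeon
import Pool.Agent.Helper15.NC.CA3

open IsLocalRing RingTheory.Sequence

namespace Pool.Agent.Helper15.NC

universe u

theorem height_le_height_of_radical {A : Type u} [CommRing A] (J Q : Ideal A) [Q.IsPrime]
    (h : Q ≤ J.radical) : Q.height ≤ J.height := by
  rw [Ideal.height_eq_inf_minimalPrimes J]
  refine le_iInf₂ fun q hq => ?_
  have hqp := hq.1.1
  exact Ideal.height_mono (h.trans (hqp.radical_le_iff.2 hq.1.2))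

/-- If `J` is generated by a regular sequence of length `C`, is contained in a prime `Q` of height
at least `C` inside its radical, and agrees with `Q` generically, then `J = Q`. -/
theorem eq_of_generic {A : Type u} [CommRing A] [IsRegularRing A] (J Q : Ideal A) [Q.IsPrime]
    (hJQ : J ≤ Q) (hrad : Q ≤ J.radical) (g : List A) (hg : IsWeaklyRegular A g)
    (hgJ : Ideal.ofList g = J) (hht : (g.length : ℕ∞) ≤ Q.height)
    (w : A) (hw : w ∉ Q) (hwQ : ∀ z ∈ Q, w * z ∈ J) : J = Q := by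
  refine le_antisymm hJQ fun z hz => ?_
  by_contra hzJ
  have hmem : w ∈ ⋃ q ∈ associatedPrimes A (A ⧸ J), (q : Set A) := by
    rw [biUnion_associatedPrimes_eq_zero_divisors]
    refine ⟨Ideal.Quotient.mk J z, fun h => hzJ (Ideal.Quotient.eq_zero_iff_mem.1 h), ?_⟩
    rw [Algebra.smul_def, Ideal.Quotient.algebraMap_eq, ← map_mul]
    exact Ideal.Quotient.eq_zero_iff_mem.2 (hwQ z hz)
  obtain ⟨q, hq, hwq⟩ := Set.mem_iUnion₂.1 hmem
  have hqp : q.IsPrime := hq.1
  have hJq : J ≤ q := by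
    obtain ⟨x, hx⟩ := hq.2
    intro y hy
    rw [hx]
    apply Ideal.le_radical
    rw [Submodule.mem_colon_singleton, Submodule.mem_bot]
    obtain ⟨x', rfl⟩ := Ideal.Quotient.mk_surjective x
    rw [Algebra.smul_def, Ideal.Quotient.algebraMap_eq, ← map_mul]
    exact Ideal.Quotient.eq_zero_iff_mem.2 (Ideal.mul_mem_right _ _ hy)
  have hQq : Q ≤ q := hrad.trans (hqp.radical_le_iff.2 hJq)
  have hht' : q.height ≤ g.length := by
    apply height_le_of_mem_associatedPrimes g hg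
    rw [hgJ]
    exact hq
  have hne : Q ≠ q := by
    rintro rfl
    exact hw hwq
  have hlt : Q < q := lt_of_le_of_ne hQq hne
  have h1 := Ideal.height_add_one_le_of_lt_of_isPrime hlt
  have h2 : ((g.length : ℕ∞)) + 1 ≤ g.length := (add_le_add_left hht 1).trans (h1.trans hht')
  have h3 : ((g.length + 1 : ℕ) : ℕ∞) ≤ (g.length : ℕ) := by exact_mod_cast h2
  rw [Nat.cast_le] at h3
  omega

theorem ofList_map_pow {A : Type u} [CommRing A] (p : ℕ) [Fact p.Prime] [CharP A p] (e : ℕ)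
    (l : List A) : frobPow (p ^ e) (Ideal.ofList l) = Ideal.ofList (l.map (· ^ (p ^ e))) := by
  rw [Ideal.ofList, frobPow_span, Ideal.ofList]
  congr 1
  ext x
  simp [List.mem_map]

theorem prod_pow_mem {A : Type u} [CommRing A] (J : Ideal A) (n : ℕ) (g : List A)
    (hg : ∀ x ∈ g, x ∈ J) : (g.map (· ^ n)).prod ∈ J ^ (g.length * n) := by
  induction g with
  | nil => simp
  | cons x l ih =>
    rw [List.map_cons, List.prod_cons, List.length_cons, add_mul, one_mul, add_comm, pow_add]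
    exact Ideal.mul_mem_mul (Ideal.pow_mem_pow (hg x List.mem_cons_self) n)
      (ih fun y hy => hg y (List.mem_cons_of_mem _ hy))

/-- The contradiction. -/
theorem core {A : Type u} [CommRing A] [IsLocalRing A] [IsRegularRing A] (p : ℕ) [Fact p.Prime]
    [CharP A p] (Q : Ideal A) [Q.IsPrime] (tight : ∀ a : Ideal (A ⧸ Q), tightClosure p a ⊆ a)
    {C : ℕ} (f : Fin C → A) (hfQ : Ideal.span (Set.range f) ≤ Q)
    (hrad : Q ≤ (Ideal.span (Set.range f)).radical) (hht : (C : ℕ∞) ≤ Q.height)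
    (hgen : ∃ w, w ∉ Q ∧ ∀ z ∈ Q, w * z ∈ Ideal.span (Set.range f))
    {ι₁ ι₂ : Type*} [Fintype ι₁] [Fintype ι₂] (b₁ : ι₁ → A) (b₂ : ι₂ → A)
    (hb₁ : ∀ k, b₁ k ∈ maximalIdeal A) (hb₂ : ∀ k, b₂ k ∈ maximalIdeal A)
    (hI : Ideal.span (Set.range f) ≤ Ideal.span (Set.range b₁) ⊔
      (Ideal.span (Set.range b₁) ⊔ Ideal.span (Set.range b₂)) ^ 2)
    (hnum : Fintype.card ι₁ + Fintype.card ι₂ + Fintype.card ι₁ ≤ 2 * C)
    (hw : ¬ (Ideal.span (Set.range b₁) ⊔ Ideal.span (Set.range b₂) ≤ Q)) : False := by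
  have hQm : Q ≤ maximalIdeal A := le_maximalIdeal (Ideal.IsPrime.ne_top inferInstance)
  obtain ⟨g, hgC, hg, hgJ⟩ := exists_isWeaklyRegular_generators f
    (hht.trans (height_le_height_of_radical _ _ hrad))
  obtain ⟨w₁, hw₁, hw₁Q⟩ := hgen
  have hJQ : Ideal.span (Set.range f) = Q :=
    eq_of_generic _ Q hfQ hrad g hg hgJ (by rw [hgC]; exact hht) w₁ hw₁ hw₁Q
  have hgQ : ∀ x ∈ g, x ∈ Q := by
    intro x hx
    rw [← hJQ, ← hgJ]
    exact Ideal.subset_span hx
  obtain ⟨a, ha, hga, z, hz, hzm⟩ := exists_maximal_regular g hg fun x hx => hQm (hgQ x hx)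
  have hgam : ∀ x ∈ g ++ a, x ∈ maximalIdeal A := by
    intro x hx
    rcases List.mem_append.1 hx with h | h
    · exact hQm (hgQ x h)
    · exact ha x h
  obtain ⟨w, hwK, hwQ⟩ := SetLike.not_le_iff_exists.1 hw
  have key : ∀ e : ℕ, w * z ^ (p ^ e) ∈ frobPow (p ^ e) (Ideal.ofList a) ⊔ Q := by
    intro e
    have hpos : 0 < p ^ e := pow_pos (Fact.out (p := p.Prime)).pos e
    obtain ⟨n, hn⟩ : ∃ n, p ^ e = n + 1 := ⟨p ^ e - 1, by omega⟩
    have h1 : (g.map (· ^ n)).prod * w ∈ frobPow (p ^ e) (maximalIdeal A) := by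
      have h2 : (g.map (· ^ n)).prod ∈ (Ideal.span (Set.range b₁) ⊔
          (Ideal.span (Set.range b₁) ⊔ Ideal.span (Set.range b₂)) ^ 2) ^ (C * n) := by
        refine Ideal.pow_right_mono hI (C * n) ?_
        have h2' := prod_pow_mem (Ideal.span (Set.range f)) n g (by
          intro x hx
          rw [← hgJ]
          exact Ideal.subset_span hx)
        rwa [hgC] at h2'
      have h3 := pigeon b₁ b₂ C n hnum (Ideal.mul_mem_mul h2 hwK)
      refine (sup_le ?_ ?_ : _ ≤ frobPow (p ^ e) (maximalIdeal A)) h3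
      · rw [Ideal.span_le]
        rintro _ ⟨k, rfl⟩
        rw [hn]
        exact pow_mem_frobPow _ (hb₁ k)
      · rw [Ideal.span_le]
        rintro _ ⟨k, rfl⟩
        rw [hn]
        exact pow_mem_frobPow _ (hb₂ k)
    have h4 : ∀ t ∈ frobPow (p ^ e) (maximalIdeal A),
        t * z ^ (p ^ e) ∈ frobPow (p ^ e) (Ideal.ofList (g ++ a)) := by
      intro t ht
      refine Submodule.span_induction (p := fun t _ => t * z ^ (p ^ e) ∈
        frobPow (p ^ e) (Ideal.ofList (g ++ a))) ?_ ?_ ?_ ?_ ht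
      · rintro _ ⟨x, hx, rfl⟩
        show x ^ (p ^ e) * z ^ (p ^ e) ∈ _
        rw [← mul_pow]
        exact pow_mem_frobPow _ (hzm x hx)
      · rw [zero_mul]; exact Ideal.zero_mem _
      · intro x y _ _ hx hy
        rw [add_mul]; exact Ideal.add_mem _ hx hy
      · intro c x _ hx
        rw [smul_eq_mul, mul_assoc]
        exact Ideal.mul_mem_left _ _ hx
    have h5 := h4 _ h1
    rw [ofList_map_pow, List.map_append, hn] at h5
    have h6 : w * z ^ (n + 1) ∈ Ideal.ofList (g ++ a.map (· ^ (n + 1))) := by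
      apply mem_of_prod_pow_mul_mem g a hga hgam n
      have : w * z ^ (n + 1) * (g.map (· ^ n)).prod = (g.map (· ^ n)).prod * w * z ^ (n + 1) := by
        ring
      rw [this]
      exact h5
    rw [hn]
    rw [Ideal.ofList_append] at h6
    have h7 : Ideal.ofList g ≤ Q := by rw [hgJ]; exact hfQ
    have h8 : Ideal.ofList (a.map (· ^ (n + 1))) = frobPow (n + 1) (Ideal.ofList a) := by
      rw [← hn, ofList_map_pow]
    rw [h8] at h6
    exact (sup_le (h7.trans le_sup_right) le_sup_left) h6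
  have hfin := tight_mod p Q tight (Ideal.ofList a) z w hwQ key
  apply hz
  rw [Ideal.ofList_append, hgJ, hJQ, sup_comm]
  exact hfin

end Pool.Agent.Helper15.NC
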