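import Mathlib

/-!
# Nearly commuting matrices: the rings of the problem
-/

namespace Pool.Agent.Helper15.NC

universe u

/-- The polynomial ring over `K` in the `2 n ^ 2` entries of two generic `n` by `n` matrices. -/
abbrev PairRing (K : Type u) [Field K] (n : ℕ) := MvPolynomial (Bool × Fin n × Fin n) K

/-- The first generic matrix. -/
noncomputable def genX (K : Type u) [Field K] (n : ℕ) : Matrix (Fin n) (Fin n) (PairRing K n) :=
  fun i j => MvPolynomial.X (false, i, j)

/-- The second generic matrix. -/
noncomputable def genY (K : Type u) [Field K] (n : ℕ) : Matrix (Fin n) (Fin n) (PairRing K n) :=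
  fun i j => MvPolynomial.X (true, i, j)

/-- The entries of the commutator of the two generic matrices. -/
noncomputable def commEntry (K : Type u) [Field K] (n : ℕ) (i j : Fin n) : PairRing K n :=
  (genX K n * genY K n - genY K n * genX K n) i j

/-- The ideal `I` generated by the off-diagonal entries of the commutator. -/
noncomputable def nearlyCommutingIdeal (K : Type u) [Field K] (n : ℕ) : Ideal (PairRing K n) :=
  Ideal.span {u | ∃ i j : Fin n, i ≠ j ∧ u = commEntry K n i j}

/-- The ideal `J` generated by all entries of the commutator. -/
noncomputable def commutingIdeal (K : Type u) [Field K] (n : ℕ) : Ideal (PairRing K n) :=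
  Ideal.span {u | ∃ i j : Fin n, u = commEntry K n i j}

/-- The ideal `P`, the radical of `J`. -/
noncomputable def commutingPrime (K : Type u) [Field K] (n : ℕ) : Ideal (PairRing K n) :=
  (commutingIdeal K n).radical

/-- The ideal `Q` of the skew component: the intersection of all minimal primes of `I` other than
`P` (there is exactly one). -/
noncomputable def skewIdeal (K : Type u) [Field K] (n : ℕ) : Ideal (PairRing K n) :=
  sInf {q | q ∈ (nearlyCommutingIdeal K n).minimalPrimes ∧ q ≠ commutingPrime K n}

end Pool.Agent.Helper15.NC
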