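import Pool.Agent.Helper15.NC.Main

/-!
# The final argument
-/

open IsLocalRing

namespace Pool.Agent.Helper15.NC

universe u v

theorem crossEnt_eq_zero {A : Type u} [CommRing A] {F : Type v} [Field F] {m : ℕ}
    (δ : Fin 4 → Fin m → F) (c : Fin m → F) (X Y : Matrix (Ix m) (Ix m) A)
    (φ : A →+* F) (hX : ∀ s t, φ (X s t) = PowerSeries.constantCoeff (PX F δ s t))
    (hY : ∀ s t, φ (Y s t) = PowerSeries.constantCoeff (PY F δ c s t))
    (t : Fin 4 × Fin 2 × (Fin 4 × Fin m)) : φ (crossEnt X Y t) = 0 := by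
  obtain ⟨t, r, v⟩ := t
  match t with
  | 0 =>
    show φ (X (.inl r) (.inr v)) = 0
    rw [hX, PX, pathX_lr, map_zero]
  | 1 =>
    show φ (X (.inr v) (.inl r)) = 0
    rw [hX, PX, pathX_rl, map_zero]
  | 2 =>
    show φ (Y (.inl r) (.inr v)) = 0
    rw [hY, PY, pathY_lr, map_zero]
  | 3 =>
    show φ (Y (.inr v) (.inl r)) = 0
    rw [hY, PY, pathY_rl, map_zero]

theorem map_cube {A : Type u} [CommRing A] {B : Type v} [CommRing B] {m : ℕ} (Θ : A →+* B)
    (X : Matrix (Ix m) (Ix m) A) (X' : Matrix (Ix m) (Ix m) B) (h : ∀ s t, Θ (X s t) = X' s t)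
    (a b : Fin 4) (i j : Fin m) :
    Θ ((blk22 X * blk22 X * blk22 X) a b i j) = (blk22 X' * blk22 X' * blk22 X') a b i j := by
  let r : M4 A m →+* M4 B m := (Θ.mapMatrix (m := Fin m)).mapMatrix (m := Fin 4)
  have h3 : r (blk22 X) = blk22 X' := by
    funext a b
    ext i j : 1
    exact h _ _
  have h4 : Θ ((blk22 X * blk22 X * blk22 X) a b i j) =
      (r (blk22 X * blk22 X * blk22 X)) a b i j := rfl
  rw [h4, map_mul, map_mul, h3]

/-- The abstract final step. -/
theorem final_core {A : Type u} [CommRing A] [IsLocalRing A] [IsRegularRing A] (p : ℕ)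
    [Fact p.Prime] [CharP A p] (Q : Ideal A) [Q.IsPrime]
    (tight : ∀ a : Ideal (A ⧸ Q), tightClosure p a ⊆ a)
    {F : Type v} [Field F] {m : ℕ} (hm : 41 ≤ m)
    (δ : Fin 4 → Fin m → F) (c : Fin m → F) (hδ0 : ∀ a i, δ a i ≠ 0) (hc : Function.Injective c)
    (Θ : A →+* PowerSeries F)
    (hΘ : ∀ x, x ∈ maximalIdeal A ↔ PowerSeries.constantCoeff (Θ x) = 0)
    (hQ : Q ≤ RingHom.ker Θ) (X Y : Matrix (Ix m) (Ix m) A)
    (hX : ∀ s t, Θ (X s t) = PX F δ s t) (hY : ∀ s t, Θ (Y s t) = PY F δ c s t)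
    (g : Fin (Fintype.card (Off m)) ≃ Off m) (f : Fin (Fintype.card (Off m)) → A)
    (hf : ∀ k, f k = (X * Y - Y * X) (g k).1.1 (g k).1.2)
    (hfQ : ∀ k, f k ∈ Q)
    (hrad : Q ≤ (Ideal.span (Set.range f)).radical)
    (hht : (Fintype.card (Off m) : ℕ∞) ≤ Q.height)
    (hgen : ∃ w, w ∉ Q ∧ ∀ z ∈ Q, w * z ∈ Ideal.span (Set.range f)) : False := by
  have hcomm : ∀ s t, s ≠ t → (X * Y - Y * X) s t ∈ Q := by
    intro s t hst
    have h1 := hfQ (g.symm ⟨(s, t), hst⟩)
    rwa [hf, Equiv.apply_symm_apply] at h1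
  let φ : A →+* F := (PowerSeries.constantCoeff (R := F)).comp Θ
  have hφX : ∀ s t, φ (X s t) = PowerSeries.constantCoeff (PX F δ s t) := fun s t =>
    congrArg (fun x => PowerSeries.constantCoeff x) (hX s t)
  have hφY : ∀ s t, φ (Y s t) = PowerSeries.constantCoeff (PY F δ c s t) := fun s t =>
    congrArg (fun x => PowerSeries.constantCoeff x) (hY s t)
  have hφc : ∀ s t, s ≠ t → φ ((X * Y - Y * X) s t) = 0 := by
    intro s t hst
    have h1 : Θ ((X * Y - Y * X) s t) = 0 := hQ (hcomm s t hst)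
    show PowerSeries.constantCoeff (Θ _) = 0
    rw [h1, map_zero]
  obtain ⟨b₁, b₂, hb₁, hb₂, hcm, hcube⟩ := exists_gens φ hΘ X Y c hc
    (red_blk22_X φ X δ hφX) (red_blk22_Y φ Y δ c hφY)
    (crossEnt_eq_zero δ c X Y φ hφX hφY)
    (hφc _ _ (by simp)) (hφc _ _ (by simp))
  refine core p Q tight f ?_ hrad hht hgen b₁ b₂ hb₁ hb₂ ?_ (card_numerics m hm) ?_
  · rw [Ideal.span_le]
    rintro _ ⟨k, rfl⟩
    exact hfQ k
  · rw [Ideal.span_le]
    rintro _ ⟨k, rfl⟩
    rw [hf]
    exact hcm (g k).1.1 (g k).1.2 (g k).2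
  · intro hle
    have hm0 : 0 < m := by omega
    have h1 := hcube _ hle 0 ⟨0, hm0⟩ ⟨0, hm0⟩
    have h2 := hQ h1
    rw [RingHom.mem_ker, map_cube Θ X (PX F δ) hX, cube_path] at h2
    refine pow_ne_zero 3 (mul_ne_zero PowerSeries.X_ne_zero ?_) h2
    intro h
    rw [map_eq_zero_iff _ PowerSeries.C_injective] at h
    exact hδ0 _ _ h

/-- The images of a matrix. -/
theorem comm_map {R : Type u} {A : Type u} [CommRing R] [CommRing A] (α : R →+* A) {m : ℕ}
    (X Y : Matrix (Ix m) (Ix m) R) (s t : Ix m) :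
    (α.mapMatrix X * α.mapMatrix Y - α.mapMatrix Y * α.mapMatrix X) s t =
      α ((X * Y - Y * X) s t) := by
  rw [← map_mul, ← map_mul, ← map_sub]
  rfl

/-- The local argument. -/
theorem local_core {K : Type*} [Field K] {R : Type u} [CommRing R] [Algebra K R] [IsRegularRing R]
    (p : ℕ) [Fact p.Prime] [CharP K p] (S : Ideal R) (hFR : FRegular p (R ⧸ S))
    {F : Type v} [Field F] {m : ℕ} (hm : 41 ≤ m)
    (δ : Fin 4 → Fin m → F) (c : Fin m → F) (hδ0 : ∀ a i, δ a i ≠ 0) (hc : Function.Injective c)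
    (θ : R →+* PowerSeries F) (hSker : S ≤ RingHom.ker θ) (X Y : Matrix (Ix m) (Ix m) R)
    (hX : ∀ s t, θ (X s t) = PX F δ s t) (hY : ∀ s t, θ (Y s t) = PY F δ c s t)
    (g : Fin (Fintype.card (Off m)) ≃ Off m) (f : Fin (Fintype.card (Off m)) → R)
    (hf : ∀ k, f k = (X * Y - Y * X) (g k).1.1 (g k).1.2)
    (hfS : ∀ k, f k ∈ S) (u : R) (hu : PowerSeries.constantCoeff (θ u) ≠ 0)
    (hrad : ∀ z ∈ S, ∃ k : ℕ, (u * z) ^ k ∈ Ideal.span (Set.range f))
    (D : Fin (Fintype.card (Off m)) → Derivation K R R)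
    (hdet : θ (Matrix.of fun k l => D l (f k)).det ≠ 0) : False := by
  classical
  let N : Ideal R := RingHom.ker ((PowerSeries.constantCoeff (R := F)).comp θ)
  have hNp : N.IsPrime := RingHom.ker_isPrime _
  have hN : ∀ r, r ∈ N ↔ PowerSeries.constantCoeff (θ r) = 0 := fun r => Iff.rfl
  have hA : IsRegularRing (Localization.AtPrime N) := isRegularRing_localization _ _
  obtain ⟨Θ, hΘ, hΘm⟩ := exists_lift θ N hN
  let α : R →+* Localization.AtPrime N := algebraMap R (Localization.AtPrime N)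
  let Q : Ideal (Localization.AtPrime N) := S.map α
  have hQker : Q ≤ RingHom.ker Θ := by
    rw [Ideal.map_le_iff_le_comap]
    intro z hz
    rw [Ideal.mem_comap, RingHom.mem_ker, hΘ]
    exact hSker hz
  have hQne : Q ≠ ⊤ := by
    intro h
    rw [h] at hQker
    exact RingHom.ker_ne_top Θ (top_le_iff.1 hQker)
  have hnt : Nontrivial (Localization.AtPrime N ⧸ Q) := Ideal.Quotient.nontrivial_iff.2 hQne
  have hcA : CharP (Localization.AtPrime N) p := charP_of_injective_ringHom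
    (α.comp (algebraMap K R)).injective p
  have hcQ : CharP (Localization.AtPrime N ⧸ Q) p := charP_of_injective_ringHom
    ((Ideal.Quotient.mk Q).comp (α.comp (algebraMap K R))).injective p
  have tight : ∀ a : Ideal (Localization.AtPrime N ⧸ Q), tightClosure p a ⊆ a :=
    tight_of_fregular p S N hFR
  have hloc : IsLocalRing (Localization.AtPrime N ⧸ Q) :=
    IsLocalRing.of_surjective' (Ideal.Quotient.mk Q) Ideal.Quotient.mk_surjective
  have hdom : IsDomain (Localization.AtPrime N ⧸ Q) := isDomain_of_tight p tight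
  have hQp : Q.IsPrime := (Ideal.Quotient.isDomain_iff_prime _).1 hdom
  have hfQ : ∀ k, α (f k) ∈ Q := fun k => Ideal.mem_map_of_mem _ (hfS k)
  have hradQ : Q ≤ (Ideal.span (Set.range fun k => α (f k))).radical := by
    rw [Ideal.map_le_iff_le_comap]
    intro z hz
    obtain ⟨k, hk⟩ := hrad z hz
    refine ⟨k, ?_⟩
    have h2 := Ideal.mem_map_of_mem α hk
    rw [Ideal.map_span, ← Set.range_comp, mul_pow, map_mul, map_pow, map_pow] at h2
    have hu' : IsUnit (α u) := IsLocalization.map_units (Localization.AtPrime N)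
      (⟨u, fun h => hu ((hN u).1 h)⟩ : N.primeCompl)
    rwa [Ideal.unit_mul_mem_iff_mem _ (hu'.pow k)] at h2
  obtain ⟨hht, hgen⟩ := generic_of_jacobian N Q f hfQ D
    (by
      intro h
      have h1 := hQker h
      rw [RingHom.mem_ker, hΘ] at h1
      exact hdet h1) hradQ
  exact final_core p Q tight hm δ c hδ0 hc Θ hΘm hQker
    (α.mapMatrix X) (α.mapMatrix Y)
    (fun s t => (hΘ (X s t)).trans (hX s t)) (fun s t => (hΘ (Y s t)).trans (hY s t)) g
    (fun k => α (f k))
    (fun k => by rw [comm_map, hf]) hfQ hradQ hht hgen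

/-- The skew component is not F-regular. -/
theorem skew_not_fregular (p : ℕ) [Fact p.Prime] (K : Type u) [Field K] [CharP K p] (m : ℕ)
    (hm : 41 ≤ m) : ¬ FRegular p (PairRing K (4 * m + 2) ⧸ skewIdeal K (4 * m + 2)) := by
  intro hFR
  have hcard : Fintype.card (Ix m) = 4 * m + 2 := by
    simp [Fintype.card_sum, add_comm]
  have e : Ix m ≃ Fin (4 * m + 2) := Fintype.equivFinOfCardEq hcard
  have : Infinite (AlgebraicClosure K) := inferInstance
  obtain ⟨δ, c, hδ0, hδ, hc⟩ := exists_params (AlgebraicClosure K) m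
  let g : Fin (Fintype.card (Off m)) ≃ Off m := (Fintype.equivFin (Off m)).symm
  refine local_core (K := K) (R := PairRing K (4 * m + 2)) p (skewIdeal K (4 * m + 2)) hFR hm
    δ c hδ0 hc
    (theta K (AlgebraicClosure K) e δ c) (skew_le_ker K _ e δ c)
    (fun s t => rvar K e false s t) (fun s t => rvar K e true s t)
    (theta_false K _ e δ c) (theta_true K _ e δ c) g (offFam K e g) ?_ ?_
    (commEntry K (4 * m + 2) (e (.inl 0)) (e (.inl 0))) ?_ ?_
    (fun l => MvPolynomial.pderiv ((jvar (g l)).1, e (jvar (g l)).2.1, e (jvar (g l)).2.2)) ?_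
  · intro k
    exact commEntry_reindex K e _ _
  · intro k
    rw [skewIdeal, Ideal.mem_sInf]
    intro q hq
    exact hq.1.1.2 (offFam_mem K e g k)
  · exact comm_notMem_ptIdeal K _ e δ c
  · intro z hz
    obtain ⟨k, hk⟩ := mul_mem_radical K z hz (e (.inl 0))
    exact ⟨k, nearly_le_offFam K e g hk⟩
  · rw [det_offFam]
    exact theta_det_ne_zero K _ e δ c hδ0 hδ

end Pool.Agent.Helper15.NC
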