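import Pool.Agent.Helper15.NC.Block2

/-!
# The frame of a pair of block matrices near the special point
-/

open IsLocalRing

namespace Pool.Agent.Helper15.NC

universe u v

/-- Four by four block matrices. -/
abbrev M4 (A : Type u) (m : ℕ) := Matrix (Fin 4) (Fin 4) (Blk A m)

section

variable {A : Type u} [CommRing A] {m : ℕ}

/-- The frame `(e0, X e0, Y e0, X^2 e0)`. -/
def frame (X Y : M4 A m) : M4 A m := fun a b =>
  match b with
  | 0 => if a = 0 then 1 else 0
  | 1 => X a 0
  | 2 => Y a 0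
  | 3 => (X * X) a 0

theorem mul_frame_zero (X Y M : M4 A m) (a : Fin 4) : (M * frame X Y) a 0 = M a 0 := by
  rw [Matrix.mul_apply, Fin.sum_univ_four]
  simp [frame]

theorem mul_frame_one (X Y M : M4 A m) (a : Fin 4) : (M * frame X Y) a 1 = (M * X) a 0 := by
  rw [Matrix.mul_apply, Matrix.mul_apply]
  rfl

theorem mul_frame_two (X Y M : M4 A m) (a : Fin 4) : (M * frame X Y) a 2 = (M * Y) a 0 := by
  rw [Matrix.mul_apply, Matrix.mul_apply]
  rfl

theorem mul_frame_three (X Y M : M4 A m) (a : Fin 4) :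
    (M * frame X Y) a 3 = (M * (X * X)) a 0 := by
  rw [Matrix.mul_apply, Matrix.mul_apply]
  rfl

theorem nf_frame {X Y H : M4 A m} (hH : H * frame X Y = 1) :
    NF (H * X * frame X Y) (H * Y * frame X Y) := by
  have h0 : ∀ a, (H * X * frame X Y) a 0 = (1 : M4 A m) a 1 := fun a => by
    rw [mul_frame_zero, ← hH, mul_frame_one]
  have h1 : ∀ a, (H * Y * frame X Y) a 0 = (1 : M4 A m) a 2 := fun a => by
    rw [mul_frame_zero, ← hH, mul_frame_two]
  have h2 : ∀ a, (H * X * frame X Y) a 1 = (1 : M4 A m) a 3 := fun a => by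
    rw [mul_frame_one, ← hH, mul_frame_three, Matrix.mul_assoc]
  constructor
  all_goals first
    | (rw [h0]; rfl)
    | (rw [h1]; rfl)
    | (rw [h2]; rfl)

theorem entIn_mul_mul {K : Ideal A} (G C H : M4 A m) (hC : ∀ a b, EntIn K (C a b)) (a b : Fin 4) :
    EntIn K ((G * C * H) a b) := by
  have h1 : ∀ c, EntIn K ((G * C) a c) := by
    intro c
    rw [Matrix.mul_apply, Fin.sum_univ_four]
    exact ((((hC 0 c).mul_left _).add ((hC 1 c).mul_left _)).add ((hC 2 c).mul_left _)).add
      ((hC 3 c).mul_left _)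
  rw [Matrix.mul_apply, Fin.sum_univ_four]
  exact ((((h1 0).mul_right _).add ((h1 1).mul_right _)).add ((h1 2).mul_right _)).add
      ((h1 3).mul_right _)

theorem comm_eq {X Y G H : M4 A m} (hGH : G * H = 1) :
    X * Y - Y * X = G * comm4 (H * X * G) (H * Y * G) * H := by
  have key : ∀ M N : M4 A m, G * ((H * M * G) * (H * N * G)) * H = M * N := fun M N => by
    calc G * ((H * M * G) * (H * N * G)) * H = (G * H) * M * (G * H) * N * (G * H) := by
          simp only [Matrix.mul_assoc]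
      _ = M * N := by rw [hGH, Matrix.one_mul, Matrix.mul_one, Matrix.mul_one]
  rw [comm4, Matrix.mul_sub, Matrix.sub_mul, key, key]

theorem cube_mem {X Y G H : M4 A m} (hG : G = frame X Y) (hGH : G * H = 1) {Q : Ideal A}
    (hQ : ∀ a, EntIn Q ((H * X * G) a 3)) (a : Fin 4) : EntIn Q ((X * X * X) a 0) := by
  have e1 : X * G = G * (H * X * G) := by
    rw [← Matrix.mul_assoc, ← Matrix.mul_assoc, hGH, Matrix.one_mul]
  have e2 : (X * G) a 3 = (X * X * X) a 0 := by
    rw [hG, mul_frame_three, Matrix.mul_assoc]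
  rw [← e2, e1, Matrix.mul_apply, Fin.sum_univ_four]
  exact ((((hQ 0).mul_left _).add ((hQ 1).mul_left _)).add ((hQ 2).mul_left _)).add
    ((hQ 3).mul_left _)

/-- The ring equivalence with matrices on the product index. -/
theorem isUnit_of_map {F : Type v} [Field F] [IsLocalRing A] (φ : A →+* F)
    (hφ : ∀ x, x ∈ maximalIdeal A ↔ φ x = 0) (G : M4 A m)
    (hG : IsUnit ((φ.mapMatrix (m := Fin m)).mapMatrix (m := Fin 4) G)) : IsUnit G := by
  have h1 : IsUnit (Matrix.compRingEquiv (Fin 4) (Fin m) F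
      ((φ.mapMatrix (m := Fin m)).mapMatrix (m := Fin 4) G)) := hG.map _
  have h2 : Matrix.compRingEquiv (Fin 4) (Fin m) F
      ((φ.mapMatrix (m := Fin m)).mapMatrix (m := Fin 4) G) =
      φ.mapMatrix (Matrix.compRingEquiv (Fin 4) (Fin m) A G) := by
    ext ⟨a, i⟩ ⟨b, j⟩
    rfl
  rw [h2, Matrix.isUnit_iff_isUnit_det, ← RingHom.map_det] at h1
  have h3 : IsUnit (Matrix.compRingEquiv (Fin 4) (Fin m) A G).det := by
    by_contra h
    have h4 := (hφ _).1 ((IsLocalRing.mem_maximalIdeal _).2 h)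
    rw [h4] at h1
    exact not_isUnit_zero h1
  have h5 := (Matrix.isUnit_iff_isUnit_det _).2 h3
  have h6 := h5.map (Matrix.compRingEquiv (Fin 4) (Fin m) A).symm
  rwa [RingEquiv.symm_apply_apply] at h6

end

end Pool.Agent.Helper15.NC
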