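import Pool.Agent.Helper15.NC.Residue

/-!
# Generators at the special point
-/

open IsLocalRing

namespace Pool.Agent.Helper15.NC

universe u v

/-- The index set of size `4 m + 2`. -/
abbrev Ix (m : ℕ) := Fin 2 ⊕ (Fin 4 × Fin m)

/-- Index set of the first family of generators. -/
abbrev I1 (m : ℕ) := (Fin 13 × Fin m × Fin m) ⊕ ((Fin 4 × Fin 2 × (Fin 4 × Fin m)) ⊕ Fin 2)

/-- Index set of the second family of generators. -/
abbrev I2 (m : ℕ) := (Fin 5 × Fin m × Fin m) ⊕ Fin m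

section

variable {A : Type u} [CommRing A] {m : ℕ}

/-- The lower right block. -/
def blk22 (X : Matrix (Ix m) (Ix m) A) : M4 A m := fun a b i j => X (.inr (a, i)) (.inr (b, j))

theorem mul_inr_inr (X Y : Matrix (Ix m) (Ix m) A) (a b : Fin 4) (i j : Fin m) :
    (X * Y) (.inr (a, i)) (.inr (b, j)) =
      ∑ r, X (.inr (a, i)) (.inl r) * Y (.inl r) (.inr (b, j)) +
        (blk22 X * blk22 Y) a b i j := by
  rw [Matrix.mul_apply, Fintype.sum_sum_type, Matrix.mul_apply, Matrix.sum_apply,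
    Fintype.sum_prod_type]
  congr 1

/-- The entries of the off-diagonal blocks. -/
def crossEnt (X Y : Matrix (Ix m) (Ix m) A) (t : Fin 4 × Fin 2 × (Fin 4 × Fin m)) : A :=
  match t.1 with
  | 0 => X (.inl t.2.1) (.inr t.2.2)
  | 1 => X (.inr t.2.2) (.inl t.2.1)
  | 2 => Y (.inl t.2.1) (.inr t.2.2)
  | 3 => Y (.inr t.2.2) (.inl t.2.1)

/-- The first family of generators. -/
def gens1 (X Y : Matrix (Ix m) (Ix m) A) (X' Y' : M4 A m) : I1 m → A :=
  Sum.elim (fun t => genBlk X' Y' t.1 t.2.1 t.2.2)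
    (Sum.elim (crossEnt X Y) fun k => if k = 0 then (X * Y - Y * X) (.inl 0) (.inl 1)
      else (X * Y - Y * X) (.inl 1) (.inl 0))

/-- The second family of generators. -/
def gens2 (X' Y' : M4 A m) : I2 m → A :=
  Sum.elim (fun t => fiveBlk X' Y' t.1 t.2.1 t.2.2) fun i => X' 1 3 i i

theorem span_gens1 (X Y : Matrix (Ix m) (Ix m) A) (X' Y' : M4 A m) :
    entSpan (genBlk X' Y') ≤ Ideal.span (Set.range (gens1 X Y X' Y')) := by
  rw [entSpan, Ideal.span_le]
  rintro _ ⟨t, rfl⟩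
  exact Ideal.subset_span ⟨.inl t, rfl⟩

theorem span_gens2 (X' Y' : M4 A m) :
    entSpan (fiveBlk X' Y') ⊔ diagSpan X' ≤ Ideal.span (Set.range (gens2 X' Y')) := by
  refine sup_le ?_ ?_
  · rw [entSpan, Ideal.span_le]
    rintro _ ⟨t, rfl⟩
    exact Ideal.subset_span ⟨.inl t, rfl⟩
  · rw [diagSpan, Ideal.span_le]
    rintro _ ⟨i, rfl⟩
    exact Ideal.subset_span ⟨.inr i, rfl⟩

theorem comm_mem {X Y : Matrix (Ix m) (Ix m) A} {X' Y' : M4 A m} {K : Ideal A}
    (hK : Ideal.span (Set.range (gens1 X Y X' Y')) ≤ K)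
    (h22 : ∀ a b, EntIn K ((blk22 X * blk22 Y - blk22 Y * blk22 X) a b)) (s t : Ix m)
    (hst : s ≠ t) : (X * Y - Y * X) s t ∈ K := by
  have hg : ∀ k, gens1 X Y X' Y' k ∈ K := fun k => hK (Ideal.subset_span ⟨k, rfl⟩)
  have hx12 : ∀ r t, X (.inl r) (.inr t) ∈ K := fun r t => hg (.inr (.inl (0, r, t)))
  have hx21 : ∀ r t, X (.inr t) (.inl r) ∈ K := fun r t => hg (.inr (.inl (1, r, t)))
  have hy12 : ∀ r t, Y (.inl r) (.inr t) ∈ K := fun r t => hg (.inr (.inl (2, r, t)))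
  have hy21 : ∀ r t, Y (.inr t) (.inl r) ∈ K := fun r t => hg (.inr (.inl (3, r, t)))
  rcases s with r | ⟨a, i⟩ <;> rcases t with r' | ⟨b, j⟩
  · have hr : r ≠ r' := fun h => hst (by rw [h])
    have h1 : ∀ r r' : Fin 2, r ≠ r' → (r = 0 ∧ r' = 1) ∨ (r = 1 ∧ r' = 0) := by decide
    rcases h1 r r' hr with ⟨rfl, rfl⟩ | ⟨rfl, rfl⟩
    · exact hg (.inr (.inr 0))
    · exact hg (.inr (.inr 1))
  · rw [Matrix.sub_apply, Matrix.mul_apply, Matrix.mul_apply, Fintype.sum_sum_type,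
      Fintype.sum_sum_type]
    exact K.sub_mem (K.add_mem (K.sum_mem fun k _ => K.mul_mem_left _ (hy12 _ _))
      (K.sum_mem fun k _ => K.mul_mem_right _ (hx12 _ _)))
      (K.add_mem (K.sum_mem fun k _ => K.mul_mem_left _ (hx12 _ _))
      (K.sum_mem fun k _ => K.mul_mem_right _ (hy12 _ _)))
  · rw [Matrix.sub_apply, Matrix.mul_apply, Matrix.mul_apply, Fintype.sum_sum_type,
      Fintype.sum_sum_type]
    exact K.sub_mem (K.add_mem (K.sum_mem fun k _ => K.mul_mem_right _ (hx21 _ _))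
      (K.sum_mem fun k _ => K.mul_mem_left _ (hy21 _ _)))
      (K.add_mem (K.sum_mem fun k _ => K.mul_mem_right _ (hy21 _ _))
      (K.sum_mem fun k _ => K.mul_mem_left _ (hx21 _ _)))
  · have h1 : (X * Y - Y * X) (.inr (a, i)) (.inr (b, j)) =
        ∑ r, X (.inr (a, i)) (.inl r) * Y (.inl r) (.inr (b, j)) -
          ∑ r, Y (.inr (a, i)) (.inl r) * X (.inl r) (.inr (b, j)) +
        (blk22 X * blk22 Y - blk22 Y * blk22 X) a b i j := by
      rw [Matrix.sub_apply, mul_inr_inr, mul_inr_inr]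
      simp only [Matrix.sub_apply]
      ring
    rw [h1]
    exact K.add_mem (K.sub_mem (K.sum_mem fun k _ => K.mul_mem_left _ (hy12 _ _))
      (K.sum_mem fun k _ => K.mul_mem_left _ (hx12 _ _))) (h22 a b i j)

/-- The generators at the special point. -/
theorem exists_gens [IsLocalRing A] {F : Type v} [Field F] (φ : A →+* F)
    (hφ : ∀ x, x ∈ maximalIdeal A ↔ φ x = 0) (X Y : Matrix (Ix m) (Ix m) A) (D : Fin m → F)
    (hD : Function.Injective D) (hX : red φ (blk22 X) = X0 F m) (hY : red φ (blk22 Y) = Y0 D)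
    (hc : ∀ t, φ (crossEnt X Y t) = 0)
    (h01 : φ ((X * Y - Y * X) (.inl 0) (.inl 1)) = 0)
    (h10 : φ ((X * Y - Y * X) (.inl 1) (.inl 0)) = 0) :
    ∃ (b₁ : I1 m → A) (b₂ : I2 m → A), (∀ k, b₁ k ∈ maximalIdeal A) ∧
      (∀ k, b₂ k ∈ maximalIdeal A) ∧
      (∀ s t : Ix m, s ≠ t → (X * Y - Y * X) s t ∈ Ideal.span (Set.range b₁) ⊔
        (Ideal.span (Set.range b₁) ⊔ Ideal.span (Set.range b₂)) ^ 2) ∧
      ∀ Q : Ideal A, Ideal.span (Set.range b₁) ⊔ Ideal.span (Set.range b₂) ≤ Q →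
        ∀ a, EntIn Q ((blk22 X * blk22 X * blk22 X) a 0) := by
  obtain ⟨H, hGH, hHG, hsm, hoff, hu⟩ := exists_inverse φ hφ (blk22 X) (blk22 Y) D hD hX hY
  have hnf := nf_frame hHG
  set X' := H * blk22 X * frame (blk22 X) (blk22 Y) with hX'
  set Y' := H * blk22 Y * frame (blk22 X) (blk22 Y) with hY'
  have hle := small_le hnf hsm hoff hu
  have hgm : Gen (maximalIdeal A) X' Y' := gen_of_small hnf hsm
  have hb : entSpan (smallBlk X' Y') ≤ Ideal.span (Set.range (gens1 X Y X' Y')) ⊔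
      Ideal.span (Set.range (gens2 X' Y')) :=
    hle.trans (sup_le_sup (span_gens1 X Y X' Y') (span_gens2 X' Y'))
  refine ⟨gens1 X Y X' Y', gens2 X' Y', ?_, ?_, ?_, ?_⟩
  · rintro (⟨t, i, j⟩ | t | t)
    · have : ∀ t, EntIn (maximalIdeal A) (genBlk X' Y' t) := by
        intro t
        fin_cases t
        exacts [hgm.c00, hgm.c10, hgm.c20, hgm.c30, hgm.c11, hgm.c21, hgm.c31, hgm.c12, hgm.c22,
          hgm.c32, hgm.c13, hgm.c23, hgm.c33]
      exact this t i j
    · exact (hφ _).2 (hc t)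
    · show (if t = 0 then (X * Y - Y * X) (.inl 0) (.inl 1)
        else (X * Y - Y * X) (.inl 1) (.inl 0)) ∈ maximalIdeal A
      split_ifs
      · exact (hφ _).2 h01
      · exact (hφ _).2 h10
  · rintro (⟨t, i, j⟩ | i)
    · have : ∀ t, EntIn (maximalIdeal A) (fiveBlk X' Y' t) := by
        intro t
        fin_cases t
        exacts [hsm.y11, hsm.y21, hsm.y22, hsm.x23, hsm.x33]
      exact this t i j
    · exact hsm.x13 i i
  · intro s t hst
    refine comm_mem (X' := X') (Y' := Y') le_sup_left ?_ s t hst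
    intro a b
    rw [comm_eq (X := blk22 X) (Y := blk22 Y) hGH]
    apply entIn_mul_mul
    intro c d
    refine all_comm_mem hnf (small_entSpan X' Y') ?_ ?_ c d
    · have : ∀ t, EntIn (Ideal.span (Set.range (gens1 X Y X' Y')) ⊔
          (Ideal.span (Set.range (gens1 X Y X' Y')) ⊔ Ideal.span (Set.range (gens2 X' Y'))) ^ 2)
          (genBlk X' Y' t) := fun t =>
        (entIn_entSpan (genBlk X' Y') t).mono ((span_gens1 X Y X' Y').trans le_sup_left)
      exact ⟨this 0, this 1, this 2, this 3, this 4, this 5, this 6, this 7, this 8, this 9,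
        this 10, this 11, this 12⟩
    · rw [← pow_two]
      exact (Ideal.pow_right_mono hb 2).trans le_sup_right
  · intro Q hQ a
    have hs : Small Q X' Y' := by
      have h1 := small_entSpan X' Y'
      have h2 := hb.trans hQ
      exact ⟨h1.x02.mono h2, h1.x12.mono h2, h1.x22.mono h2, h1.x03.mono h2, h1.x13.mono h2,
        h1.x23.mono h2, h1.x33.mono h2, h1.y01.mono h2, h1.y11.mono h2, h1.y21.mono h2,
        h1.y31.mono h2, h1.y02.mono h2, h1.y12.mono h2, h1.y22.mono h2, h1.y03.mono h2,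
        h1.y13.mono h2, h1.y23.mono h2, h1.y33.mono h2⟩
    refine cube_mem (G := frame (blk22 X) (blk22 Y)) rfl hGH ?_ a
    intro c
    match c with
    | 0 => exact hs.x03
    | 1 => exact hs.x13
    | 2 => exact hs.x23
    | 3 => exact hs.x33

end

end Pool.Agent.Helper15.NC
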