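import Pool.Agent.Helper15.NC.CA2

/-!
# Generic reducedness from a Jacobian matrix
-/

open IsLocalRing

namespace Pool.Agent.Helper15.NC

universe u

/-- A derivation maps the square of an ideal into the ideal. -/
theorem derivation_sq_mem {K : Type*} [CommRing K] {R : Type u} [CommRing R] [Algebra K R]
    (D : Derivation K R R) (I : Ideal R) {x : R}
    (hx : x ∈ I ^ 2) : D x ∈ I := by
  rw [pow_two] at hx
  refine Submodule.mul_induction_on hx ?_ ?_
  · intro a ha b hb
    rw [Derivation.leibniz, smul_eq_mul, smul_eq_mul]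
    exact I.add_mem (I.mul_mem_right _ ha) (I.mul_mem_right _ hb)
  · intro a b ha hb
    rw [map_add]
    exact I.add_mem ha hb

/-- The elementary form of the Jacobian criterion. -/
theorem coeff_mem_of_jacobian {K : Type*} [CommRing K] {R : Type u} [CommRing R] [Algebra K R]
    (Q : Ideal R) [Q.IsPrime] {C : ℕ}
    (f : Fin C → R) (hf : ∀ k, f k ∈ Q) (D : Fin C → Derivation K R R)
    (hdet : (Matrix.of fun k l => D l (f k)).det ∉ Q) (r : Fin C → R) (t : R) (ht : t ∉ Q)
    (h : t * ∑ k, r k * f k ∈ Q ^ 2) (k : Fin C) : r k ∈ Q := by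
  have h1 : ∀ l, ∑ k, r k * D l (f k) ∈ Q := by
    intro l
    have h2 := derivation_sq_mem (D l) Q h
    rw [Derivation.leibniz, map_sum] at h2
    have h3 : (∑ k, r k * f k) • D l t ∈ Q := by
      rw [smul_eq_mul]
      exact Q.mul_mem_right _ (Q.sum_mem fun k _ => Q.mul_mem_left _ (hf k))
    have h4 := (Ideal.add_mem_iff_left Q h3).1 h2
    rw [smul_eq_mul] at h4
    have h5 := ((inferInstance : Q.IsPrime).mem_or_mem h4).resolve_left ht
    have h6 : ∑ k, D l (r k * f k) = ∑ k, r k * D l (f k) + ∑ k, f k * D l (r k) := by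
      rw [← Finset.sum_add_distrib]
      refine Finset.sum_congr rfl fun k _ => ?_
      rw [Derivation.leibniz, smul_eq_mul, smul_eq_mul]
    rw [h6] at h5
    exact (Ideal.add_mem_iff_left Q (Q.sum_mem fun k _ => Q.mul_mem_right _ (hf k))).1 h5
  set M : Matrix (Fin C) (Fin C) R := Matrix.of fun k l => D l (f k) with hM
  have h2 : ∀ l, (Matrix.vecMul r M) l ∈ Q := by
    intro l
    exact h1 l
  have h3 : (Matrix.vecMul (Matrix.vecMul r M) M.adjugate) k ∈ Q := by
    rw [Matrix.vecMul, dotProduct]
    exact Q.sum_mem fun l _ => Q.mul_mem_right _ (h2 l)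
  rw [Matrix.vecMul_vecMul, Matrix.mul_adjugate, Matrix.vecMul_smul, Matrix.vecMul_one,
    Pi.smul_apply, smul_eq_mul] at h3
  exact ((inferInstance : Q.IsPrime).mem_or_mem h3).resolve_left hdet

/-- Generic reducedness and height. -/
theorem generic_of_jacobian {K : Type*} [CommRing K] {R : Type u} [CommRing R] [Algebra K R]
    [IsRegularRing R] (n : Ideal R) [n.IsPrime]
    (Q : Ideal (Localization.AtPrime n)) [Q.IsPrime] {C : ℕ} (f : Fin C → R)
    (hf : ∀ k, algebraMap R (Localization.AtPrime n) (f k) ∈ Q) (D : Fin C → Derivation K R R)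
    (hdet : algebraMap R (Localization.AtPrime n) (Matrix.of fun k l => D l (f k)).det ∉ Q)
    (hrad : Q ≤ (Ideal.span (Set.range fun k =>
      algebraMap R (Localization.AtPrime n) (f k))).radical) :
    (C : ℕ∞) ≤ Q.height ∧ ∃ w, w ∉ Q ∧ ∀ z ∈ Q, w * z ∈ Ideal.span (Set.range fun k =>
      algebraMap R (Localization.AtPrime n) (f k)) := by
  classical
  set A := Localization.AtPrime n with hA
  set B := Localization.AtPrime Q with hB
  set J : Ideal A := Ideal.span (Set.range fun k => algebraMap R A (f k)) with hJ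
  have : IsRegularRing A := isRegularRing_localization R n
  have : IsRegularLocalRing B := inferInstance
  have hloc : IsLocalization.AtPrime B (Q.under R) :=
    IsLocalization.isLocalization_isLocalization_atPrime_isLocalization n.primeCompl B Q
  have hmax : (Q.under R).map (algebraMap R B) = maximalIdeal B :=
    IsLocalization.AtPrime.map_eq_maximalIdeal (Q.under R) B
  have hmem : ∀ x : R, algebraMap R B x ∈ maximalIdeal B ↔ x ∈ Q.under R := fun x =>
    IsLocalization.AtPrime.to_map_mem_maximal_iff B (Q.under R) x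
  have hfR : ∀ k, f k ∈ Q.under R := fun k => hf k
  have key := isPrime_span_of_indep (fun k => algebraMap R B (f k))
    (fun k => (hmem _).2 (hfR k)) (by
      intro r hr k
      obtain ⟨⟨b, hb⟩, hbr⟩ := IsLocalization.exist_integer_multiples_of_finset
        (Q.under R).primeCompl (Finset.univ.image r)
      have hbr' : ∀ k, ∃ r' : R, algebraMap R B r' = b • r k := by
        intro k
        obtain ⟨r', hr'⟩ := hbr (r k) (Finset.mem_image_of_mem _ (Finset.mem_univ k))
        exact ⟨r', hr'⟩
      choose r' hr' using hbr'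
      have h1 : algebraMap R B (∑ k, r' k * f k) ∈
          ((Q.under R) ^ 2).map (algebraMap R B) := by
        rw [Ideal.map_pow, hmax, map_sum]
        have : ∑ k, algebraMap R B (r' k * f k) = algebraMap R B b *
            ∑ k, r k * algebraMap R B (f k) := by
          rw [Finset.mul_sum]
          refine Finset.sum_congr rfl fun k _ => ?_
          rw [map_mul, hr', Algebra.smul_def, mul_assoc]
        rw [this]
        exact Ideal.mul_mem_left _ _ hr
      rw [IsLocalization.algebraMap_mem_map_algebraMap_iff (Q.under R).primeCompl] at h1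
      obtain ⟨t, ht, ht2⟩ := h1
      have h2 := coeff_mem_of_jacobian (Q.under R) f hfR D hdet r' t ht ht2 k
      rw [← hmem, hr', Algebra.smul_def] at h2
      refine ((maximalIdeal.isMaximal B).isPrime.mem_or_mem h2).resolve_left ?_
      rw [hmem]
      exact hb)
  obtain ⟨hprime, hdim⟩ := key
  refine ⟨?_, ?_⟩
  · rw [IsLocalization.AtPrime.ringKrullDim_eq_height Q B] at hdim
    exact_mod_cast hdim
  · have hJB : J.map (algebraMap A B) = Ideal.span (Set.range fun k => algebraMap R B (f k)) := by
      rw [hJ, Ideal.map_span, ← Set.range_comp]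
      rfl
    have hQJ : Q ≤ (J.map (algebraMap A B)).comap (algebraMap A B) := by
      intro z hz
      obtain ⟨k, hk⟩ := hrad hz
      rw [Ideal.mem_comap]
      have h1 : (algebraMap A B z) ^ k ∈ J.map (algebraMap A B) := by
        rw [← map_pow]
        exact Ideal.mem_map_of_mem _ hk
      rw [hJB] at h1 ⊢
      exact hprime.mem_of_pow_mem _ h1
    have h2 : ∀ z ∈ Q, ∃ w, w ∉ Q ∧ w * z ∈ J := by
      intro z hz
      have h3 := hQJ hz
      rw [Ideal.mem_comap, IsLocalization.algebraMap_mem_map_algebraMap_iff Q.primeCompl] at h3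
      obtain ⟨w, hw, hwz⟩ := h3
      exact ⟨w, hw, hwz⟩
    obtain ⟨s, hs⟩ : Q.FG := IsNoetherian.noetherian Q
    have h3 : ∀ z : s, ∃ w, w ∉ Q ∧ w * z.1 ∈ J := fun z =>
      h2 z.1 (by rw [← hs]; exact Ideal.subset_span z.2)
    choose w hw hwJ using h3
    refine ⟨∏ z, w z, ?_, ?_⟩
    · intro h
      rw [Ideal.IsPrime.prod_mem_iff] at h
      obtain ⟨z, -, hz⟩ := h
      exact hw z hz
    · intro z hz
      rw [← hs] at hz
      refine Submodule.span_induction (p := fun z _ => (∏ z, w z) * z ∈ J) ?_ ?_ ?_ ?_ hz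
      · intro x hx
        have h4 := Finset.mul_prod_erase Finset.univ w (Finset.mem_univ (⟨x, hx⟩ : s))
        rw [← h4, mul_comm (w _), mul_assoc]
        exact Ideal.mul_mem_left _ _ (hwJ ⟨x, hx⟩)
      · rw [mul_zero]; exact Ideal.zero_mem _
      · intro x y _ _ hx hy
        rw [mul_add]; exact Ideal.add_mem _ hx hy
      · intro c x _ hx
        rw [smul_eq_mul, mul_left_comm]
        exact Ideal.mul_mem_left _ _ hx

end Pool.Agent.Helper15.NC
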