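import Pool.Agent.Helper15.NC.Defs
import Pool.Agent.Helper15.NC.FullMat

/-!
# The Jacobian matrix
-/

namespace Pool.Agent.Helper15.NC

universe u v

/-- A triangularity criterion for a nonzero determinant. -/
theorem det_ne_zero_of_weight {ι : Type*} [Fintype ι] [DecidableEq ι] {D : Type*} [CommRing D]
    [IsDomain D] (M : Matrix ι ι D) (w : ι → ℕ) (hd : ∀ i, M i i ≠ 0)
    (hw : ∀ i j, i ≠ j → M i j ≠ 0 → w j < w i) : M.det ≠ 0 := by
  intro hdet
  obtain ⟨v, hv, hMv⟩ := Matrix.exists_mulVec_eq_zero_iff.2 hdet
  apply hv
  have key : ∀ n i, w i = n → v i = 0 := by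
    intro n
    induction n using Nat.strong_induction_on with
    | _ n ih =>
      intro i hi
      have h1 : (M.mulVec v) i = 0 := by rw [hMv]; rfl
      rw [Matrix.mulVec, dotProduct, ← Finset.add_sum_erase _ _ (Finset.mem_univ i)] at h1
      have h2 : ∑ j ∈ Finset.univ.erase i, M i j * v j = 0 := by
        apply Finset.sum_eq_zero
        intro j hj
        have hij : i ≠ j := (Finset.ne_of_mem_erase hj).symm
        by_cases hM : M i j = 0
        · rw [hM, zero_mul]
        · rw [ih (w j) (by rw [← hi]; exact hw i j hij hM) j rfl, mul_zero]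
      rw [h2, add_zero] at h1
      exact (mul_eq_zero.1 h1).resolve_left (hd i)
  funext i
  exact key _ i rfl

/-- Off-diagonal positions. -/
abbrev Off (m : ℕ) := {st : Ix m × Ix m // st.1 ≠ st.2}

/-- The variable attached to an off-diagonal position. -/
def jvar {m : ℕ} (t : Off m) : Bool × Ix m × Ix m :=
  if t.1 = (.inl 0, .inl 1) then (true, .inl 1, .inl 1)
  else if t.1 = (.inl 1, .inl 0) then (false, .inl 1, .inl 1)
  else (true, t.1)

section

variable (K : Type u) [Field K] {m n : ℕ} (e : Ix m ≃ Fin n)

/-- Reindexed variable. -/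
noncomputable def rvar (b : Bool) (s t : Ix m) : PairRing K n := MvPolynomial.X (b, e s, e t)

/-- The reindexed commutator. -/
theorem commEntry_reindex (s t : Ix m) : commEntry K n (e s) (e t) =
    ∑ w, rvar K e false s w * rvar K e true w t - ∑ w, rvar K e true s w * rvar K e false w t := by
  rw [commEntry, Matrix.sub_apply, Matrix.mul_apply, Matrix.mul_apply, ← e.sum_comp,
    ← e.sum_comp]
  rfl

theorem pderiv_rvar (b c : Bool) (k l s t : Ix m) :
    MvPolynomial.pderiv (b, e k, e l) (rvar K e c s t) =
      if c = b ∧ s = k ∧ t = l then 1 else 0 := by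
  rw [rvar, MvPolynomial.pderiv_X, Pi.single_apply]
  congr 1
  simp only [Prod.mk.injEq, EmbeddingLike.apply_eq_iff_eq]

theorem pderiv_true (k l s t : Ix m) :
    MvPolynomial.pderiv (true, e k, e l) (commEntry K n (e s) (e t)) =
      (if t = l then rvar K e false s k else 0) - (if s = k then rvar K e false l t else 0) := by
  rw [commEntry_reindex, map_sub, map_sum, map_sum]
  congr 1
  · simp only [Derivation.leibniz, pderiv_rvar, smul_eq_mul]
    by_cases h : t = l
    · rw [if_pos h]
      simp [h]
    · simp [h]
  · simp only [Derivation.leibniz, pderiv_rvar, smul_eq_mul]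
    by_cases h : s = k
    · rw [if_pos h]
      simp [h]
    · simp [h]

theorem pderiv_false (k l s t : Ix m) :
    MvPolynomial.pderiv (false, e k, e l) (commEntry K n (e s) (e t)) =
      (if s = k then rvar K e true l t else 0) - (if t = l then rvar K e true s k else 0) := by
  rw [commEntry_reindex, map_sub, map_sum, map_sum]
  congr 1
  · simp only [Derivation.leibniz, pderiv_rvar, smul_eq_mul]
    by_cases h : s = k
    · rw [if_pos h]
      simp [h]
    · simp [h]
  · simp only [Derivation.leibniz, pderiv_rvar, smul_eq_mul]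
    by_cases h : t = l
    · rw [if_pos h]
      simp [h]
    · simp [h]

/-- The Jacobian matrix. -/
noncomputable def jac : Matrix (Off m) (Off m) (PairRing K n) := fun s t =>
  MvPolynomial.pderiv ((jvar t).1, e (jvar t).2.1, e (jvar t).2.2)
    (commEntry K n (e s.1.1) (e s.1.2))

end

end Pool.Agent.Helper15.NC
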