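import Pool.Agent.Helper15.NC.Jac

/-!
# The Jacobian determinant along a triangular pair
-/

namespace Pool.Agent.Helper15.NC

universe u v

/-- A triangular pair. -/
structure Tri {D : Type u} [CommRing D] {m : ℕ} (X Y : Matrix (Ix m) (Ix m) D) (h : Ix m → ℕ) :
    Prop where
  bound : ∀ s, h s ≤ 3
  tri : ∀ s k, X s k ≠ 0 → s = k ∨ h k < h s
  diag : ∀ s t, s ≠ t → ¬ (s.isLeft ∧ t.isLeft) → X s s ≠ X t t
  xr1 : ∀ t, X (.inl 1) t = 0
  xc1 : ∀ s, X s (.inl 1) ≠ 0 → s = .inl 0
  x01 : X (.inl 0) (.inl 1) ≠ 0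
  xc0 : ∀ s, X s (.inl 0) = 0
  yr1 : ∀ t, Y (.inl 1) t ≠ 0 → t = .inl 0
  y10 : Y (.inl 1) (.inl 0) ≠ 0
  yc1 : ∀ s, Y s (.inl 1) = 0

/-- Values of the Jacobian matrix. -/
def jacval {D : Type u} [CommRing D] {m : ℕ} (X Y : Matrix (Ix m) (Ix m) D) :
    Matrix (Off m) (Off m) D := fun s t =>
  if t.1 = (.inl 0, .inl 1) then
    (if s.1.2 = .inl 1 then X s.1.1 (.inl 1) else 0) -
      (if s.1.1 = .inl 1 then X (.inl 1) s.1.2 else 0)
  else if t.1 = (.inl 1, .inl 0) then
    (if s.1.1 = .inl 1 then Y (.inl 1) s.1.2 else 0) -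
      (if s.1.2 = .inl 1 then Y s.1.1 (.inl 1) else 0)
  else (if s.1.2 = t.1.2 then X s.1.1 t.1.1 else 0) -
      (if s.1.1 = t.1.1 then X t.1.2 s.1.2 else 0)

theorem fin_two_cases (r : Fin 2) : r = 0 ∨ r = 1 := by
  revert r; decide

theorem off_inl {m : ℕ} (t : Off m) (h1 : t.1.1.isLeft) (h2 : t.1.2.isLeft) :
    t.1 = (.inl 0, .inl 1) ∨ t.1 = (.inl 1, .inl 0) := by
  obtain ⟨⟨s, t⟩, hst⟩ := t
  rcases s with s | s <;> rcases t with t | t
  · rcases fin_two_cases s with rfl | rfl <;> rcases fin_two_cases t with rfl | rfl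
    · exact absurd rfl hst
    · exact Or.inl rfl
    · exact Or.inr rfl
    · exact absurd rfl hst
  all_goals simp at h1 h2

theorem jacval_det_ne_zero {D : Type u} [CommRing D] [IsDomain D] {m : ℕ}
    {X Y : Matrix (Ix m) (Ix m) D} {h : Ix m → ℕ} (H : Tri X Y h) : (jacval X Y).det ≠ 0 := by
  have hxd : ∀ r : Fin 2, X (.inl r) (.inl r) = 0 := by
    intro r
    rcases fin_two_cases r with rfl | rfl
    · exact H.xc0 _
    · exact H.xr1 _
  apply det_ne_zero_of_weight _ (fun s => h s.1.1 + (3 - h s.1.2))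
  · intro s
    by_cases h1 : s.1 = (.inl 0, .inl 1)
    · rw [jacval, if_pos h1, h1]
      simpa using H.x01
    · by_cases h2 : s.1 = (.inl 1, .inl 0)
      · rw [jacval, if_neg h1, if_pos h2, h2]
        simpa using H.y10
      · rw [jacval, if_neg h1, if_neg h2, if_pos rfl, if_pos rfl, sub_ne_zero]
        apply H.diag _ _ s.2
        rintro ⟨h3, h4⟩
        rcases off_inl s h3 h4 with h5 | h5
        · exact h1 h5
        · exact h2 h5
  · intro s t hst hM
    have hst' : s.1 ≠ t.1 := fun h => hst (Subtype.ext h)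
    by_cases h1 : t.1 = (.inl 0, .inl 1)
    · exfalso
      rw [jacval, if_pos h1] at hM
      apply hM
      have e1 : (if s.1.1 = .inl 1 then X (.inl 1) s.1.2 else 0) = 0 := by
        split_ifs
        · exact H.xr1 _
        · rfl
      rw [e1, sub_zero]
      split_ifs with h2
      · by_contra h3
        apply hst'
        rw [h1, ← H.xc1 _ h3, ← h2]
      · rfl
    · by_cases h2 : t.1 = (.inl 1, .inl 0)
      · exfalso
        rw [jacval, if_neg h1, if_pos h2] at hM
        apply hM
        have e1 : (if s.1.2 = .inl 1 then Y s.1.1 (.inl 1) else 0) = 0 := by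
          split_ifs
          · exact H.yc1 _
          · rfl
        rw [e1, sub_zero]
        split_ifs with h3
        · by_contra h4
          apply hst'
          rw [h2, ← H.yr1 _ h4, ← h3]
        · rfl
      · have hgen : (if s.1.2 = t.1.2 then X s.1.1 t.1.1 else 0) -
            (if s.1.1 = t.1.1 then X t.1.2 s.1.2 else 0) ≠ 0 := by
          rwa [jacval, if_neg h1, if_neg h2] at hM
        have hb := H.bound
        by_cases h3 : s.1.2 = t.1.2
        · have h4 : s.1.1 ≠ t.1.1 := fun h4 => hst' (Prod.ext h4 h3)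
          rw [if_pos h3, if_neg h4, sub_zero] at hgen
          have h5 := (H.tri _ _ hgen).resolve_left h4
          rw [h3]
          omega
        · rw [if_neg h3, zero_sub, neg_ne_zero] at hgen
          by_cases h4 : s.1.1 = t.1.1
          · rw [if_pos h4] at hgen
            have h5 := (H.tri _ _ hgen).resolve_left (fun h => h3 h.symm)
            rw [h4]
            have := hb t.1.2
            have := hb s.1.2
            omega
          · rw [if_neg h4] at hgen
            exact absurd rfl hgen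

theorem map_jac (K : Type u) [Field K] {m n : ℕ} (e : Ix m ≃ Fin n) {D : Type v} [CommRing D]
    (θ : PairRing K n →+* D) (X Y : Matrix (Ix m) (Ix m) D)
    (hX : ∀ s t, θ (rvar K e false s t) = X s t) (hY : ∀ s t, θ (rvar K e true s t) = Y s t) :
    θ.mapMatrix (jac K e) = jacval X Y := by
  ext s t
  show θ (jac K e s t) = _
  rw [jac, jacval, jvar]
  by_cases h1 : t.1 = (.inl 0, .inl 1)
  · rw [if_pos h1, if_pos h1, pderiv_true, map_sub, apply_ite θ, apply_ite θ, map_zero, hX, hX]
  · rw [if_neg h1, if_neg h1]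
    by_cases h2 : t.1 = (.inl 1, .inl 0)
    · rw [if_pos h2, if_pos h2, pderiv_false, map_sub, apply_ite θ, apply_ite θ, map_zero, hY, hY]
    · rw [if_neg h2, if_neg h2, pderiv_true, map_sub, apply_ite θ, apply_ite θ, map_zero, hX, hX]

end Pool.Agent.Helper15.NC
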