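import Pool.Agent.Helper15.NC.TightDomain

open IsLocalRing

namespace Pool.Agent.Helper15.NC

universe u

theorem tightClosure_comap_equiv {S S' : Type u} [CommRing S] [CommRing S'] (p : ℕ)
    (e : S ≃+* S') (a : Ideal S') (z : S') (hz : z ∈ tightClosure p a) :
    e.symm z ∈ tightClosure p (a.comap (e : S →+* S')) := by
  obtain ⟨c, hc, e₀, he⟩ := hz
  refine ⟨e.symm c, fun q hq hcq => ?_, e₀, fun k hk => ?_⟩
  · have hqp := hq.1.1
    refine hc (q.comap (e.symm : S' →+* S)) ⟨⟨Ideal.comap_isPrime _ _, bot_le⟩, ?_⟩ hcq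
    rintro q' ⟨hq', -⟩ hle
    have h1 : q ≤ q'.comap (e : S →+* S') := by
      apply hq.2 ⟨Ideal.comap_isPrime _ _, bot_le⟩
      intro x hx
      have : e x ∈ q' := hx
      have h2 := hle this
      simpa using h2
    intro x hx
    have hx' : e.symm x ∈ q := hx
    have h2 : e (e.symm x) ∈ q' := h1 hx'
    rwa [RingEquiv.apply_symm_apply] at h2
  · have h1 := he k hk
    have h2 : frobPow (p ^ k) a ≤
        (frobPow (p ^ k) (a.comap (e : S →+* S'))).comap (e.symm : S' →+* S) := by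
      rw [frobPow, Ideal.span_le]
      rintro _ ⟨x, hx, rfl⟩
      show e.symm (x ^ (p ^ k)) ∈ frobPow (p ^ k) (a.comap (e : S →+* S'))
      rw [map_pow]
      apply pow_mem_frobPow
      show e (e.symm x) ∈ a
      rw [RingEquiv.apply_symm_apply]
      exact hx
    have h3 := h2 h1
    have h4 : e.symm (c * z ^ p ^ k) ∈ frobPow (p ^ k) (a.comap (e : S →+* S')) := h3
    rwa [map_mul, map_pow] at h4

theorem tight_of_fregular {R : Type u} [CommRing R] (p : ℕ) (Q n : Ideal R) [n.IsPrime]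
    (h : FRegular p (R ⧸ Q))
    (a : Ideal (Localization.AtPrime n ⧸ Q.map (algebraMap R (Localization.AtPrime n)))) :
    tightClosure p a ⊆ a := by
  let W : Submonoid (R ⧸ Q) := Algebra.algebraMapSubmonoid (R ⧸ Q) n.primeCompl
  let e : Localization W ≃ₐ[R ⧸ Q]
      (Localization.AtPrime n ⧸ Q.map (algebraMap R (Localization.AtPrime n))) :=
    IsLocalization.algEquiv W _ _
  intro z hz
  have h1 := tightClosure_comap_equiv p e.toRingEquiv a z hz
  rw [h W] at h1
  have h2 : e (e.symm z) ∈ a := h1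
  rwa [AlgEquiv.apply_symm_apply] at h2

/-- The form in which F-regularity is used. -/
theorem tight_mod {A : Type u} [CommRing A] (p : ℕ) (Q : Ideal A)
    [Q.IsPrime] (h : ∀ a : Ideal (A ⧸ Q), tightClosure p a ⊆ a) (a : Ideal A) (z w : A)
    (hw : w ∉ Q) (hz : ∀ e : ℕ, w * z ^ (p ^ e) ∈ frobPow (p ^ e) a ⊔ Q) : z ∈ a ⊔ Q := by
  have h1 : Ideal.Quotient.mk Q z ∈ tightClosure p (a.map (Ideal.Quotient.mk Q)) := by
    refine ⟨Ideal.Quotient.mk Q w, fun q hq hwq => ?_, 0, fun e _ => ?_⟩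
    · have : q ≤ ⊥ := hq.2 ⟨Ideal.isPrime_bot, bot_le⟩ bot_le
      have h2 := this hwq
      rw [Ideal.mem_bot, Ideal.Quotient.eq_zero_iff_mem] at h2
      exact hw h2
    · obtain ⟨u, hu, v, hv, huv⟩ := Submodule.mem_sup.1 (hz e)
      rw [← map_pow, ← map_mul, ← huv, map_add, Ideal.Quotient.eq_zero_iff_mem.2 hv, add_zero]
      have h2 : frobPow (p ^ e) a ≤
          (frobPow (p ^ e) (a.map (Ideal.Quotient.mk Q))).comap (Ideal.Quotient.mk Q) := by
        rw [frobPow, Ideal.span_le]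
        rintro _ ⟨x, hx, rfl⟩
        show Ideal.Quotient.mk Q (x ^ (p ^ e)) ∈
          frobPow (p ^ e) (a.map (Ideal.Quotient.mk Q))
        rw [map_pow]
        exact pow_mem_frobPow _ (Ideal.mem_map_of_mem _ hx)
      exact h2 hu
  have h2 := h _ h1
  have h3 : z ∈ (a.map (Ideal.Quotient.mk Q)).comap (Ideal.Quotient.mk Q) := h2
  rw [Ideal.comap_map_of_surjective _ Ideal.Quotient.mk_surjective] at h3
  rwa [← RingHom.ker, Ideal.mk_ker] at h3

end Pool.Agent.Helper15.NC
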