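import Pool.Agent.Helper15.NC.Special

/-!
# The skew component of the nearly commuting variety is not F-regular
-/

open IsLocalRing

namespace Pool.Agent.Helper15.NC

universe u v

theorem exists_params (F : Type u) [Field F] [Infinite F] (m : ℕ) :
    ∃ (δ : Fin 4 → Fin m → F) (c : Fin m → F), (∀ a i, δ a i ≠ 0) ∧
      (∀ a b i j, δ a i = δ b j → a = b ∧ i = j) ∧ Function.Injective c := by
  have h1 : ∀ (T : Type) [Fintype T], ∃ f : T → F, Function.Injective f := fun T _ =>
    ⟨fun t => Infinite.natEmbedding F (Fintype.equivFin T t : Fin (Fintype.card T)), fun a b h => by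
      have h2 := (Infinite.natEmbedding F).injective h
      exact (Fintype.equivFin T).injective (Fin.ext h2)⟩
  obtain ⟨f, hf⟩ := h1 (Option (Fin 4 × Fin m))
  obtain ⟨c, hc⟩ := h1 (Fin m)
  refine ⟨fun a i => f (some (a, i)) - f none, c, fun a i h => ?_, fun a b i j h => ?_, hc⟩
  · have := hf (sub_eq_zero.1 h)
    exact absurd this (by simp)
  · have := hf (sub_left_injective h)
    simpa using this

/-- A multiple of an element of the skew ideal lies in the radical. -/
theorem mul_mem_radical (K : Type u) [Field K] {n : ℕ} (z : PairRing K n)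
    (hz : z ∈ skewIdeal K n) (i : Fin n) :
    commEntry K n i i * z ∈ (nearlyCommutingIdeal K n).radical := by
  rw [← Ideal.sInf_minimalPrimes, Ideal.mem_sInf]
  intro q hq
  by_cases hqP : q = commutingPrime K n
  · rw [hqP]
    exact Ideal.mul_mem_right _ _ (Ideal.le_radical (Ideal.subset_span ⟨i, i, rfl⟩))
  · exact Ideal.mul_mem_left _ _ ((Ideal.mem_sInf.1 hz) ⟨hq, hqP⟩)

theorem skewIdeal_le (K : Type u) [Field K] {n : ℕ} (N : Ideal (PairRing K n)) [N.IsPrime]
    (hI : nearlyCommutingIdeal K n ≤ N) (i : Fin n) (hi : commEntry K n i i ∉ N) :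
    skewIdeal K n ≤ N := fun z hz =>
  ((inferInstance : N.IsPrime).mem_or_mem
    ((inferInstance : N.IsPrime).radical_le_iff.2 hI (mul_mem_radical K z hz i))).resolve_left hi

theorem card_off (m : ℕ) : Fintype.card (Off m) + (4 * m + 2) = (4 * m + 2) * (4 * m + 2) := by
  classical
  have h1 : Fintype.card (Ix m) = 4 * m + 2 := by
    simp [Fintype.card_sum, add_comm]
  have h2 : Fintype.card (Off m) = (Finset.univ : Finset (Ix m)).offDiag.card := by
    rw [Fintype.card_subtype]
    congr 1
    ext st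
    simp
  rw [h2, Finset.offDiag_card, Finset.card_univ, h1]
  have : 4 * m + 2 ≤ (4 * m + 2) * (4 * m + 2) := Nat.le_mul_self _
  omega

theorem card_numerics (m : ℕ) (hm : 41 ≤ m) :
    Fintype.card (I1 m) + Fintype.card (I2 m) + Fintype.card (I1 m) ≤
      2 * Fintype.card (Off m) := by
  have h1 := card_off m
  have h2 : Fintype.card (I1 m) = 13 * (m * m) + (32 * m + 2) := by
    simp [Fintype.card_sum, Fintype.card_prod]
    ring
  have h3 : Fintype.card (I2 m) = 5 * (m * m) + m := by
    simp [Fintype.card_sum, Fintype.card_prod]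
  have h4 : (4 * m + 2) * (4 * m + 2) = 16 * (m * m) + 16 * m + 4 := by ring
  have h5 : 41 * m ≤ m * m := Nat.mul_le_mul_right m hm
  rw [h2, h3]
  rw [h4] at h1
  omega

section

variable (K : Type u) [Field K] (F : Type v) [Field F] [Algebra K F] {m n : ℕ}
  (e : Ix m ≃ Fin n) (δ : Fin 4 → Fin m → F) (c : Fin m → F)

/-- The point. -/
noncomputable def ptIdeal : Ideal (PairRing K n) :=
  RingHom.ker ((PowerSeries.constantCoeff (R := F)).comp (theta K F e δ c))

instance : (ptIdeal K F e δ c).IsPrime := RingHom.ker_isPrime _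

theorem mem_ptIdeal (r : PairRing K n) :
    r ∈ ptIdeal K F e δ c ↔ PowerSeries.constantCoeff (theta K F e δ c r) = 0 := Iff.rfl

theorem nearly_le_ptIdeal : nearlyCommutingIdeal K n ≤ ptIdeal K F e δ c := fun r hr => by
  have : theta K F e δ c r = 0 := theta_nearly K F e δ c hr
  rw [mem_ptIdeal, this, map_zero]

theorem comm_notMem_ptIdeal : commEntry K n (e (.inl 0)) (e (.inl 0)) ∉ ptIdeal K F e δ c := by
  rw [mem_ptIdeal, theta_diag, map_one]
  exact one_ne_zero

theorem skew_le_ptIdeal : skewIdeal K n ≤ ptIdeal K F e δ c :=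
  skewIdeal_le K _ (nearly_le_ptIdeal K F e δ c) _ (comm_notMem_ptIdeal K F e δ c)

theorem skew_le_ker : skewIdeal K n ≤ RingHom.ker (theta K F e δ c) := by
  have := RingHom.ker_isPrime (theta K F e δ c)
  refine skewIdeal_le K _ (theta_nearly K F e δ c) (e (.inl 0)) ?_
  rw [RingHom.mem_ker, theta_diag]
  exact one_ne_zero

/-- The off-diagonal commutator entries. -/
noncomputable def offFam (g : Fin (Fintype.card (Off m)) ≃ Off m) :
    Fin (Fintype.card (Off m)) → PairRing K n :=
  fun k => commEntry K n (e (g k).1.1) (e (g k).1.2)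

theorem offFam_mem (g : Fin (Fintype.card (Off m)) ≃ Off m) (k : Fin (Fintype.card (Off m))) :
    offFam K e g k ∈ nearlyCommutingIdeal K n :=
  Ideal.subset_span ⟨_, _, fun h => (g k).2 (e.injective h), rfl⟩

theorem nearly_le_offFam (g : Fin (Fintype.card (Off m)) ≃ Off m) :
    nearlyCommutingIdeal K n ≤ Ideal.span (Set.range (offFam K e g)) := by
  rw [nearlyCommutingIdeal, Ideal.span_le]
  rintro _ ⟨i, j, hij, rfl⟩
  refine Ideal.subset_span ⟨g.symm ⟨(e.symm i, e.symm j), fun h => hij (e.symm.injective h)⟩, ?_⟩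
  rw [offFam, Equiv.apply_symm_apply, Equiv.apply_symm_apply, Equiv.apply_symm_apply]

theorem det_offFam (g : Fin (Fintype.card (Off m)) ≃ Off m) :
    (Matrix.of fun k l => MvPolynomial.pderiv ((jvar (g l)).1, e (jvar (g l)).2.1,
      e (jvar (g l)).2.2) (offFam K e g k)).det = (jac K e).det := by
  classical
  rw [← Matrix.det_submatrix_equiv_self g (jac K e)]
  rfl

theorem theta_det_ne_zero (hδ0 : ∀ a i, δ a i ≠ 0)
    (hδ : ∀ a b i j, δ a i = δ b j → a = b ∧ i = j) :
    theta K F e δ c (jac K e).det ≠ 0 := by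
  classical
  rw [RingHom.map_det, map_jac K e (theta K F e δ c) (PX F δ) (PY F δ c)
    (theta_false K F e δ c) (theta_true K F e δ c)]
  apply jacval_det_ne_zero (h := wt)
  apply tri_path
  · exact PowerSeries.X_ne_zero
  · intro a i h
    rw [map_eq_zero_iff _ PowerSeries.C_injective] at h
    exact hδ0 a i h
  · intro a b i j h
    exact hδ a b i j (PowerSeries.C_injective h)

end

end Pool.Agent.Helper15.NC
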