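import Pool.Agent.Helper15.NC.Jac2

/-!
# The path from the special point to a smooth point
-/

namespace Pool.Agent.Helper15.NC

universe u v

section

variable {D : Type u} [CommRing D]

/-- A four by four lower triangular matrix. -/
def xb (s : D) (d : Fin 4 → D) : Matrix (Fin 4) (Fin 4) D := fun a b =>
  match a, b with
  | 0, 0 => s * d 0
  | 1, 1 => s * d 1
  | 2, 2 => s * d 2
  | 3, 3 => s * d 3
  | 1, 0 => 1
  | 2, 1 => s * (d 2 - d 0) * (d 2 - d 1)
  | 3, 1 => 1
  | _, _ => 0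

/-- A four by four lower triangular matrix commuting with `xb`. -/
def yb (s : D) (d : Fin 4 → D) : Matrix (Fin 4) (Fin 4) D := fun a b =>
  match a, b with
  | 2, 0 => 1
  | 2, 1 => s * (d 2 - d 0)
  | 2, 2 => s
  | _, _ => 0

theorem xb_00 (s : D) (d : Fin 4 → D) : xb s d 0 0 = s * d 0 := rfl
theorem xb_01 (s : D) (d : Fin 4 → D) : xb s d 0 1 = 0 := rfl
theorem xb_02 (s : D) (d : Fin 4 → D) : xb s d 0 2 = 0 := rfl
theorem xb_03 (s : D) (d : Fin 4 → D) : xb s d 0 3 = 0 := rfl
theorem xb_10 (s : D) (d : Fin 4 → D) : xb s d 1 0 = 1 := rfl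
theorem xb_11 (s : D) (d : Fin 4 → D) : xb s d 1 1 = s * d 1 := rfl
theorem xb_12 (s : D) (d : Fin 4 → D) : xb s d 1 2 = 0 := rfl
theorem xb_13 (s : D) (d : Fin 4 → D) : xb s d 1 3 = 0 := rfl
theorem xb_20 (s : D) (d : Fin 4 → D) : xb s d 2 0 = 0 := rfl
theorem xb_21 (s : D) (d : Fin 4 → D) : xb s d 2 1 = s * (d 2 - d 0) * (d 2 - d 1) := rfl
theorem xb_22 (s : D) (d : Fin 4 → D) : xb s d 2 2 = s * d 2 := rfl
theorem xb_23 (s : D) (d : Fin 4 → D) : xb s d 2 3 = 0 := rfl
theorem xb_30 (s : D) (d : Fin 4 → D) : xb s d 3 0 = 0 := rfl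
theorem xb_31 (s : D) (d : Fin 4 → D) : xb s d 3 1 = 1 := rfl
theorem xb_32 (s : D) (d : Fin 4 → D) : xb s d 3 2 = 0 := rfl
theorem xb_33 (s : D) (d : Fin 4 → D) : xb s d 3 3 = s * d 3 := rfl
theorem yb_00 (s : D) (d : Fin 4 → D) : yb s d 0 0 = 0 := rfl
theorem yb_01 (s : D) (d : Fin 4 → D) : yb s d 0 1 = 0 := rfl
theorem yb_02 (s : D) (d : Fin 4 → D) : yb s d 0 2 = 0 := rfl
theorem yb_03 (s : D) (d : Fin 4 → D) : yb s d 0 3 = 0 := rfl
theorem yb_10 (s : D) (d : Fin 4 → D) : yb s d 1 0 = 0 := rfl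
theorem yb_11 (s : D) (d : Fin 4 → D) : yb s d 1 1 = 0 := rfl
theorem yb_12 (s : D) (d : Fin 4 → D) : yb s d 1 2 = 0 := rfl
theorem yb_13 (s : D) (d : Fin 4 → D) : yb s d 1 3 = 0 := rfl
theorem yb_20 (s : D) (d : Fin 4 → D) : yb s d 2 0 = 1 := rfl
theorem yb_21 (s : D) (d : Fin 4 → D) : yb s d 2 1 = s * (d 2 - d 0) := rfl
theorem yb_22 (s : D) (d : Fin 4 → D) : yb s d 2 2 = s := rfl
theorem yb_23 (s : D) (d : Fin 4 → D) : yb s d 2 3 = 0 := rfl
theorem yb_30 (s : D) (d : Fin 4 → D) : yb s d 3 0 = 0 := rfl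
theorem yb_31 (s : D) (d : Fin 4 → D) : yb s d 3 1 = 0 := rfl
theorem yb_32 (s : D) (d : Fin 4 → D) : yb s d 3 2 = 0 := rfl
theorem yb_33 (s : D) (d : Fin 4 → D) : yb s d 3 3 = 0 := rfl

set_option linter.unusedSimpArgs false in
theorem xb_mul_yb (s : D) (d : Fin 4 → D) : xb s d * yb s d = yb s d * xb s d := by
  apply ext4
  all_goals
    simp only [Matrix.mul_apply, Fin.sum_univ_four, xb_00, xb_01, xb_02, xb_03, xb_10, xb_11,
      xb_12, xb_13, xb_20, xb_21, xb_22, xb_23, xb_30, xb_31, xb_32, xb_33, yb_00, yb_01, yb_02,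
      yb_03, yb_10, yb_11, yb_12, yb_13, yb_20, yb_21, yb_22, yb_23, yb_30, yb_31, yb_32, yb_33]
    ring

/-- The second block. -/
def yc (s : D) (d : Fin 4 → D) (c : D) : Matrix (Fin 4) (Fin 4) D := yb s d + c • xb s d

theorem xb_mul_yc (s : D) (d : Fin 4 → D) (c : D) : xb s d * yc s d c = yc s d c * xb s d := by
  rw [yc, Matrix.mul_add, Matrix.add_mul, xb_mul_yb, Matrix.mul_smul, Matrix.smul_mul]

theorem xb_tri (s : D) (d : Fin 4 → D) (a b : Fin 4) (h : xb s d a b ≠ 0) :
    a = b ∨ (b : ℕ) < a := by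
  by_contra hcon
  push Not at hcon
  apply h
  obtain ⟨h1, h2⟩ := hcon
  match a, b with
  | 0, 0 => exact absurd rfl h1
  | 1, 1 => exact absurd rfl h1
  | 2, 2 => exact absurd rfl h1
  | 3, 3 => exact absurd rfl h1
  | 0, 1 => rfl
  | 0, 2 => rfl
  | 0, 3 => rfl
  | 1, 2 => rfl
  | 1, 3 => rfl
  | 2, 3 => rfl
  | 1, 0 => exact absurd h2 (by decide)
  | 2, 0 => exact absurd h2 (by decide)
  | 3, 0 => exact absurd h2 (by decide)
  | 2, 1 => exact absurd h2 (by decide)
  | 3, 1 => exact absurd h2 (by decide)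
  | 3, 2 => exact absurd h2 (by decide)

theorem xb_diag (s : D) (d : Fin 4 → D) (a : Fin 4) : xb s d a a = s * d a := by
  match a with
  | 0 => rfl
  | 1 => rfl
  | 2 => rfl
  | 3 => rfl

variable {m : ℕ}

/-- The first matrix of the path. -/
def pathX (s : D) (d : Fin 4 → Fin m → D) : Matrix (Ix m) (Ix m) D := fun u v =>
  match u, v with
  | .inl r, .inl r' => if r = 0 ∧ r' = 1 then 1 else 0
  | .inr u, .inr v => if u.2 = v.2 then xb s (fun a => d a u.2) u.1 v.1 else 0
  | _, _ => 0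

/-- The second matrix of the path. -/
def pathY (s : D) (d : Fin 4 → Fin m → D) (c : Fin m → D) : Matrix (Ix m) (Ix m) D := fun u v =>
  match u, v with
  | .inl r, .inl r' => if r = 1 ∧ r' = 0 then 1 else 0
  | .inr u, .inr v => if u.2 = v.2 then yc s (fun a => d a u.2) (c u.2) u.1 v.1 else 0
  | _, _ => 0

theorem pathX_inl (s : D) (d : Fin 4 → Fin m → D) (r r' : Fin 2) :
    pathX s d (.inl r) (.inl r') = if r = 0 ∧ r' = 1 then 1 else 0 := rfl
theorem pathX_lr (s : D) (d : Fin 4 → Fin m → D) (r : Fin 2) (v : Fin 4 × Fin m) :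
    pathX s d (.inl r) (.inr v) = 0 := rfl
theorem pathX_rl (s : D) (d : Fin 4 → Fin m → D) (r : Fin 2) (v : Fin 4 × Fin m) :
    pathX s d (.inr v) (.inl r) = 0 := rfl
theorem pathX_inr (s : D) (d : Fin 4 → Fin m → D) (u v : Fin 4 × Fin m) :
    pathX s d (.inr u) (.inr v) = if u.2 = v.2 then xb s (fun a => d a u.2) u.1 v.1 else 0 := rfl
theorem pathY_inl (s : D) (d : Fin 4 → Fin m → D) (c : Fin m → D) (r r' : Fin 2) :
    pathY s d c (.inl r) (.inl r') = if r = 1 ∧ r' = 0 then 1 else 0 := rfl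
theorem pathY_lr (s : D) (d : Fin 4 → Fin m → D) (c : Fin m → D) (r : Fin 2) (v : Fin 4 × Fin m) :
    pathY s d c (.inl r) (.inr v) = 0 := rfl
theorem pathY_rl (s : D) (d : Fin 4 → Fin m → D) (c : Fin m → D) (r : Fin 2) (v : Fin 4 × Fin m) :
    pathY s d c (.inr v) (.inl r) = 0 := rfl
theorem pathY_inr (s : D) (d : Fin 4 → Fin m → D) (c : Fin m → D) (u v : Fin 4 × Fin m) :
    pathY s d c (.inr u) (.inr v) =
      if u.2 = v.2 then yc s (fun a => d a u.2) (c u.2) u.1 v.1 else 0 := rfl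

/-- Products of matrices that are block diagonal in the second index. -/
theorem sum_block (f g : Fin m → Matrix (Fin 4) (Fin 4) D) (u v : Fin 4 × Fin m) :
    ∑ w : Fin 4 × Fin m, (if u.2 = w.2 then f u.2 u.1 w.1 else 0) *
      (if w.2 = v.2 then g w.2 w.1 v.1 else 0) =
      if u.2 = v.2 then (f u.2 * g u.2) u.1 v.1 else 0 := by
  rw [Fintype.sum_prod_type, Finset.sum_comm]
  rw [Finset.sum_eq_single u.2]
  · by_cases h : u.2 = v.2
    · simp only [if_pos h, if_true]
      rw [Matrix.mul_apply]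
    · simp only [if_neg h, mul_zero, Finset.sum_const_zero]
  · intro j _ hj
    apply Finset.sum_eq_zero
    intro a _
    rw [if_neg (fun h => hj h.symm), zero_mul]
  · intro h
    exact absurd (Finset.mem_univ _) h

theorem path_comm_inr (s : D) (d : Fin 4 → Fin m → D) (c : Fin m → D) (u v : Fin 4 × Fin m) :
    (pathX s d * pathY s d c - pathY s d c * pathX s d) (.inr u) (.inr v) = 0 := by
  rw [Matrix.sub_apply, Matrix.mul_apply, Matrix.mul_apply, Fintype.sum_sum_type,
    Fintype.sum_sum_type]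
  simp only [pathX_rl, pathY_rl, zero_mul, Finset.sum_const_zero, zero_add, pathX_inr, pathY_inr]
  rw [sum_block (fun i => xb s (fun a => d a i)) (fun i => yc s (fun a => d a i) (c i)),
    sum_block (fun i => yc s (fun a => d a i) (c i)) (fun i => xb s (fun a => d a i)),
    xb_mul_yc, sub_self]

theorem path_comm_lr (s : D) (d : Fin 4 → Fin m → D) (c : Fin m → D) (r : Fin 2)
    (v : Fin 4 × Fin m) :
    (pathX s d * pathY s d c - pathY s d c * pathX s d) (.inl r) (.inr v) = 0 := by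
  rw [Matrix.sub_apply, Matrix.mul_apply, Matrix.mul_apply, Fintype.sum_sum_type,
    Fintype.sum_sum_type]
  simp only [pathX_lr, pathY_lr, zero_mul, mul_zero, Finset.sum_const_zero, add_zero, sub_self]

theorem path_comm_rl (s : D) (d : Fin 4 → Fin m → D) (c : Fin m → D) (r : Fin 2)
    (v : Fin 4 × Fin m) :
    (pathX s d * pathY s d c - pathY s d c * pathX s d) (.inr v) (.inl r) = 0 := by
  rw [Matrix.sub_apply, Matrix.mul_apply, Matrix.mul_apply, Fintype.sum_sum_type,
    Fintype.sum_sum_type]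
  simp only [pathX_rl, pathY_rl, zero_mul, mul_zero, Finset.sum_const_zero, add_zero, sub_self]

theorem path_comm_ll (s : D) (d : Fin 4 → Fin m → D) (c : Fin m → D) (r r' : Fin 2) :
    (pathX s d * pathY s d c - pathY s d c * pathX s d) (.inl r) (.inl r') =
      if r = r' then (if r = 0 then 1 else -1) else 0 := by
  rw [Matrix.sub_apply, Matrix.mul_apply, Matrix.mul_apply, Fintype.sum_sum_type,
    Fintype.sum_sum_type]
  simp only [pathX_lr, pathY_lr, zero_mul, Finset.sum_const_zero, add_zero, pathX_inl, pathY_inl,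
    Fin.sum_univ_two]
  rcases fin_two_cases r with rfl | rfl <;> rcases fin_two_cases r' with rfl | rfl <;> simp

theorem path_comm_off (s : D) (d : Fin 4 → Fin m → D) (c : Fin m → D) (u v : Ix m) (h : u ≠ v) :
    (pathX s d * pathY s d c - pathY s d c * pathX s d) u v = 0 := by
  rcases u with r | u <;> rcases v with r' | v
  · rw [path_comm_ll, if_neg]
    rintro rfl
    exact h rfl
  · exact path_comm_lr s d c r v
  · exact path_comm_rl s d c r' u
  · exact path_comm_inr s d c u v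

/-- The weight. -/
def wt : Ix m → ℕ
  | .inl r => if r = 0 then 1 else 0
  | .inr u => u.1

theorem tri_path [IsDomain D] (s : D) (d : Fin 4 → Fin m → D) (c : Fin m → D) (hs : s ≠ 0)
    (hd0 : ∀ a i, d a i ≠ 0) (hd : ∀ a b i j, d a i = d b j → a = b ∧ i = j) :
    Tri (pathX s d) (pathY s d c) wt := by
  constructor
  · rintro (r | u)
    · show (if r = 0 then 1 else 0) ≤ 3
      split_ifs <;> omega
    · show (u.1 : ℕ) ≤ 3
      omega
  · rintro (r | u) (r' | v) h
    · right
      rw [pathX_inl] at h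
      have h1 : r = 0 ∧ r' = 1 := by
        by_contra hc
        rw [if_neg hc] at h
        exact h rfl
      obtain ⟨rfl, rfl⟩ := h1
      show (if (1 : Fin 2) = 0 then 1 else 0) < (if (0 : Fin 2) = 0 then 1 else 0)
      decide
    · exact absurd (pathX_lr s d r v) h
    · exact absurd (pathX_rl s d r' u) h
    · rw [pathX_inr] at h
      by_cases h2 : u.2 = v.2
      · rw [if_pos h2] at h
        rcases xb_tri _ _ _ _ h with h3 | h3
        · left
          rw [Prod.ext h3 h2]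
        · right
          exact h3
      · rw [if_neg h2] at h
        exact absurd rfl h
  · rintro (r | u) (r' | v) hne hnl
    · exact absurd ⟨rfl, rfl⟩ hnl
    · rw [pathX_inl, pathX_inr, if_pos rfl, if_neg (by rintro ⟨rfl, h⟩; exact absurd h (by decide)),
        xb_diag]
      exact (mul_ne_zero hs (hd0 _ _)).symm
    · rw [pathX_inl, pathX_inr, if_pos rfl, if_neg (by rintro ⟨rfl, h⟩; exact absurd h (by decide)),
        xb_diag]
      exact mul_ne_zero hs (hd0 _ _)
    · rw [pathX_inr, pathX_inr, if_pos rfl, if_pos rfl, xb_diag, xb_diag]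
      intro h
      have h1 := hd _ _ _ _ (mul_left_cancel₀ hs h)
      exact hne (by rw [Prod.ext h1.1 h1.2])
  · rintro (r | u)
    · rw [pathX_inl, if_neg]
      rintro ⟨h, -⟩
      exact absurd h (by decide)
    · exact pathX_lr s d 1 u
  · rintro (r | u) h
    · rw [pathX_inl] at h
      by_cases h1 : r = 0
      · rw [h1]
      · rw [if_neg (fun h2 => h1 h2.1)] at h
        exact absurd rfl h
    · exact absurd (pathX_rl s d 1 u) h
  · rw [pathX_inl, if_pos ⟨rfl, rfl⟩]
    exact one_ne_zero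
  · rintro (r | u)
    · rw [pathX_inl, if_neg]
      rintro ⟨-, h⟩
      exact absurd h (by decide)
    · exact pathX_rl s d 0 u
  · rintro (r | u) h
    · rw [pathY_inl] at h
      by_cases h1 : r = 0
      · rw [h1]
      · rw [if_neg (fun h2 => h1 h2.2)] at h
        exact absurd rfl h
    · exact absurd (pathY_lr s d c 1 u) h
  · rw [pathY_inl, if_pos ⟨rfl, rfl⟩]
    exact one_ne_zero
  · rintro (r | u)
    · rw [pathY_inl, if_neg]
      rintro ⟨-, h⟩
      exact absurd h (by decide)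
    · exact pathY_rl s d c 1 u

end

end Pool.Agent.Helper15.NC
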