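import Pool.Agent.Helper15.NC.Frame

/-!
# The special point modulo the maximal ideal
-/

set_option linter.unusedSimpArgs false

open IsLocalRing

namespace Pool.Agent.Helper15.NC

universe u v

section

variable {F : Type v} [Field F] {m : ℕ}

/-- The first matrix of the special pair. -/
def X0 (F : Type v) [Field F] (m : ℕ) : M4 F m := fun a b =>
  match a, b with
  | 1, 0 => 1
  | 3, 1 => 1
  | _, _ => 0

theorem x0_00 : X0 F m 0 0 = 0 := rfl
theorem x0_01 : X0 F m 0 1 = 0 := rfl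
theorem x0_02 : X0 F m 0 2 = 0 := rfl
theorem x0_03 : X0 F m 0 3 = 0 := rfl
theorem x0_10 : X0 F m 1 0 = 1 := rfl
theorem x0_11 : X0 F m 1 1 = 0 := rfl
theorem x0_12 : X0 F m 1 2 = 0 := rfl
theorem x0_13 : X0 F m 1 3 = 0 := rfl
theorem x0_20 : X0 F m 2 0 = 0 := rfl
theorem x0_21 : X0 F m 2 1 = 0 := rfl
theorem x0_22 : X0 F m 2 2 = 0 := rfl
theorem x0_23 : X0 F m 2 3 = 0 := rfl
theorem x0_30 : X0 F m 3 0 = 0 := rfl
theorem x0_31 : X0 F m 3 1 = 1 := rfl
theorem x0_32 : X0 F m 3 2 = 0 := rfl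
theorem x0_33 : X0 F m 3 3 = 0 := rfl

/-- The second matrix of the special pair. -/
def Y0 (D : Fin m → F) : M4 F m := fun a b =>
  match a, b with
  | 1, 0 => Matrix.diagonal D
  | 2, 0 => 1
  | 3, 1 => Matrix.diagonal D
  | _, _ => 0

theorem y0_00 (D : Fin m → F) : Y0 D 0 0 = 0 := rfl
theorem y0_01 (D : Fin m → F) : Y0 D 0 1 = 0 := rfl
theorem y0_02 (D : Fin m → F) : Y0 D 0 2 = 0 := rfl
theorem y0_03 (D : Fin m → F) : Y0 D 0 3 = 0 := rfl
theorem y0_10 (D : Fin m → F) : Y0 D 1 0 = Matrix.diagonal D := rfl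
theorem y0_11 (D : Fin m → F) : Y0 D 1 1 = 0 := rfl
theorem y0_12 (D : Fin m → F) : Y0 D 1 2 = 0 := rfl
theorem y0_13 (D : Fin m → F) : Y0 D 1 3 = 0 := rfl
theorem y0_20 (D : Fin m → F) : Y0 D 2 0 = 1 := rfl
theorem y0_21 (D : Fin m → F) : Y0 D 2 1 = 0 := rfl
theorem y0_22 (D : Fin m → F) : Y0 D 2 2 = 0 := rfl
theorem y0_23 (D : Fin m → F) : Y0 D 2 3 = 0 := rfl
theorem y0_30 (D : Fin m → F) : Y0 D 3 0 = 0 := rfl
theorem y0_31 (D : Fin m → F) : Y0 D 3 1 = Matrix.diagonal D := rfl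
theorem y0_32 (D : Fin m → F) : Y0 D 3 2 = 0 := rfl
theorem y0_33 (D : Fin m → F) : Y0 D 3 3 = 0 := rfl

/-- The frame of the special pair. -/
def G0 (D : Fin m → F) : M4 F m := fun a b =>
  match a, b with
  | 0, 0 => 1
  | 1, 1 => 1
  | 1, 2 => Matrix.diagonal D
  | 2, 2 => 1
  | 3, 3 => 1
  | _, _ => 0

theorem g0_00 (D : Fin m → F) : G0 D 0 0 = 1 := rfl
theorem g0_01 (D : Fin m → F) : G0 D 0 1 = 0 := rfl
theorem g0_02 (D : Fin m → F) : G0 D 0 2 = 0 := rfl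
theorem g0_03 (D : Fin m → F) : G0 D 0 3 = 0 := rfl
theorem g0_10 (D : Fin m → F) : G0 D 1 0 = 0 := rfl
theorem g0_11 (D : Fin m → F) : G0 D 1 1 = 1 := rfl
theorem g0_12 (D : Fin m → F) : G0 D 1 2 = Matrix.diagonal D := rfl
theorem g0_13 (D : Fin m → F) : G0 D 1 3 = 0 := rfl
theorem g0_20 (D : Fin m → F) : G0 D 2 0 = 0 := rfl
theorem g0_21 (D : Fin m → F) : G0 D 2 1 = 0 := rfl
theorem g0_22 (D : Fin m → F) : G0 D 2 2 = 1 := rfl
theorem g0_23 (D : Fin m → F) : G0 D 2 3 = 0 := rfl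
theorem g0_30 (D : Fin m → F) : G0 D 3 0 = 0 := rfl
theorem g0_31 (D : Fin m → F) : G0 D 3 1 = 0 := rfl
theorem g0_32 (D : Fin m → F) : G0 D 3 2 = 0 := rfl
theorem g0_33 (D : Fin m → F) : G0 D 3 3 = 1 := rfl

/-- The inverse of the frame of the special pair. -/
def H0 (D : Fin m → F) : M4 F m := fun a b =>
  match a, b with
  | 0, 0 => 1
  | 1, 1 => 1
  | 1, 2 => -Matrix.diagonal D
  | 2, 2 => 1
  | 3, 3 => 1
  | _, _ => 0

theorem h0_00 (D : Fin m → F) : H0 D 0 0 = 1 := rfl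
theorem h0_01 (D : Fin m → F) : H0 D 0 1 = 0 := rfl
theorem h0_02 (D : Fin m → F) : H0 D 0 2 = 0 := rfl
theorem h0_03 (D : Fin m → F) : H0 D 0 3 = 0 := rfl
theorem h0_10 (D : Fin m → F) : H0 D 1 0 = 0 := rfl
theorem h0_11 (D : Fin m → F) : H0 D 1 1 = 1 := rfl
theorem h0_12 (D : Fin m → F) : H0 D 1 2 = -Matrix.diagonal D := rfl
theorem h0_13 (D : Fin m → F) : H0 D 1 3 = 0 := rfl
theorem h0_20 (D : Fin m → F) : H0 D 2 0 = 0 := rfl
theorem h0_21 (D : Fin m → F) : H0 D 2 1 = 0 := rfl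
theorem h0_22 (D : Fin m → F) : H0 D 2 2 = 1 := rfl
theorem h0_23 (D : Fin m → F) : H0 D 2 3 = 0 := rfl
theorem h0_30 (D : Fin m → F) : H0 D 3 0 = 0 := rfl
theorem h0_31 (D : Fin m → F) : H0 D 3 1 = 0 := rfl
theorem h0_32 (D : Fin m → F) : H0 D 3 2 = 0 := rfl
theorem h0_33 (D : Fin m → F) : H0 D 3 3 = 1 := rfl

/-- The first matrix in normal form. -/
def XP (D : Fin m → F) : M4 F m := fun a b =>
  match a, b with
  | 1, 0 => 1
  | 3, 1 => 1
  | 3, 2 => Matrix.diagonal D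
  | _, _ => 0

theorem xp_00 (D : Fin m → F) : XP D 0 0 = 0 := rfl
theorem xp_01 (D : Fin m → F) : XP D 0 1 = 0 := rfl
theorem xp_02 (D : Fin m → F) : XP D 0 2 = 0 := rfl
theorem xp_03 (D : Fin m → F) : XP D 0 3 = 0 := rfl
theorem xp_10 (D : Fin m → F) : XP D 1 0 = 1 := rfl
theorem xp_11 (D : Fin m → F) : XP D 1 1 = 0 := rfl
theorem xp_12 (D : Fin m → F) : XP D 1 2 = 0 := rfl
theorem xp_13 (D : Fin m → F) : XP D 1 3 = 0 := rfl
theorem xp_20 (D : Fin m → F) : XP D 2 0 = 0 := rfl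
theorem xp_21 (D : Fin m → F) : XP D 2 1 = 0 := rfl
theorem xp_22 (D : Fin m → F) : XP D 2 2 = 0 := rfl
theorem xp_23 (D : Fin m → F) : XP D 2 3 = 0 := rfl
theorem xp_30 (D : Fin m → F) : XP D 3 0 = 0 := rfl
theorem xp_31 (D : Fin m → F) : XP D 3 1 = 1 := rfl
theorem xp_32 (D : Fin m → F) : XP D 3 2 = Matrix.diagonal D := rfl
theorem xp_33 (D : Fin m → F) : XP D 3 3 = 0 := rfl

/-- The second matrix in normal form. -/
def YP (D : Fin m → F) : M4 F m := fun a b =>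
  match a, b with
  | 2, 0 => 1
  | 3, 1 => Matrix.diagonal D
  | 3, 2 => Matrix.diagonal D * Matrix.diagonal D
  | _, _ => 0

theorem yp_00 (D : Fin m → F) : YP D 0 0 = 0 := rfl
theorem yp_01 (D : Fin m → F) : YP D 0 1 = 0 := rfl
theorem yp_02 (D : Fin m → F) : YP D 0 2 = 0 := rfl
theorem yp_03 (D : Fin m → F) : YP D 0 3 = 0 := rfl
theorem yp_10 (D : Fin m → F) : YP D 1 0 = 0 := rfl
theorem yp_11 (D : Fin m → F) : YP D 1 1 = 0 := rfl
theorem yp_12 (D : Fin m → F) : YP D 1 2 = 0 := rfl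
theorem yp_13 (D : Fin m → F) : YP D 1 3 = 0 := rfl
theorem yp_20 (D : Fin m → F) : YP D 2 0 = 1 := rfl
theorem yp_21 (D : Fin m → F) : YP D 2 1 = 0 := rfl
theorem yp_22 (D : Fin m → F) : YP D 2 2 = 0 := rfl
theorem yp_23 (D : Fin m → F) : YP D 2 3 = 0 := rfl
theorem yp_30 (D : Fin m → F) : YP D 3 0 = 0 := rfl
theorem yp_31 (D : Fin m → F) : YP D 3 1 = Matrix.diagonal D := rfl
theorem yp_32 (D : Fin m → F) : YP D 3 2 = Matrix.diagonal D * Matrix.diagonal D := rfl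
theorem yp_33 (D : Fin m → F) : YP D 3 3 = 0 := rfl

theorem one_00 : (1 : M4 F m) 0 0 = 1 := Matrix.one_apply_eq _
theorem one_01 : (1 : M4 F m) 0 1 = 0 := Matrix.one_apply_ne (by decide)
theorem one_02 : (1 : M4 F m) 0 2 = 0 := Matrix.one_apply_ne (by decide)
theorem one_03 : (1 : M4 F m) 0 3 = 0 := Matrix.one_apply_ne (by decide)
theorem one_10 : (1 : M4 F m) 1 0 = 0 := Matrix.one_apply_ne (by decide)
theorem one_11 : (1 : M4 F m) 1 1 = 1 := Matrix.one_apply_eq _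
theorem one_12 : (1 : M4 F m) 1 2 = 0 := Matrix.one_apply_ne (by decide)
theorem one_13 : (1 : M4 F m) 1 3 = 0 := Matrix.one_apply_ne (by decide)
theorem one_20 : (1 : M4 F m) 2 0 = 0 := Matrix.one_apply_ne (by decide)
theorem one_21 : (1 : M4 F m) 2 1 = 0 := Matrix.one_apply_ne (by decide)
theorem one_22 : (1 : M4 F m) 2 2 = 1 := Matrix.one_apply_eq _
theorem one_23 : (1 : M4 F m) 2 3 = 0 := Matrix.one_apply_ne (by decide)
theorem one_30 : (1 : M4 F m) 3 0 = 0 := Matrix.one_apply_ne (by decide)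
theorem one_31 : (1 : M4 F m) 3 1 = 0 := Matrix.one_apply_ne (by decide)
theorem one_32 : (1 : M4 F m) 3 2 = 0 := Matrix.one_apply_ne (by decide)
theorem one_33 : (1 : M4 F m) 3 3 = 1 := Matrix.one_apply_eq _

theorem ext4 {A : Type u} {M N : Matrix (Fin 4) (Fin 4) A}
    (h00 : M 0 0 = N 0 0) (h01 : M 0 1 = N 0 1) (h02 : M 0 2 = N 0 2) (h03 : M 0 3 = N 0 3)
    (h10 : M 1 0 = N 1 0) (h11 : M 1 1 = N 1 1) (h12 : M 1 2 = N 1 2) (h13 : M 1 3 = N 1 3)
    (h20 : M 2 0 = N 2 0) (h21 : M 2 1 = N 2 1) (h22 : M 2 2 = N 2 2) (h23 : M 2 3 = N 2 3)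
    (h30 : M 3 0 = N 3 0) (h31 : M 3 1 = N 3 1) (h32 : M 3 2 = N 3 2) (h33 : M 3 3 = N 3 3) :
    M = N := by
  funext a b
  fin_cases a <;> fin_cases b <;> assumption

theorem G0_mul_H0 (D : Fin m → F) : G0 D * H0 D = 1 := by
  apply ext4
  all_goals
    simp only [
      Matrix.mul_apply, Fin.sum_univ_four, g0_00, g0_01, g0_02, g0_03, g0_10, g0_11, g0_12,
      g0_13, g0_20, g0_21, g0_22, g0_23, g0_30, g0_31, g0_32, g0_33, h0_00, h0_01, h0_02, h0_03,
      h0_10, h0_11, h0_12, h0_13, h0_20, h0_21, h0_22, h0_23, h0_30, h0_31, h0_32, h0_33,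
      one_00, one_01, one_02, one_03, one_10, one_11, one_12, one_13, one_20, one_21, one_22,
      one_23, one_30, one_31, one_32, one_33, zero_mul, mul_zero, one_mul, mul_one, add_zero,
      zero_add, neg_add_cancel, add_neg_cancel]

theorem H0_mul_G0 (D : Fin m → F) : H0 D * G0 D = 1 := by
  apply ext4
  all_goals
    simp only [
      Matrix.mul_apply, Fin.sum_univ_four, g0_00, g0_01, g0_02, g0_03, g0_10, g0_11, g0_12,
      g0_13, g0_20, g0_21, g0_22, g0_23, g0_30, g0_31, g0_32, g0_33, h0_00, h0_01, h0_02, h0_03,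
      h0_10, h0_11, h0_12, h0_13, h0_20, h0_21, h0_22, h0_23, h0_30, h0_31, h0_32, h0_33,
      one_00, one_01, one_02, one_03, one_10, one_11, one_12, one_13, one_20, one_21, one_22,
      one_23, one_30, one_31, one_32, one_33, zero_mul, mul_zero, one_mul, mul_one, add_zero,
      zero_add, neg_add_cancel, add_neg_cancel]

theorem X0_mul_G0 (D : Fin m → F) : X0 F m * G0 D = G0 D * XP D := by
  apply ext4
  all_goals
    simp only [
      Matrix.mul_apply, Fin.sum_univ_four, x0_00, x0_01, x0_02, x0_03, x0_10, x0_11, x0_12,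
      x0_13, x0_20, x0_21, x0_22, x0_23, x0_30, x0_31, x0_32, x0_33, g0_00, g0_01, g0_02, g0_03,
      g0_10, g0_11, g0_12, g0_13, g0_20, g0_21, g0_22, g0_23, g0_30, g0_31, g0_32, g0_33, xp_00,
      xp_01, xp_02, xp_03, xp_10, xp_11, xp_12, xp_13, xp_20, xp_21, xp_22, xp_23, xp_30, xp_31,
      xp_32, xp_33, zero_mul, mul_zero, one_mul, mul_one, add_zero, zero_add]

theorem Y0_mul_G0 (D : Fin m → F) : Y0 D * G0 D = G0 D * YP D := by
  apply ext4
  all_goals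
    simp only [
      Matrix.mul_apply, Fin.sum_univ_four, y0_00, y0_01, y0_02, y0_03, y0_10, y0_11, y0_12,
      y0_13, y0_20, y0_21, y0_22, y0_23, y0_30, y0_31, y0_32, y0_33, g0_00, g0_01, g0_02, g0_03,
      g0_10, g0_11, g0_12, g0_13, g0_20, g0_21, g0_22, g0_23, g0_30, g0_31, g0_32, g0_33, yp_00,
      yp_01, yp_02, yp_03, yp_10, yp_11, yp_12, yp_13, yp_20, yp_21, yp_22, yp_23, yp_30, yp_31,
      yp_32, yp_33, zero_mul, mul_zero, one_mul, mul_one, add_zero, zero_add]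

theorem frame_zero (D : Fin m → F) : frame (X0 F m) (Y0 D) = G0 D := by
  have h3 : ∀ a, frame (X0 F m) (Y0 D) a 3 = (X0 F m * X0 F m) a 0 := fun a => rfl
  have h0 : frame (X0 F m) (Y0 D) 0 0 = 1 := rfl
  have h1 : frame (X0 F m) (Y0 D) 1 0 = 0 := rfl
  have h2 : frame (X0 F m) (Y0 D) 2 0 = 0 := rfl
  have h4 : frame (X0 F m) (Y0 D) 3 0 = 0 := rfl
  have hx : ∀ a, frame (X0 F m) (Y0 D) a 1 = X0 F m a 0 := fun a => rfl
  have hy : ∀ a, frame (X0 F m) (Y0 D) a 2 = Y0 D a 0 := fun a => rfl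
  apply ext4
  all_goals
    simp only [
      h0, h1, h2, h4, hx, hy, h3, Matrix.mul_apply, Fin.sum_univ_four, x0_00, x0_01, x0_02,
      x0_03, x0_10, x0_11, x0_12, x0_13, x0_20, x0_21, x0_22, x0_23, x0_30, x0_31, x0_32, x0_33,
      y0_00, y0_01, y0_02, y0_03, y0_10, y0_11, y0_12, y0_13, y0_20, y0_21, y0_22, y0_23, y0_30,
      y0_31, y0_32, y0_33, g0_00, g0_01, g0_02, g0_03, g0_10, g0_11, g0_12, g0_13, g0_20, g0_21,
      g0_22, g0_23, g0_30, g0_31, g0_32, g0_33, zero_mul, mul_zero, one_mul, mul_one, add_zero,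
      zero_add]

end

section

variable {A : Type u} [CommRing A] {F : Type v} [Field F] {m : ℕ}

/-- Reduction of block matrices. -/
def red (φ : A →+* F) : M4 A m →+* M4 F m :=
  (φ.mapMatrix (m := Fin m)).mapMatrix (m := Fin 4)

theorem red_apply (φ : A →+* F) (M : M4 A m) (a b : Fin 4) (i j : Fin m) :
    red φ M a b i j = φ (M a b i j) := rfl

theorem red_frame (φ : A →+* F) (X Y : M4 A m) :
    red φ (frame X Y) = frame (red φ X) (red φ Y) := by
  ext a b i j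
  match b with
  | 0 =>
    show φ ((if a = 0 then (1 : Blk A m) else 0) i j) = (if a = 0 then (1 : Blk F m) else 0) i j
    split_ifs
    · rw [Matrix.one_apply, Matrix.one_apply]
      split_ifs
      · exact map_one φ
      · exact map_zero φ
    · exact map_zero φ
  | 1 => rfl
  | 2 => rfl
  | 3 =>
    show φ ((X * X) a 0 i j) = (red φ X * red φ X) a 0 i j
    rw [← map_mul]
    rfl

theorem entIn_of_red [IsLocalRing A] (φ : A →+* F) (hφ : ∀ x, x ∈ maximalIdeal A ↔ φ x = 0)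
    (M : M4 A m) (a b : Fin 4) (h : red φ M a b = 0) : EntIn (maximalIdeal A) (M a b) := by
  intro i j
  rw [hφ, ← red_apply, h]
  rfl

/-- The frame is invertible and the small blocks lie in the maximal ideal. -/
theorem exists_inverse [IsLocalRing A] (φ : A →+* F) (hφ : ∀ x, x ∈ maximalIdeal A ↔ φ x = 0)
    (X Y : M4 A m) (D : Fin m → F) (hD : Function.Injective D) (hX : red φ X = X0 F m)
    (hY : red φ Y = Y0 D) :
    ∃ H : M4 A m, frame X Y * H = 1 ∧ H * frame X Y = 1 ∧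
      Small (maximalIdeal A) (H * X * frame X Y) (H * Y * frame X Y) ∧
      (∀ i j, i ≠ j → (H * X * frame X Y) 3 2 i j ∈ maximalIdeal A) ∧
      (∀ i j, i ≠ j → IsUnit ((H * X * frame X Y) 3 2 j j - (H * X * frame X Y) 3 2 i i)) := by
  have hG : red φ (frame X Y) = G0 D := by rw [red_frame, hX, hY, frame_zero]
  have hu : IsUnit (frame X Y) := by
    apply isUnit_of_map φ hφ
    show IsUnit (red φ (frame X Y))
    rw [hG]
    exact ⟨⟨G0 D, H0 D, G0_mul_H0 D, H0_mul_G0 D⟩, rfl⟩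
  obtain ⟨u, hu⟩ := hu
  obtain ⟨H, hH0⟩ : ∃ H : M4 A m, H = (↑u⁻¹ : M4 A m) := ⟨_, rfl⟩
  have h1 : frame X Y * H = 1 := by rw [← hu, hH0]; exact u.mul_inv
  have h2 : H * frame X Y = 1 := by rw [← hu, hH0]; exact u.inv_mul
  have hH : red φ H = H0 D := by
    have h3 : red φ H * G0 D = 1 := by rw [← hG, ← map_mul, h2, map_one]
    calc red φ H = red φ H * (G0 D * H0 D) := by rw [G0_mul_H0, mul_one]
      _ = H0 D := by rw [← mul_assoc, h3, one_mul]
  have hX' : red φ (H * X * frame X Y) = XP D := by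
    rw [map_mul, map_mul, hH, hX, hG, mul_assoc, X0_mul_G0, ← mul_assoc, H0_mul_G0, one_mul]
  have hY' : red φ (H * Y * frame X Y) = YP D := by
    rw [map_mul, map_mul, hH, hY, hG, mul_assoc, Y0_mul_G0, ← mul_assoc, H0_mul_G0, one_mul]
  refine ⟨H, h1, h2, ?_, ?_, ?_⟩
  · have ex : ∀ a b, XP D a b = 0 → EntIn (maximalIdeal A) ((H * X * frame X Y) a b) :=
      fun a b h => entIn_of_red φ hφ _ a b (by rw [hX', h])
    have ey : ∀ a b, YP D a b = 0 → EntIn (maximalIdeal A) ((H * Y * frame X Y) a b) :=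
      fun a b h => entIn_of_red φ hφ _ a b (by rw [hY', h])
    refine ⟨ex _ _ rfl, ex _ _ rfl, ex _ _ rfl, ex _ _ rfl, ex _ _ rfl, ex _ _ rfl, ex _ _ rfl,
      ey _ _ rfl, ey _ _ rfl, ey _ _ rfl, ?_, ey _ _ rfl, ey _ _ rfl, ey _ _ rfl, ey _ _ rfl,
      ey _ _ rfl, ey _ _ rfl, ey _ _ rfl⟩
    intro i j
    rw [hφ, Matrix.sub_apply, map_sub, ← red_apply, ← red_apply, hX', hY', xp_32, yp_31, sub_self]
  · intro i j hij
    rw [hφ, ← red_apply, hX', xp_32, Matrix.diagonal_apply_ne _ hij]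
  · intro i j hij
    by_contra h
    have h3 := (hφ _).1 ((IsLocalRing.mem_maximalIdeal _).2 h)
    rw [map_sub, ← red_apply, ← red_apply, hX', xp_32, Matrix.diagonal_apply_eq,
      Matrix.diagonal_apply_eq, sub_eq_zero] at h3
    exact hij (hD h3).symm

end

end Pool.Agent.Helper15.NC
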