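import Pool.Agent.Helper15.NC.Path
import Pool.Agent.Helper15.NC.Generic
import Pool.Agent.Helper15.NC.Core

/-!
# The point, the path and the localization
-/

open IsLocalRing

namespace Pool.Agent.Helper15.NC

universe u v

/-- The localization at the kernel of the constant coefficient of a map to power series. -/
theorem exists_lift {R : Type u} [CommRing R] {F : Type v} [Field F] (θ : R →+* PowerSeries F)
    (n : Ideal R) [n.IsPrime] (hn : ∀ r, r ∈ n ↔ PowerSeries.constantCoeff (θ r) = 0) :
    ∃ Θ : Localization.AtPrime n →+* PowerSeries F,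
      (∀ r, Θ (algebraMap R (Localization.AtPrime n) r) = θ r) ∧
      ∀ x, x ∈ maximalIdeal (Localization.AtPrime n) ↔ PowerSeries.constantCoeff (Θ x) = 0 := by
  have hu : ∀ y : n.primeCompl, IsUnit (θ y) := by
    intro y
    rw [PowerSeries.isUnit_iff_constantCoeff, isUnit_iff_ne_zero]
    exact fun h => y.2 ((hn _).2 h)
  refine ⟨IsLocalization.lift hu, fun r => IsLocalization.lift_eq hu r, fun x => ?_⟩
  obtain ⟨r, t, rfl⟩ := IsLocalization.exists_mk'_eq n.primeCompl x
  rw [IsLocalization.AtPrime.mk'_mem_maximal_iff (Localization.AtPrime n) n, hn,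
    IsLocalization.lift_mk', map_mul]
  constructor
  · intro h
    rw [h, zero_mul]
  · intro h
    exact (mul_eq_zero.1 h).resolve_right
      (((Units.isUnit _).map (PowerSeries.constantCoeff (R := F))).ne_zero)

section

variable (K : Type u) [Field K] (F : Type v) [Field F] [Algebra K F] {m n : ℕ}
  (e : Ix m ≃ Fin n) (δ : Fin 4 → Fin m → F) (c : Fin m → F)

/-- The path of first matrices. -/
noncomputable def PX : Matrix (Ix m) (Ix m) (PowerSeries F) :=
  pathX PowerSeries.X fun a i => PowerSeries.C (δ a i)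

/-- The path of second matrices. -/
noncomputable def PY : Matrix (Ix m) (Ix m) (PowerSeries F) :=
  pathY PowerSeries.X (fun a i => PowerSeries.C (δ a i)) fun i => PowerSeries.C (c i)

/-- The ring homomorphism attached to the path. -/
noncomputable def theta : PairRing K n →+* PowerSeries F :=
  MvPolynomial.eval₂Hom ((PowerSeries.C).comp (algebraMap K F)) fun v =>
    if v.1 then PY F δ c (e.symm v.2.1) (e.symm v.2.2) else PX F δ (e.symm v.2.1) (e.symm v.2.2)

theorem theta_false (s t : Ix m) : theta K F e δ c (rvar K e false s t) = PX F δ s t := by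
  rw [theta, rvar, MvPolynomial.eval₂Hom_X']
  simp

theorem theta_true (s t : Ix m) : theta K F e δ c (rvar K e true s t) = PY F δ c s t := by
  rw [theta, rvar, MvPolynomial.eval₂Hom_X']
  simp

theorem theta_comm (s t : Ix m) : theta K F e δ c (commEntry K n (e s) (e t)) =
    (PX F δ * PY F δ c - PY F δ c * PX F δ) s t := by
  rw [commEntry_reindex, map_sub, map_sum, map_sum, Matrix.sub_apply, Matrix.mul_apply,
    Matrix.mul_apply]
  congr 1
  · refine Finset.sum_congr rfl fun w _ => ?_
    rw [map_mul, theta_false, theta_true]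
  · refine Finset.sum_congr rfl fun w _ => ?_
    rw [map_mul, theta_false, theta_true]

theorem theta_nearly : nearlyCommutingIdeal K n ≤ RingHom.ker (theta K F e δ c) := by
  rw [nearlyCommutingIdeal, Ideal.span_le]
  rintro _ ⟨i, j, hij, rfl⟩
  have h1 := theta_comm K F e δ c (e.symm i) (e.symm j)
  rw [Equiv.apply_symm_apply, Equiv.apply_symm_apply] at h1
  show theta K F e δ c _ = 0
  rw [h1]
  exact path_comm_off _ _ _ _ _ fun h => hij (e.symm.injective h)

theorem theta_diag : theta K F e δ c (commEntry K n (e (.inl 0)) (e (.inl 0))) = 1 := by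
  rw [theta_comm]
  have h := path_comm_ll PowerSeries.X (fun a i => PowerSeries.C (δ a i))
    (fun i => PowerSeries.C (c i)) 0 0
  rw [if_pos rfl, if_pos rfl] at h
  exact h

theorem blk22_PX : blk22 (PX F δ) = fun a b => fun i j =>
    if i = j then xb PowerSeries.X (fun a => PowerSeries.C (δ a i)) a b else 0 := by
  funext a b i j
  rfl

theorem blk22_PY : blk22 (PY F δ c) = fun a b => fun i j =>
    if i = j then yc PowerSeries.X (fun a => PowerSeries.C (δ a i)) (PowerSeries.C (c i)) a b
    else 0 := by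
  funext a b i j
  rfl

theorem const_xb (d : Fin 4 → PowerSeries F) (a b : Fin 4) :
    PowerSeries.constantCoeff (xb PowerSeries.X d a b) =
      if (a = 1 ∧ b = 0) ∨ (a = 3 ∧ b = 1) then 1 else 0 := by
  match a, b with
  | 0, 0 => simp [xb_00]
  | 1, 1 => simp [xb_11]
  | 2, 2 => simp [xb_22]
  | 3, 3 => simp [xb_33]
  | 0, 1 => simp [xb_01]
  | 0, 2 => simp [xb_02]
  | 0, 3 => simp [xb_03]
  | 1, 2 => simp [xb_12]
  | 1, 3 => simp [xb_13]
  | 2, 3 => simp [xb_23]
  | 1, 0 => simp [xb_10]
  | 2, 0 => simp [xb_20]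
  | 3, 0 => simp [xb_30]
  | 2, 1 => simp [xb_21]
  | 3, 1 => simp [xb_31]
  | 3, 2 => simp [xb_32]

theorem const_yb (d : Fin 4 → PowerSeries F) (a b : Fin 4) :
    PowerSeries.constantCoeff (yb PowerSeries.X d a b) =
      if a = 2 ∧ b = 0 then 1 else 0 := by
  match a, b with
  | 0, 0 => simp [yb_00]
  | 1, 1 => simp [yb_11]
  | 2, 2 => simp [yb_22]
  | 3, 3 => simp [yb_33]
  | 0, 1 => simp [yb_01]
  | 0, 2 => simp [yb_02]
  | 0, 3 => simp [yb_03]
  | 1, 2 => simp [yb_12]
  | 1, 3 => simp [yb_13]
  | 2, 3 => simp [yb_23]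
  | 1, 0 => simp [yb_10]
  | 2, 0 => simp [yb_20]
  | 3, 0 => simp [yb_30]
  | 2, 1 => simp [yb_21]
  | 3, 1 => simp [yb_31]
  | 3, 2 => simp [yb_32]

end

end Pool.Agent.Helper15.NC
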