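import Pool.Agent.Helper15.NC.Setup

/-!
# The special point
-/

open IsLocalRing

namespace Pool.Agent.Helper15.NC

universe u v w

section

variable {F : Type v} [Field F] {m : ℕ}

theorem X0_apply (a b : Fin 4) :
    X0 F m a b = if (a = 1 ∧ b = 0) ∨ (a = 3 ∧ b = 1) then 1 else 0 := by
  match a, b with
  | 0, 0 => rfl
  | 1, 1 => rfl
  | 2, 2 => rfl
  | 3, 3 => rfl
  | 0, 1 => rfl
  | 0, 2 => rfl
  | 0, 3 => rfl
  | 1, 2 => rfl
  | 1, 3 => rfl
  | 2, 3 => rfl
  | 1, 0 => rfl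
  | 2, 0 => rfl
  | 3, 0 => rfl
  | 2, 1 => rfl
  | 3, 1 => rfl
  | 3, 2 => rfl

theorem Y0_apply (D : Fin m → F) (a b : Fin 4) : Y0 D a b = (if a = 2 ∧ b = 0 then 1 else 0) +
    (if (a = 1 ∧ b = 0) ∨ (a = 3 ∧ b = 1) then Matrix.diagonal D else 0) := by
  have h0 : ∀ a b : Fin 4, Y0 D a b = if a = 2 ∧ b = 0 then 1 else
      if (a = 1 ∧ b = 0) ∨ (a = 3 ∧ b = 1) then Matrix.diagonal D else 0 := by
    intro a b
    match a, b with
    | 0, 0 => rfl
    | 1, 1 => rfl
    | 2, 2 => rfl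
    | 3, 3 => rfl
    | 0, 1 => rfl
    | 0, 2 => rfl
    | 0, 3 => rfl
    | 1, 2 => rfl
    | 1, 3 => rfl
    | 2, 3 => rfl
    | 1, 0 => rfl
    | 2, 0 => rfl
    | 3, 0 => rfl
    | 2, 1 => rfl
    | 3, 1 => rfl
    | 3, 2 => rfl
  rw [h0]
  by_cases h1 : a = 2 ∧ b = 0
  · obtain ⟨rfl, rfl⟩ := h1
    rw [if_pos ⟨rfl, rfl⟩, if_pos ⟨rfl, rfl⟩, if_neg (by decide), add_zero]
  · rw [if_neg h1, if_neg h1, zero_add]

variable {A : Type u} [CommRing A]

theorem red_blk22_X (φ : A →+* F) (X : Matrix (Ix m) (Ix m) A) (δ : Fin 4 → Fin m → F)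
    (h : ∀ s t, φ (X s t) = PowerSeries.constantCoeff (PX F δ s t)) :
    red φ (blk22 X) = X0 F m := by
  funext a b
  ext i j
  rw [red_apply, X0_apply]
  show φ (X (.inr (a, i)) (.inr (b, j))) = _
  rw [h]
  show PowerSeries.constantCoeff (if i = j then xb PowerSeries.X _ a b else 0) = _
  by_cases hij : i = j
  · rw [if_pos hij, const_xb]
    split_ifs
    · rw [hij, Matrix.one_apply_eq]
    · rfl
  · rw [if_neg hij, map_zero]
    split_ifs
    · rw [Matrix.one_apply_ne hij]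
    · rfl

theorem red_blk22_Y (φ : A →+* F) (Y : Matrix (Ix m) (Ix m) A) (δ : Fin 4 → Fin m → F)
    (c : Fin m → F) (h : ∀ s t, φ (Y s t) = PowerSeries.constantCoeff (PY F δ c s t)) :
    red φ (blk22 Y) = Y0 c := by
  funext a b
  ext i j
  rw [red_apply, Y0_apply]
  show φ (Y (.inr (a, i)) (.inr (b, j))) = _
  rw [h]
  show PowerSeries.constantCoeff (if i = j then
    yc PowerSeries.X _ (PowerSeries.C (c i)) a b else 0) = _
  by_cases hij : i = j
  · rw [if_pos hij, yc, Matrix.add_apply, Matrix.smul_apply, map_add, smul_eq_mul, map_mul,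
      const_xb, const_yb, PowerSeries.constantCoeff_C, Matrix.add_apply, hij]
    congr 1
    · split_ifs
      · rw [Matrix.one_apply_eq]
      · rfl
    · split_ifs
      · rw [Matrix.diagonal_apply_eq, mul_one]
      · rw [mul_zero]; rfl
  · rw [if_neg hij, map_zero, Matrix.add_apply]
    have e1 : (if a = 2 ∧ b = 0 then (1 : Blk F m) else 0) i j = 0 := by
      split_ifs
      · rw [Matrix.one_apply_ne hij]
      · rfl
    have e2 : (if (a = 1 ∧ b = 0) ∨ (a = 3 ∧ b = 1) then (Matrix.diagonal c : Blk F m) else 0)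
        i j = 0 := by
      split_ifs
      · rw [Matrix.diagonal_apply_ne _ hij]
      · rfl
    rw [e1, e2, add_zero]

theorem cube_path (δ : Fin 4 → Fin m → F) (i : Fin m) :
    (blk22 (PX F δ) * blk22 (PX F δ) * blk22 (PX F δ)) 0 0 i i =
      (PowerSeries.X * PowerSeries.C (δ 0 i)) ^ 3 := by
  have h0 : ∀ b : Fin 4, b ≠ 0 → blk22 (PX F δ) 0 b = 0 := by
    intro b hb
    ext i j : 1
    show (if i = j then xb (PowerSeries.X : PowerSeries F) _ 0 b else 0) = 0
    split_ifs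
    · match b with
      | 0 => exact absurd rfl hb
      | 1 => rfl
      | 2 => rfl
      | 3 => rfl
    · rfl
  have h00 : blk22 (PX F δ) 0 0 = Matrix.diagonal fun i =>
      (PowerSeries.X * PowerSeries.C (δ 0 i) : PowerSeries F) := by
    ext i j : 1
    rw [Matrix.diagonal_apply]
    rfl
  have hmul : ∀ M : M4 (PowerSeries F) m, (∀ b : Fin 4, b ≠ 0 → M 0 b = 0) → ∀ b,
      (M * blk22 (PX F δ)) 0 b = M 0 0 * blk22 (PX F δ) 0 b := by
    intro M hM b
    rw [Matrix.mul_apply, Fin.sum_univ_four, hM 1 (by decide), hM 2 (by decide),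
      hM 3 (by decide)]
    simp
  have h1 : ∀ b : Fin 4, b ≠ 0 → (blk22 (PX F δ) * blk22 (PX F δ)) 0 b = 0 := by
    intro b hb
    rw [hmul _ h0, h0 b hb, mul_zero]
  rw [hmul _ h1, hmul _ h0, h00, Matrix.diagonal_mul_diagonal, Matrix.diagonal_mul_diagonal,
    Matrix.diagonal_apply_eq]
  ring

end

end Pool.Agent.Helper15.NC
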