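import Mathlib

/-!
# Frobenius powers, tight closure and F-regular rings

Definitions used in the statement about nearly commuting matrices.
-/

namespace Pool.Agent.Helper15.NC

universe u

/-- The ideal generated by the `q`-th powers of the elements of `a`. -/
def frobPow {S : Type u} [CommRing S] (q : ℕ) (a : Ideal S) : Ideal S :=
  Ideal.span ((fun x => x ^ q) '' (a : Set S))

/-- The tight closure of an ideal `a` (in characteristic `p`): the elements `z` such that for some
`c` outside every minimal prime, `c * z ^ q` lies in the Frobenius power `a^[q]` for all large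
`q = p ^ e`. -/
def tightClosure (p : ℕ) {S : Type u} [CommRing S] (a : Ideal S) : Set S :=
  {z | ∃ c : S, (∀ q ∈ minimalPrimes S, c ∉ q) ∧
    ∃ e₀ : ℕ, ∀ e : ℕ, e₀ ≤ e → c * z ^ (p ^ e) ∈ frobPow (p ^ e) a}

/-- A ring of characteristic `p` is F-regular if every ideal of every localization equals its
tight closure. -/
def FRegular (p : ℕ) (S : Type u) [CommRing S] : Prop :=
  ∀ (W : Submonoid S) (a : Ideal (Localization W)), tightClosure p a = (a : Set (Localization W))

end Pool.Agent.Helper15.NC
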