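import Pool.Agent.Helper15.NC.Tight

open IsLocalRing

namespace Pool.Agent.Helper15.NC

universe u

theorem pow_mem_frobPow {S : Type u} [CommRing S] (q : ℕ) {a : Ideal S} {x : S} (hx : x ∈ a) :
    x ^ q ∈ frobPow q a := Ideal.subset_span ⟨x, hx, rfl⟩

theorem frobPow_mono {S : Type u} [CommRing S] (q : ℕ) {a b : Ideal S} (h : a ≤ b) :
    frobPow q a ≤ frobPow q b := Ideal.span_mono (Set.image_mono h)

/-- In characteristic `p` the Frobenius power is generated by the powers of generators. -/
theorem frobPow_span {S : Type u} [CommRing S] (p : ℕ) [Fact p.Prime] [CharP S p] (e : ℕ)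
    (s : Set S) : frobPow (p ^ e) (Ideal.span s) = Ideal.span ((fun x => x ^ (p ^ e)) '' s) := by
  apply le_antisymm
  · rw [frobPow, Ideal.span_le]
    rintro _ ⟨x, hx, rfl⟩
    have hx' : x ∈ Ideal.span s := hx
    show x ^ (p ^ e) ∈ Ideal.span ((fun x => x ^ (p ^ e)) '' s)
    refine Submodule.span_induction (p := fun x _ => x ^ (p ^ e) ∈
      Ideal.span ((fun x => x ^ (p ^ e)) '' s)) ?_ ?_ ?_ ?_ hx'
    · intro x hx
      exact Ideal.subset_span ⟨x, hx, rfl⟩
    · rw [zero_pow (pow_ne_zero _ (Fact.out (p := p.Prime)).ne_zero)]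
      exact Ideal.zero_mem _
    · intro x y _ _ hx hy
      rw [add_pow_char_pow]
      exact Ideal.add_mem _ hx hy
    · intro c x _ hx
      rw [smul_eq_mul, mul_pow]
      exact Ideal.mul_mem_left _ _ hx
  · rw [Ideal.span_le]
    rintro _ ⟨x, hx, rfl⟩
    exact pow_mem_frobPow _ (Ideal.subset_span hx)

theorem isReduced_of_tight {T : Type u} [CommRing T] (p : ℕ) [Fact p.Prime]
    (h : ∀ a : Ideal T, tightClosure p a ⊆ a) : IsReduced T := by
  constructor
  rintro x ⟨k, hk⟩
  have hp := (Fact.out (p := p.Prime)).one_lt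
  have hx : x ∈ tightClosure p (⊥ : Ideal T) := by
    refine ⟨1, fun q hq h1 => ?_, k, fun e he => ?_⟩
    · exact hq.1.1.ne_top ((Ideal.eq_top_iff_one q).2 h1)
    · have : k ≤ p ^ e := he.trans (Nat.lt_pow_self hp).le
      rw [one_mul, pow_eq_zero_of_le this hk]
      exact Ideal.zero_mem _
  exact h ⊥ hx

theorem isDomain_of_tight {T : Type u} [CommRing T] [IsLocalRing T] [IsNoetherianRing T] (p : ℕ)
    [Fact p.Prime] [CharP T p] (h : ∀ a : Ideal T, tightClosure p a ⊆ a) : IsDomain T := by
  classical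
  have hred : IsReduced T := isReduced_of_tight p h
  have hp := (Fact.out (p := p.Prime)).ne_zero
  have hfin : (minimalPrimes T).Finite := minimalPrimes.finite_of_isNoetherianRing T
  obtain ⟨q₁, hq₁⟩ : (minimalPrimes T).Nonempty := by
    obtain ⟨q, hq, -⟩ := Ideal.exists_minimalPrimes_le (I := (⊥ : Ideal T))
      (J := maximalIdeal T) bot_le
    exact ⟨q, hq⟩
  have huniq : ∀ q ∈ minimalPrimes T, q = q₁ := by
    intro q₂ hq₂
    by_contra hne
    let s : Finset (Ideal T) := hfin.toFinset.erase q₁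
    have hs : ∀ q ∈ s, q ∈ minimalPrimes T ∧ q ≠ q₁ := by
      intro q hq
      rw [Finset.mem_erase, Set.Finite.mem_toFinset] at hq
      exact ⟨hq.2, hq.1⟩
    have hq₂s : q₂ ∈ s := by
      rw [Finset.mem_erase, Set.Finite.mem_toFinset]
      exact ⟨hne, hq₂⟩
    -- an element of `q₁` in no other minimal prime
    obtain ⟨x, hx1, hx2⟩ : ∃ x ∈ q₁, ∀ q ∈ s, x ∉ q := by
      by_contra hcon
      push Not at hcon
      have hsub : (q₁ : Set T) ⊆ ⋃ q ∈ (s : Set (Ideal T)), (q : Set T) := by
        intro x hx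
        obtain ⟨q, hq, hxq⟩ := hcon x hx
        exact Set.mem_iUnion₂.2 ⟨q, hq, hxq⟩
      rw [Ideal.subset_union_prime (f := fun q => q) ⊥ ⊥
        (fun q hq _ _ => (hs q hq).1.1.1)] at hsub
      obtain ⟨q, hq, hle⟩ := hsub
      exact (hs q hq).2 (le_antisymm ((hs q hq).1.2 ⟨hq₁.1.1, bot_le⟩ hle) hle)
    -- an element of the other minimal primes that is not in `q₁`
    obtain ⟨y, hy1, hy2⟩ : ∃ y, y ∉ q₁ ∧ ∀ q ∈ s, y ∈ q := by
      by_contra hcon
      push Not at hcon
      have hle : s.inf id ≤ q₁ := by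
        intro y hy
        by_contra hyq
        obtain ⟨q, hq, hyq'⟩ := hcon y hyq
        exact hyq' ((Finset.inf_le (f := id) hq : s.inf id ≤ q) hy)
      obtain ⟨q, hq, hle⟩ := (Ideal.IsPrime.inf_le' hq₁.1.1).1 hle
      exact (hs q hq).2 (le_antisymm hle (hq₁.2 ⟨(hs q hq).1.1.1, bot_le⟩ hle))
    have hxy : x * y = 0 := by
      have : x * y ∈ nilradical T := by
        rw [nilradical, Ideal.radical_eq_sInf, Submodule.mem_sInf]
        rintro q ⟨-, hq⟩
        obtain ⟨q', hq', hle⟩ := Ideal.exists_minimalPrimes_le (I := (⊥ : Ideal T))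
          (J := q) bot_le
        apply hle
        by_cases h1 : q' = q₁
        · rw [h1]; exact Ideal.mul_mem_right _ _ hx1
        · refine Ideal.mul_mem_left _ _ (hy2 q' ?_)
          rw [Finset.mem_erase, Set.Finite.mem_toFinset]
          exact ⟨h1, hq'⟩
      rwa [nilradical_eq_zero T, Ideal.zero_eq_bot, Ideal.mem_bot] at this
    have hmin : ∀ q ∈ minimalPrimes T, x + y ∉ q := by
      intro q hq hxy'
      by_cases h1 : q = q₁
      · subst h1
        exact hy1 ((Ideal.add_mem_iff_right q hx1).1 hxy')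
      · have hqs : q ∈ s := by
          rw [Finset.mem_erase, Set.Finite.mem_toFinset]
          exact ⟨h1, hq⟩
        exact hx2 q hqs ((Ideal.add_mem_iff_left q (hy2 q hqs)).1 hxy')
    have hx : x ∈ tightClosure p (Ideal.span {x + y}) := by
      refine ⟨x + y, hmin, 0, fun e _ => ?_⟩
      have hpe : p ^ e ≠ 0 := pow_ne_zero _ hp
      have h1 : (x + y) * x ^ (p ^ e) = x * (x + y) ^ (p ^ e) := by
        obtain ⟨k, hk⟩ := Nat.exists_eq_succ_of_ne_zero hpe
        rw [add_pow_char_pow, add_mul, mul_add]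
        have e1 : y * x ^ p ^ e = 0 := by
          rw [hk, pow_succ]
          linear_combination x ^ k * hxy
        have e2 : x * y ^ p ^ e = 0 := by
          rw [hk, pow_succ]
          linear_combination y ^ k * hxy
        rw [e1, e2]
      rw [h1]
      exact Ideal.mul_mem_left _ _ (pow_mem_frobPow _ (Ideal.mem_span_singleton_self _))
    have hx' := h _ hx
    rw [SetLike.mem_coe, Ideal.mem_span_singleton] at hx'
    obtain ⟨r, hr⟩ := hx'
    rcases IsLocalRing.isUnit_or_isUnit_one_sub_self r with hu | hu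
    · obtain ⟨v, hv⟩ := hu.exists_right_inv
      apply hy1
      have : y = x * (v - 1) := by
        linear_combination (-v) * hr - (x + y) * hv
      rw [this]
      exact Ideal.mul_mem_right _ _ hx1
    · obtain ⟨v, hv⟩ := hu.exists_right_inv
      apply hx2 q₂ hq₂s
      have : x = y * (r * v) := by
        linear_combination v * hr - x * hv
      rw [this]
      exact Ideal.mul_mem_right _ _ (hy2 q₂ hq₂s)
  have hbot : q₁ = ⊥ := by
    rw [eq_bot_iff]
    intro x hx
    have : x ∈ nilradical T := by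
      rw [nilradical, Ideal.radical_eq_sInf, Submodule.mem_sInf]
      rintro q ⟨-, hq⟩
      obtain ⟨q', hq', hle⟩ := Ideal.exists_minimalPrimes_le (I := (⊥ : Ideal T))
        (J := q) bot_le
      rw [huniq q' hq'] at hle
      exact hle hx
    rwa [nilradical_eq_zero T, Ideal.zero_eq_bot] at this
  have := hq₁.1.1
  rw [hbot] at this
  exact IsDomain.of_bot_isPrime T

end Pool.Agent.Helper15.NC
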